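import Pool.Agent.LBB.AbsS
import Pool.Agent.LGr.CollA
import Pool.Agent.LGr.Aom
import Pool.Agent.WCal.Tm
import Pool.Agent.ZU.Cho

/-! # The levels belong to every transitive model of ZFC

(problem MP_328cd5_lc; architect helper69)

`lz_mem_of_mod`: if `W` is a transitive model of ZFC and the ordinal `τ` is in `W` then the set `L τ` is an element of `W`. Proof: recursion on the ordinals `≤ τ` in the typed calculus of `W`; the elements are in the set `w = V_(τ+1)` of `W`. -/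

universe u v w

namespace LBB

open STP LGr WCal WM

variable {W : Set ZFSet.{0}} [hW : Fact (CPY.Mod W)]

/-! ### elements of small rank -/

theorem rank_VV (α : Ordinal.{0}) (hα : α.toZFSet ∈ W) (u : W) (hu : u.1.rank < α) :
    E u (ZU.VV (⟨α.toZFSet, hα⟩ : W)) := by
  induction α using WellFoundedLT.induction generalizing u with
  | ind α ih =>
    have h1 : u.1.rank.toZFSet ∈ W :=
      hW.out.trans _ hα _ (Ordinal.toZFSet_mem_toZFSet_iff.2 hu)
    refine (ZU.mem_VV (N := W)).2 ⟨(⟨u.1.rank.toZFSet, h1⟩ : W), Ordinal.toZFSet_mem_toZFSet_iff.2 hu, fun z hz => ?_⟩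
    have h2 : z.1.rank < u.1.rank := ZFSet.rank_lt_of_mem hz
    exact ih _ hu h1 z h2

variable {w o : W}

/-- the step of the recursion: the order -/
private def SR (S : St W (El o × (St W (El w × El w) × St W (El w)))) (q : El w × El w) : Prop :=
  ∃ (c : El o) (T : St W (El w × El w) × St W (El w)), (c, T) ∈ S ∧ (q ∈ T.1 ∨
    (Df F0 (Ec W) (fun a b => (a, b) ∈ T.1) (· ∈ T.2) q.2 ∧ q.2 ∉ T.2 ∧ (q.1 ∈ T.2 ∨
      (Df F0 (Ec W) (fun a b => (a, b) ∈ T.1) (· ∈ T.2) q.1 ∧ q.1 ∉ T.2 ∧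
        less F0 (Ec W) (fun a b => (a, b) ∈ T.1) (· ∈ T.2) q.1 q.2))))

/-- the step of the recursion: the level -/
private def SD (S : St W (El o × (St W (El w × El w) × St W (El w)))) (x : El w) : Prop :=
  (∀ z, ¬ Ec W z x) ∨ ∃ (c : El o) (T : St W (El w × El w) × St W (El w)), (c, T) ∈ S ∧
    Df F0 (Ec W) (fun a b => (a, b) ∈ T.1) (· ∈ T.2) x

private theorem ip_SR : IP W (fun p : St W (El o × (St W (El w × El w) × St W (El w))) × (El w × El w) =>
    SR p.1 p.2) := by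
  refine IP.ex (IP.ex (IP.and (IP.mem (IF.pair (IF.snd.comp IF.fst) IF.snd) (IF.fst.comp (IF.fst.comp IF.fst)))
    (IP.or (IP.mem (IF.snd.comp (IF.fst.comp IF.fst)) (IF.fst.comp IF.snd)) (IP.and ?_ (IP.and (IP.not (IP.mem
      (IF.snd.comp (IF.snd.comp (IF.fst.comp IF.fst))) (IF.snd.comp IF.snd))) (IP.or (IP.mem
        (IF.fst.comp (IF.snd.comp (IF.fst.comp IF.fst))) (IF.snd.comp IF.snd)) (IP.and ?_ (IP.and (IP.not (IP.mem
          (IF.fst.comp (IF.snd.comp (IF.fst.comp IF.fst))) (IF.snd.comp IF.snd))) ?_))))))))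
  · exact IP.comp2 (P := fun (T : St W (El w × El w) × St W (El w)) (x : El w) =>
      Df F0 (Ec W) (fun a b => (a, b) ∈ T.1) (· ∈ T.2) x) ip_Df IF.snd (IF.snd.comp (IF.snd.comp (IF.fst.comp IF.fst)))
  · exact IP.comp2 (P := fun (T : St W (El w × El w) × St W (El w)) (x : El w) =>
      Df F0 (Ec W) (fun a b => (a, b) ∈ T.1) (· ∈ T.2) x) ip_Df IF.snd (IF.fst.comp (IF.snd.comp (IF.fst.comp IF.fst)))
  · exact IP.comp3 (h := fun (T : St W (El w × El w) × St W (El w)) (x y : El w) =>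
      less F0 (Ec W) (fun a b => (a, b) ∈ T.1) (· ∈ T.2) x y) ip_less IF.snd
      (IF.fst.comp (IF.snd.comp (IF.fst.comp IF.fst))) (IF.snd.comp (IF.snd.comp (IF.fst.comp IF.fst)))

private theorem ip_SD : IP W (fun p : St W (El o × (St W (El w × El w) × St W (El w))) × El w => SD p.1 p.2) := by
  refine IP.or (IP.all (IP.not (IP.comp2 (P := fun x y : El w => Ec W x y) ip_Ec IF.snd (IF.snd.comp IF.fst))))
    (IP.ex (IP.ex (IP.and (IP.mem (IF.pair (IF.snd.comp IF.fst) IF.snd) (IF.fst.comp (IF.fst.comp IF.fst))) ?_)))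
  exact IP.comp2 (P := fun (T : St W (El w × El w) × St W (El w)) (x : El w) =>
      Df F0 (Ec W) (fun a b => (a, b) ∈ T.1) (· ∈ T.2) x) ip_Df IF.snd (IF.snd.comp (IF.fst.comp IF.fst))

/-- the levels in the typed calculus -/
private theorem exists_F : ∃ F : El o → St W (El w × El w) × St W (El w), IF W F ∧
    ∀ (b : El o) (S : St W (El o × (St W (El w × El w) × St W (El w)))),
      (∀ q, q ∈ S ↔ E q.1.v b.v ∧ F q.1 = q.2) → (∀ q, q ∈ (F b).1 ↔ SR S q) ∧ ∀ x, x ∈ (F b).2 ↔ SD S x := by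
  obtain ⟨F, hF, hrec⟩ := wfRec (N := W) (α := El o) (β := St W (El w × El w) × St W (El w))
    (r := fun a b => E a.v b.v) (InvImage.wf (fun a : El o => a.v) WM.wf)
    (IP.of_dfn2 (Q := fun x y => E x y) (ZU.dfn_mem (ZU.df_var 0) (ZU.df_var 1)) fun _ _ => Iff.rfl)
    (G := fun _ S => (⟨{q | SR S q}, (ip_SR (w := w) (o := o)).sec S⟩, ⟨{x | SD S x}, (ip_SD (w := w) (o := o)).sec S⟩))
    (IF.pair ((IF.compr (ip_SR (w := w) (o := o))).comp IF.snd) ((IF.compr (ip_SD (w := w) (o := o))).comp IF.snd))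
  refine ⟨F, hF, fun b S hS => ?_⟩
  have h1 := hrec b S hS
  constructor
  · intro q
    rw [h1]
    exact Iff.rfl
  · intro x
    rw [h1]
    exact Iff.rfl

/-- the main induction -/
private theorem main {τ : Ordinal.{0}} (hτ : (τ + 1).toZFSet ∈ W) (hw : w = ZU.VV (⟨(τ + 1).toZFSet, hτ⟩ : W))
    (ho : o = ⟨(τ + 1).toZFSet, hτ⟩) {F : El o → St W (El w × El w) × St W (El w)} (hF : IF W F)
    (h : ∀ (b : El o) (S : St W (El o × (St W (El w × El w) × St W (El w)))),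
      (∀ q, q ∈ S ↔ E q.1.v b.v ∧ F q.1 = q.2) → (∀ q, q ∈ (F b).1 ↔ SR S q) ∧ ∀ x, x ∈ (F b).2 ↔ SD S x)
    (γ : Ordinal.{0}) (b : El o) (hb : b.v.1 = γ.toZFSet) :
    (∀ x : El w, x ∈ (F b).2 ↔ x.v.1 ∈ U F0 γ) ∧ (∀ x y : El w, (x, y) ∈ (F b).1 ↔ Rl F0 γ x.v.1 y.v.1) ∧
      ∀ z ∈ U F0 γ, ∃ x : El w, x.v.1 = z := by
  have hπ : Function.Injective (fun a : El w => a.v.1) := fun a b hab => El.ext (Subtype.ext hab)
  have htr : ∀ (x : El w) (z : ZFSet.{0}), z ∈ x.v.1 → ∃ y : El w, y.v.1 = z := by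
    intro x z hz
    have h1 : z ∈ W := hW.out.trans _ x.v.2 z hz
    have h2 : E (⟨z, h1⟩ : W) w := by
      rw [hw]
      have h3 : x.v ∈ ZU.VV (⟨(τ + 1).toZFSet, hτ⟩ : W) := by
        rw [← hw]
        exact x.h
      exact ZU.VV_tr h3 _ hz
    exact ⟨⟨_, h2⟩, rfl⟩
  have hp : ∀ (x : El w) (z : ZFSet.{0}), z ∈ (fun a : El w => a.v.1) x ↔ ∃ y : El w, Ec W y x ∧
      (fun a : El w => a.v.1) y = z := by
    intro x z
    constructor
    · intro hz
      obtain ⟨y, rfl⟩ := htr x z hz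
      exact ⟨y, hz, rfl⟩
    · rintro ⟨y, hy, rfl⟩
      exact hy
  induction γ using WellFoundedLT.induction generalizing b with
  | ind γ ih =>
    have hγ : γ ≤ τ := by
      have h1 : b.v.1 ∈ o.1 := b.h
      rw [congrArg Subtype.val ho, hb] at h1
      exact Order.lt_add_one_iff.1 (Ordinal.toZFSet_mem_toZFSet_iff.1 h1)
    have hpre : ∀ β < γ, ∃ c : El o, E c.v b.v ∧ c.v.1 = β.toZFSet := by
      intro β hβ
      have h1 : β.toZFSet ∈ b.v.1 := by
        rw [hb]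
        exact Ordinal.toZFSet_mem_toZFSet_iff.2 hβ
      have h2 : β.toZFSet ∈ W := hW.out.trans _ b.v.2 _ h1
      have h3 : E (⟨β.toZFSet, h2⟩ : W) o := by
        rw [ho]
        exact Ordinal.toZFSet_mem_toZFSet_iff.2 (Order.lt_add_one_iff.2 (hβ.le.trans hγ))
      exact ⟨⟨_, h3⟩, h1, rfl⟩
    have hpre' : ∀ c : El o, E c.v b.v → ∃ β < γ, c.v.1 = β.toZFSet := by
      intro c hc
      have h1 : c.v.1 ∈ γ.toZFSet := by
        rw [← hb]
        exact hc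
      obtain ⟨β, hβ, h2⟩ := Ordinal.mem_toZFSet_iff.1 h1
      exact ⟨β, hβ, h2.symm⟩
    -- facts about one smaller level
    have hst : ∀ β < γ, ∀ c : El o, E c.v b.v → c.v.1 = β.toZFSet →
        (∀ x : El w, x ∈ (F c).2 ↔ x.v.1 ∈ U F0 β) ∧ (∀ x y : El w, (x, y) ∈ (F c).1 ↔ Rl F0 β x.v.1 y.v.1) ∧
        (∀ x : El w, Df F0 (Ec W) (fun a b => (a, b) ∈ (F c).1) (· ∈ (F c).2) x ↔ DfU F0 β x.v.1) ∧
        (∀ x y : El w, less F0 (Ec W) (fun a b => (a, b) ∈ (F c).1) (· ∈ (F c).2) x y ↔ lessU F0 β x.v.1 y.v.1) ∧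
        ∀ z, DfU F0 β z → ∃ x : El w, x.v.1 = z := by
      intro β hβ c hc hcβ
      obtain ⟨i1, i2, i3⟩ := ih β hβ c hcβ
      have j1 : ∀ x : El w, x ∈ (F c).2 → (fun z => z ∈ U F0 β) ((fun a : El w => a.v.1) x) := fun x => (i1 x).1
      have j2 : ∀ z, (fun z => z ∈ U F0 β) z → ∃ x : El w, x ∈ (F c).2 ∧ (fun a : El w => a.v.1) x = z := by
        intro z hz
        obtain ⟨x, rfl⟩ := i3 z hz
        exact ⟨x, (i1 x).2 hz, rfl⟩
      have j3 : ∀ x y : El w, x ∈ (F c).2 → y ∈ (F c).2 → ((x, y) ∈ (F c).1 ↔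
          Rl F0 β ((fun a : El w => a.v.1) x) ((fun a : El w => a.v.1) y)) := fun x y _ _ => i2 x y
      refine ⟨i1, i2, fun x => Df_pi hπ hp j1 j2 j3 x, fun x y => less_pi hπ hp j1 j2 j3 x y, fun z hz => ?_⟩
      obtain ⟨k, hk, hd⟩ := hz
      obtain ⟨⟨φ, a, l⟩, hk', hd'⟩ := key_pi hπ hp j1 j2 j3 k hk
      -- the subset of `w`
      have hP : IP W (fun u : El w => u ∈ (F c).2 ∧ gs (F c) (enc φ) a (u :: a :: l)) := by
        refine IP.and (IP.mem IF.id (IF.const _)) ?_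
        exact IP.comp4 (h := fun (T : St W (El w × El w) × St W (El w)) (n : ℕ) (e : El w) (l : List (El w)) => gs T n e l)
          ip_gs (IF.const _) (IF.const _) (IF.const _) (IF.cons IF.id (IF.const _))
      obtain ⟨y, hy⟩ := exists_sub W _ hP
      have hyu : ∀ u : El w, u.v.1 ∈ y.1 ↔ u ∈ (F c).2 ∧ gs (F c) (enc φ) a (u :: a :: l) := by
        intro u
        constructor
        · intro hu
          obtain ⟨u', hu', huu⟩ := (hy u.v).1 hu
          have h2 : u' = u := El.ext huu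
          rw [← h2]
          exact hu'
        · intro hu
          exact (hy u.v).2 ⟨u, hu, rfl⟩
      have hrk : y.1.rank < τ + 1 := by
        refine lt_of_le_of_lt ?_ (Order.lt_add_one_iff.2 ((Order.add_one_le_of_lt hβ).trans hγ))
        rw [ZFSet.rank_le_iff]
        intro t ht
        have h1 : t ∈ W := hW.out.trans _ y.2 t ht
        obtain ⟨u, hu, hut⟩ := (hy ⟨t, h1⟩).1 ht
        have h2 : u.v.1 = t := congrArg Subtype.val hut
        rw [← h2]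
        exact Order.lt_add_one_iff.2 (rank_le F0 ((i1 u).1 hu.1))
      have h3 : E y w := by
        rw [hw]
        exact rank_VV _ hτ y hrk
      have h4 : Key.dfs F0 (Ec W) (fun a b => (a, b) ∈ (F c).1) (· ∈ (F c).2) ⟨φ, a, l⟩ (⟨y, h3⟩ : El w) := by
        have h5 : gd (F c) (enc φ) a l (⟨y, h3⟩ : El w) := fun u => hyu u
        rw [gd_iff, dF_enc] at h5
        exact h5
      have h5 := (hd' _).1 h4
      refine ⟨⟨y, h3⟩, ZFSet.ext fun t => ?_⟩
      exact (h5 t).trans (hd t).symm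
    obtain ⟨S, hS⟩ : ∃ S : St W (El o × (St W (El w × El w) × St W (El w))),
        ∀ q, q ∈ S ↔ E q.1.v b.v ∧ F q.1 = q.2 := by
      refine ⟨⟨{q | E q.1.v b.v ∧ F q.1 = q.2}, IP.and ?_ (IP.eq (hF.comp IF.fst) IF.snd)⟩, fun q => Iff.rfl⟩
      exact IP.comp2 (P := fun x y : El o => E x.v y.v)
        (IP.of_dfn2 (Q := fun x y => E x y) (ZU.dfn_mem (ZU.df_var 0) (ZU.df_var 1)) fun _ _ => Iff.rfl)
        IF.fst (IF.const b)
    obtain ⟨hR, hD⟩ := h b S hS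
    refine ⟨fun x => ?_, fun x y => ?_, fun z hz => ?_⟩
    · rw [hD, mem_U]
      refine or_congr ?_ ?_
      · constructor
        · intro h1
          rw [ZFSet.eq_empty]
          intro z hz
          obtain ⟨y, rfl⟩ := htr x z hz
          exact h1 y hz
        · intro h1 z hz
          have h2 : z.v.1 ∈ x.v.1 := hz
          rw [h1] at h2
          exact ZFSet.notMem_empty _ h2
      · constructor
        · rintro ⟨c, T, hcT, h1⟩
          obtain ⟨hc, hT⟩ := (hS (c, T)).1 hcT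
          have hT' : F c = T := hT
          subst hT'
          obtain ⟨β, hβ, hcβ⟩ := hpre' c hc
          exact ⟨β, hβ, ((hst β hβ c hc hcβ).2.2.1 x).1 h1⟩
        · rintro ⟨β, hβ, h1⟩
          obtain ⟨c, hc, hcβ⟩ := hpre β hβ
          exact ⟨c, F c, (hS (c, F c)).2 ⟨hc, rfl⟩, ((hst β hβ c hc hcβ).2.2.1 x).2 h1⟩
    · rw [hR, Rl_iff]
      have key : ∀ β < γ, ∀ c : El o, E c.v b.v → c.v.1 = β.toZFSet → (((x, y) ∈ (F c).1 ∨
          (Df F0 (Ec W) (fun a b => (a, b) ∈ (F c).1) (· ∈ (F c).2) y ∧ y ∉ (F c).2 ∧ (x ∈ (F c).2 ∨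
            (Df F0 (Ec W) (fun a b => (a, b) ∈ (F c).1) (· ∈ (F c).2) x ∧ x ∉ (F c).2 ∧
              less F0 (Ec W) (fun a b => (a, b) ∈ (F c).1) (· ∈ (F c).2) x y)))) ↔
          (Rl F0 β x.v.1 y.v.1 ∨ (DfU F0 β y.v.1 ∧ y.v.1 ∉ U F0 β ∧ (x.v.1 ∈ U F0 β ∨
            (DfU F0 β x.v.1 ∧ x.v.1 ∉ U F0 β ∧ lessU F0 β x.v.1 y.v.1))))) := by
        intro β hβ c hc hcβ
        obtain ⟨i1, i2, i3, i4, -⟩ := hst β hβ c hc hcβ
        rw [i1, i1, i2, i3, i3, i4]
      constructor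
      · rintro ⟨c, T, hcT, h1⟩
        obtain ⟨hc, hT⟩ := (hS (c, T)).1 hcT
        have hT' : F c = T := hT
        subst hT'
        obtain ⟨β, hβ, hcβ⟩ := hpre' c hc
        exact ⟨β, hβ, (key β hβ c hc hcβ).1 h1⟩
      · rintro ⟨β, hβ, h1⟩
        obtain ⟨c, hc, hcβ⟩ := hpre β hβ
        exact ⟨c, F c, (hS (c, F c)).2 ⟨hc, rfl⟩, (key β hβ c hc hcβ).2 h1⟩
    · rcases (mem_U F0).1 hz with rfl | ⟨β, hβ, h1⟩
      · have h1 : (∅ : ZFSet.{0}) ∈ W := by
          have h2 : (0 : Ordinal.{0}).toZFSet ∈ (τ + 1).toZFSet :=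
            Ordinal.toZFSet_mem_toZFSet_iff.2 (Order.lt_add_one_iff.2 zero_le)
          rw [Ordinal.toZFSet_zero] at h2
          exact hW.out.trans _ hτ _ h2
        have h2 : E (⟨∅, h1⟩ : W) w := by
          rw [hw]
          refine rank_VV _ hτ _ ?_
          rw [ZFSet.rank_empty]
          exact Order.lt_add_one_iff.2 zero_le
        exact ⟨⟨_, h2⟩, rfl⟩
      · obtain ⟨c, hc, hcβ⟩ := hpre β hβ
        exact (hst β hβ c hc hcβ).2.2.2.2 z h1

/-- the levels belong to every transitive model of ZFC -/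
theorem lz_mem_of_mod {τ : Ordinal.{0}} (hτ : τ.toZFSet ∈ W) : lz τ ∈ W := by
  have h1 : (τ + 1).toZFSet ∈ W := by
    refine hW.out.trans _ (add_om_mem hτ) _ (Ordinal.toZFSet_mem_toZFSet_iff.2 ?_)
    have h2 := (lim_add_om τ)
    exact h2.1.succ_lt h2.2
  let w : W := ZU.VV (⟨(τ + 1).toZFSet, h1⟩ : W)
  let o : W := ⟨(τ + 1).toZFSet, h1⟩
  obtain ⟨F, hF, hrec⟩ := exists_F (w := w) (o := o)
  have h3 : E (⟨τ.toZFSet, hτ⟩ : W) o := Ordinal.toZFSet_mem_toZFSet_iff.2 (Order.lt_add_one_iff.2 le_rfl)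
  obtain ⟨i1, -, i3⟩ := main (w := w) (o := o) h1 rfl rfl hF hrec τ ⟨_, h3⟩ rfl
  have h4 : (cd W (F ⟨_, h3⟩).2).1 = lz τ := by
    apply ZFSet.ext
    intro z
    rw [mem_lz]
    constructor
    · intro hz
      have h5 : z ∈ W := hW.out.trans _ (cd W (F ⟨_, h3⟩).2).2 z hz
      obtain ⟨a, ha, haz⟩ := (cd_st W (F ⟨_, h3⟩).2 ⟨z, h5⟩).1 hz
      have h6 : a.v.1 = z := congrArg Subtype.val haz
      rw [← h6]
      exact (i1 a).1 ha
    · intro hz
      obtain ⟨a, rfl⟩ := i3 z hz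
      exact (cd_st W (F ⟨_, h3⟩).2 a.v).2 ⟨a, (i1 a).2 hz, rfl⟩
  rw [← h4]
  exact (cd W (F ⟨_, h3⟩).2).2

/-- the model `L δ` is contained in every transitive model of ZFC which contains all ordinals below `δ` -/
theorem L_sub_of_mod {δ : Ordinal.{0}} (hδ : Order.IsSuccLimit δ) (h : ∀ α < δ, α.toZFSet ∈ W) : L δ ⊆ W := by
  intro x hx
  obtain ⟨β, hβ, h1⟩ := (U_lim F0 hδ).1 hx
  exact hW.out.trans _ (lz_mem_of_mod (h β hβ)) _ (mem_lz.2 h1)

end LBB
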