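import Pool.Agent.LBB.Bas
import Pool.Agent.WCal.Simp
import Pool.Agent.WCal.ZUb

/-! # Satisfaction, definable subsets and the order of keys are internal

(problem MP_328cd5_lc; architect helper69; no sorry in this file)

`N` is a well-founded model of ZFC, `α` a type of `N` with the membership relation of codes; the order and the domain are internal sets `R`, `D`. -/

universe u v w

namespace LBB

open STP LGr WCal WM

variable {N : Type u} [WM N] {α : Type v} [WTy N α]

variable (N) in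
/-- membership of codes -/
def Ec (a b : α) : Prop := E (cd N a) (cd N b)

/-- satisfaction of the formula number `n`; the assignment is a list, the default value is `e` -/
def gs (T : St N (α × α) × St N α) (n : ℕ) (e : α) (l : List α) : Prop :=
  lsat F0 (Ec N) (fun a b => (a, b) ∈ T.1) (· ∈ T.2) (dF n) (fun i => l.getD i e)

theorem gs_mem {T : St N (α × α) × St N α} {n : ℕ} {e : α} {l : List α} (h : n % 7 = 0) :
    gs T n e l ↔ Ec N (l.getD (Nat.unpair (n / 7)).1 e) (l.getD (Nat.unpair (n / 7)).2 e) := by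
  unfold gs
  rw [dF, if_pos h]
  rfl

theorem gs_eq {T : St N (α × α) × St N α} {n : ℕ} {e : α} {l : List α} (h : n % 7 = 1) :
    gs T n e l ↔ l.getD (Nat.unpair (n / 7)).1 e = l.getD (Nat.unpair (n / 7)).2 e := by
  unfold gs
  rw [dF, if_neg (by omega), if_pos h]
  rfl

theorem gs_lt {T : St N (α × α) × St N α} {n : ℕ} {e : α} {l : List α} (h : n % 7 = 2) :
    gs T n e l ↔ (l.getD (Nat.unpair (n / 7)).1 e, l.getD (Nat.unpair (n / 7)).2 e) ∈ T.1 := by
  unfold gs
  rw [dF, if_neg (by omega), if_neg (by omega), if_pos h]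
  rfl

theorem gs_no {T : St N (α × α) × St N α} {n : ℕ} {e : α} {l : List α} (h : n % 7 = 3 ∨ n % 7 = 4) :
    ¬ gs T n e l := by
  unfold gs
  rcases h with h | h
  · rw [dF, if_neg (by omega), if_neg (by omega), if_neg (by omega), if_pos h]
    rintro ⟨a, b, c, -, -, -, h1⟩
    exact h1
  · rw [dF, if_neg (by omega), if_neg (by omega), if_neg (by omega), if_neg (by omega), if_pos h]
    exact fun h1 => h1

theorem gs_imp {T : St N (α × α) × St N α} {n : ℕ} {e : α} {l : List α} (h : n % 7 = 5) :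
    gs T n e l ↔ (gs T (Nat.unpair (n / 7)).1 e l → gs T (Nat.unpair (n / 7)).2 e l) := by
  unfold gs
  rw [dF, if_neg (by omega), if_neg (by omega), if_neg (by omega), if_neg (by omega),
    if_neg (by omega), dif_pos h]
  rfl

private theorem gs_cns (x e : α) (l : List α) :
    cns x (fun i => l.getD i e) = fun i => (x :: l).getD i e := by
  funext i
  cases i with
  | zero => rfl
  | succ i => rfl

theorem gs_all {T : St N (α × α) × St N α} {n : ℕ} {e : α} {l : List α} (h : n % 7 = 6) :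
    gs T n e l ↔ ∀ x, x ∈ T.2 → gs T (n / 7) e (x :: l) := by
  unfold gs
  rw [dF, if_neg (by omega), if_neg (by omega), if_neg (by omega), if_neg (by omega),
    if_neg (by omega), dif_neg (by omega), dif_pos h]
  refine forall_congr' fun x => imp_congr_right fun _ => ?_
  rw [gs_cns]

private theorem if_getD {γ : Type*} [WTy N γ] {l : γ → List α} {i : γ → ℕ} {e : γ → α} (hl : IF N l)
    (hi : IF N i) (he : IF N e) : IF N (fun c => (l c).getD (i c) (e c)) := by
  refine IF.congr (fun c => ?_) (IF.optElim (b := e) (g := fun _ (x : α) => x) (IF.getElem? hl hi) he IF.snd)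
  rw [List.getD_eq_getElem?_getD]
  cases (l c)[i c]? <;> rfl

/-- states of the recursion -/
abbrev GQ (N : Type u) [WM N] (α : Type v) [WTy N α] : Type v := (St N (α × α) × St N α) × α × List α

/-- the step of the recursion -/
private def Qs (n : ℕ) (S : St N (ℕ × St N (GQ N α))) (q : GQ N α) : Prop :=
  (n % 7 = 0 ∧ Ec N (q.2.2.getD (Nat.unpair (n / 7)).1 q.2.1) (q.2.2.getD (Nat.unpair (n / 7)).2 q.2.1)) ∨
  (n % 7 = 1 ∧ q.2.2.getD (Nat.unpair (n / 7)).1 q.2.1 = q.2.2.getD (Nat.unpair (n / 7)).2 q.2.1) ∨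
  (n % 7 = 2 ∧ (q.2.2.getD (Nat.unpair (n / 7)).1 q.2.1, q.2.2.getD (Nat.unpair (n / 7)).2 q.2.1) ∈ q.1.1) ∨
  (n % 7 = 5 ∧ ((∀ T, ((Nat.unpair (n / 7)).1, T) ∈ S → q ∈ T) →
    ∀ T, ((Nat.unpair (n / 7)).2, T) ∈ S → q ∈ T)) ∨
  (n % 7 = 6 ∧ ∀ a, a ∈ q.1.2 → ∀ T, (n / 7, T) ∈ S → (q.1, q.2.1, a :: q.2.2) ∈ T)

theorem ip_Ec : IP N (fun p : α × α => Ec N p.1 p.2) :=
  IP.of_dfn2 (Q := fun x y => E x y) (ZU.dfn_mem (ZU.df_var 0) (ZU.df_var 1)) fun _ _ => Iff.rfl

private theorem ip_Qs : IP N (fun p : (ℕ × St N (ℕ × St N (GQ N α))) × GQ N α => Qs p.1.1 p.1.2 p.2) := by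
  have hn : IF N (fun p : (ℕ × St N (ℕ × St N (GQ N α))) × GQ N α => p.1.1) := IF.fst.comp IF.fst
  have hS : IF N (fun p : (ℕ × St N (ℕ × St N (GQ N α))) × GQ N α => p.1.2) := IF.snd.comp IF.fst
  have hq : IF N (fun p : (ℕ × St N (ℕ × St N (GQ N α))) × GQ N α => p.2) := IF.snd
  have hT : IF N (fun p : (ℕ × St N (ℕ × St N (GQ N α))) × GQ N α => p.2.1) := IF.fst.comp IF.snd
  have hR : IF N (fun p : (ℕ × St N (ℕ × St N (GQ N α))) × GQ N α => p.2.1.1) := IF.fst.comp hT
  have hD : IF N (fun p : (ℕ × St N (ℕ × St N (GQ N α))) × GQ N α => p.2.1.2) := IF.snd.comp hT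
  have he : IF N (fun p : (ℕ × St N (ℕ × St N (GQ N α))) × GQ N α => p.2.2.1) := IF.fst.comp (IF.snd.comp IF.snd)
  have hl : IF N (fun p : (ℕ × St N (ℕ × St N (GQ N α))) × GQ N α => p.2.2.2) := IF.snd.comp (IF.snd.comp IF.snd)
  have hd := IF.div hn (IF.const 7)
  have h1 := IF.unpair1 hd
  have h2 := IF.unpair2 hd
  have hm := IF.mod hn (IF.const 7)
  refine IP.or (IP.and (IP.eq hm (IF.const 0)) ?_) (IP.or (IP.and (IP.eq hm (IF.const 1)) ?_)
    (IP.or (IP.and (IP.eq hm (IF.const 2)) ?_) (IP.or (IP.and (IP.eq hm (IF.const 5)) ?_)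
    (IP.and (IP.eq hm (IF.const 6)) ?_))))
  · exact IP.comp2 (P := fun x y : α => Ec N x y) ip_Ec (if_getD hl h1 he) (if_getD hl h2 he)
  · exact IP.eq (if_getD hl h1 he) (if_getD hl h2 he)
  · exact IP.mem (IF.pair (if_getD hl h1 he) (if_getD hl h2 he)) hR
  · refine IP.imp (IP.all (IP.imp (IP.mem (IF.pair (h1.comp IF.fst) IF.snd) (hS.comp IF.fst))
      (IP.mem (hq.comp IF.fst) IF.snd))) (IP.all (IP.imp (IP.mem (IF.pair (h2.comp IF.fst) IF.snd)
      (hS.comp IF.fst)) (IP.mem (hq.comp IF.fst) IF.snd)))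
  · refine IP.all (IP.imp (IP.mem IF.snd (hD.comp IF.fst)) (IP.all (IP.imp
      (IP.mem (IF.pair (hd.comp (IF.fst.comp IF.fst)) IF.snd) (hS.comp (IF.fst.comp IF.fst)))
      (IP.mem (IF.pair (hT.comp (IF.fst.comp IF.fst)) (IF.pair (he.comp (IF.fst.comp IF.fst))
        (IF.cons (IF.snd.comp IF.fst) (hl.comp (IF.fst.comp IF.fst))))) IF.snd))))

/-- satisfaction is internal -/
theorem ip_gs : IP N (fun p : (St N (α × α) × St N α) × ℕ × α × List α => gs p.1 p.2.1 p.2.2.1 p.2.2.2) := by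
  obtain ⟨F, hF, hrec⟩ := wfRec (N := N) (α := ℕ)
    (β := St N (GQ N α)) (r := fun m n => m < n)
    (Nat.lt_wfRel.wf) (IP.lt IF.fst IF.snd)
    (G := fun n S => ⟨{q | Qs n S q}, (ip_Qs (N := N) (α := α)).sec (n, S)⟩)
    (IF.compr (ip_Qs (N := N) (α := α)))
  have key : ∀ n, ∀ q : GQ N α, q ∈ F n ↔ gs q.1 n q.2.1 q.2.2 := by
    intro n
    induction n using Nat.strong_induction_on with
    | _ n ih =>
      intro q
      obtain ⟨S, hS⟩ : ∃ S : St N (ℕ × St N (GQ N α)), ∀ z, z ∈ S ↔ z.1 < n ∧ F z.1 = z.2 :=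
        ⟨⟨{z | z.1 < n ∧ F z.1 = z.2}, IP.and (IP.lt IF.fst (IF.const n))
          (IP.eq (hF.comp IF.fst) IF.snd)⟩, fun z => Iff.rfl⟩
      have h1 : q ∈ F n ↔ Qs n S q := by
        rw [hrec n S hS]
        exact Iff.rfl
      have hlt : ∀ m, m < n → ∀ q' : GQ N α,
          (∀ T, (m, T) ∈ S → q' ∈ T) ↔ gs q'.1 m q'.2.1 q'.2.2 := by
        intro m hm q'
        rw [← ih m hm q']
        constructor
        · intro h2
          exact h2 (F m) ((hS _).2 ⟨hm, rfl⟩)
        · intro h2 T hT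
          have h3 : F m = T := ((hS _).1 hT).2
          rw [← h3]
          exact h2
      rw [h1]
      have h7 : n % 7 < 7 := Nat.mod_lt _ (by norm_num)
      rcases (show n % 7 = 0 ∨ n % 7 = 1 ∨ n % 7 = 2 ∨ (n % 7 = 3 ∨ n % 7 = 4) ∨ n % 7 = 5 ∨
        n % 7 = 6 by omega) with h | h | h | h | h | h
      · rw [gs_mem h]
        constructor
        · rintro (⟨h2, h3⟩ | ⟨h2, h3⟩ | ⟨h2, h3⟩ | ⟨h2, h3⟩ | ⟨h2, h3⟩)
          · exact h3
          all_goals omega
        · exact fun h3 => Or.inl ⟨h, h3⟩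
      · rw [gs_eq h]
        constructor
        · rintro (⟨h2, h3⟩ | ⟨h2, h3⟩ | ⟨h2, h3⟩ | ⟨h2, h3⟩ | ⟨h2, h3⟩)
          · omega
          · exact h3
          all_goals omega
        · exact fun h3 => Or.inr (Or.inl ⟨h, h3⟩)
      · rw [gs_lt h]
        constructor
        · rintro (⟨h2, h3⟩ | ⟨h2, h3⟩ | ⟨h2, h3⟩ | ⟨h2, h3⟩ | ⟨h2, h3⟩)
          · omega
          · omega
          · exact h3
          all_goals omega
        · exact fun h3 => Or.inr (Or.inr (Or.inl ⟨h, h3⟩))
      · refine iff_of_false ?_ (gs_no h)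
        rintro (⟨h2, h3⟩ | ⟨h2, h3⟩ | ⟨h2, h3⟩ | ⟨h2, h3⟩ | ⟨h2, h3⟩) <;> omega
      · have h0 : 0 < n := by omega
        have hd : n / 7 < n := Nat.div_lt_self h0 (by norm_num)
        have l1 := hlt _ ((Nat.unpair_left_le (n / 7)).trans_lt hd) q
        have l2 := hlt _ ((Nat.unpair_right_le (n / 7)).trans_lt hd) q
        rw [gs_imp h, ← l1, ← l2]
        constructor
        · rintro (⟨h2, h3⟩ | ⟨h2, h3⟩ | ⟨h2, h3⟩ | ⟨h2, h3⟩ | ⟨h2, h3⟩)
          · omega
          · omega
          · omega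
          · exact h3
          · omega
        · exact fun h3 => Or.inr (Or.inr (Or.inr (Or.inl ⟨h, h3⟩)))
      · have h0 : 0 < n := by omega
        have hd : n / 7 < n := Nat.div_lt_self h0 (by norm_num)
        rw [gs_all h]
        constructor
        · rintro (⟨h2, h3⟩ | ⟨h2, h3⟩ | ⟨h2, h3⟩ | ⟨h2, h3⟩ | ⟨h2, h3⟩)
          · omega
          · omega
          · omega
          · omega
          · intro a ha
            exact (hlt _ hd (q.1, q.2.1, a :: q.2.2)).1 (h3 a ha)
        · intro h3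
          refine Or.inr (Or.inr (Or.inr (Or.inr ⟨h, fun a ha => ?_⟩)))
          exact (hlt _ hd (q.1, q.2.1, a :: q.2.2)).2 (h3 a ha)
  refine IP.congr (P := fun p : (St N (α × α) × St N α) × ℕ × α × List α => (p.1, p.2.2.1, p.2.2.2) ∈ F p.2.1)
    (fun p => key p.2.1 (p.1, p.2.2.1, p.2.2.2)) ?_
  exact IP.mem (IF.pair IF.fst (IF.snd.comp IF.snd)) (hF.comp (IF.fst.comp IF.snd))

/-! ### keys -/

/-- the key with the formula number `n` and the parameters `a, l` defines `x` -/
def gd (T : St N (α × α) × St N α) (n : ℕ) (a : α) (l : List α) (x : α) : Prop :=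
  ∀ z, Ec N z x ↔ z ∈ T.2 ∧ gs T n a (z :: a :: l)

theorem gd_iff {T : St N (α × α) × St N α} {n : ℕ} {a : α} {l : List α} {x : α} :
    gd T n a l x ↔ Key.dfs F0 (Ec N) (fun a b => (a, b) ∈ T.1) (· ∈ T.2) ⟨dF n, a, l⟩ x := by
  refine forall_congr' fun z => ?_
  unfold gs Key.ext'
  rw [← gs_cns z a (a :: l)]
  exact Iff.rfl

theorem ip_gd : IP N (fun p : (St N (α × α) × St N α) × ℕ × α × List α × α =>
    gd p.1 p.2.1 p.2.2.1 p.2.2.2.1 p.2.2.2.2) := by
  refine IP.all (IP.iff (IP.comp2 (P := fun x y : α => Ec N x y) ip_Ec IF.snd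
    (IF.snd.comp (IF.snd.comp (IF.snd.comp (IF.snd.comp IF.fst))))) (IP.and (IP.mem IF.snd
    (IF.snd.comp (IF.fst.comp IF.fst))) ?_))
  refine IP.comp4 (h := fun (T : St N (α × α) × St N α) (n : ℕ) (e : α) (l : List α) => gs T n e l) ip_gs
    (IF.fst.comp IF.fst) (IF.fst.comp (IF.snd.comp IF.fst)) (IF.fst.comp (IF.snd.comp (IF.snd.comp IF.fst)))
    (IF.cons IF.snd (IF.cons (IF.fst.comp (IF.snd.comp (IF.snd.comp IF.fst)))
      (IF.fst.comp (IF.snd.comp (IF.snd.comp (IF.snd.comp IF.fst))))))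

/-- the parameters are in the domain -/
def gok (T : St N (α × α) × St N α) (a : α) (l : List α) : Prop := a ∈ T.2 ∧ ∀ y, y ∈ l → y ∈ T.2

theorem ip_gok : IP N (fun p : (St N (α × α) × St N α) × α × List α => gok p.1 p.2.1 p.2.2) :=
  IP.and (IP.mem (IF.fst.comp IF.snd) (IF.snd.comp IF.fst)) (IP.all (IP.imp
    (IP.memList IF.snd (IF.snd.comp (IF.snd.comp IF.fst))) (IP.mem IF.snd (IF.snd.comp (IF.fst.comp IF.fst)))))

theorem df_iff {T : St N (α × α) × St N α} {x : α} :
    Df F0 (Ec N) (fun a b => (a, b) ∈ T.1) (· ∈ T.2) x ↔ ∃ n a l, gok T a l ∧ gd T n a l x := by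
  constructor
  · rintro ⟨⟨φ, a, l⟩, hk, hd⟩
    refine ⟨enc φ, a, l, hk, ?_⟩
    rw [gd_iff, dF_enc]
    exact hd
  · rintro ⟨n, a, l, hk, hd⟩
    exact ⟨⟨dF n, a, l⟩, hk, gd_iff.1 hd⟩

/-- definability is internal -/
theorem ip_Df : IP N (fun p : (St N (α × α) × St N α) × α =>
    Df F0 (Ec N) (fun a b => (a, b) ∈ p.1.1) (· ∈ p.1.2) p.2) := by
  refine IP.congr (fun p => df_iff.symm) ?_
  refine IP.ex (IP.ex (IP.ex (IP.and ?_ ?_)))
  · exact IP.comp3 (h := fun (T : St N (α × α) × St N α) (a : α) (l : List α) => gok T a l) ip_gok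
      (IF.fst.comp (IF.fst.comp (IF.fst.comp IF.fst))) (IF.snd.comp IF.fst) IF.snd
  · refine IP.comp (P := fun p : (St N (α × α) × St N α) × ℕ × α × List α × α =>
      gd p.1 p.2.1 p.2.2.1 p.2.2.2.1 p.2.2.2.2) (f := fun p : ((((St N (α × α) × St N α) × α) × ℕ) × α) × List α =>
      (p.1.1.1.1, p.1.1.2, p.1.2, p.2, p.1.1.1.2)) ip_gd ?_
    exact IF.pair (IF.fst.comp (IF.fst.comp (IF.fst.comp IF.fst))) (IF.pair (IF.snd.comp (IF.fst.comp IF.fst))
      (IF.pair (IF.snd.comp IF.fst) (IF.pair IF.snd (IF.snd.comp (IF.fst.comp (IF.fst.comp IF.fst))))))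

/-! ### the order of keys -/

theorem enc_dF (n : ℕ) : enc (dF n) ≤ n := by
  induction n using Nat.strong_induction_on with
  | _ n ih =>
    have hm := Nat.div_add_mod n 7
    have h7 : n % 7 < 7 := Nat.mod_lt _ (by norm_num)
    rcases (show n % 7 = 0 ∨ n % 7 = 1 ∨ n % 7 = 2 ∨ n % 7 = 3 ∨ n % 7 = 4 ∨ n % 7 = 5 ∨
      n % 7 = 6 by omega) with h | h | h | h | h | h | h
    · rw [dF, if_pos h, enc, Nat.pair_unpair]
      omega
    · rw [dF, if_neg (by omega), if_pos h, enc, Nat.pair_unpair]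
      omega
    · rw [dF, if_neg (by omega), if_neg (by omega), if_pos h, enc, Nat.pair_unpair]
      omega
    · rw [dF, if_neg (by omega), if_neg (by omega), if_neg (by omega), if_pos h, enc, Nat.pair_unpair,
        Nat.pair_unpair, Nat.pair_unpair]
      omega
    · rw [dF, if_neg (by omega), if_neg (by omega), if_neg (by omega), if_neg (by omega), if_pos h, enc]
      omega
    · have hd : n / 7 < n := Nat.div_lt_self (by omega) (by norm_num)
      have l1 := ih _ ((Nat.unpair_left_le (n / 7)).trans_lt hd)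
      have l2 := ih _ ((Nat.unpair_right_le (n / 7)).trans_lt hd)
      rw [dF, if_neg (by omega), if_neg (by omega), if_neg (by omega), if_neg (by omega),
        if_neg (by omega), dif_pos h, enc]
      have h3 : Nat.pair (enc (dF (Nat.unpair (n / 7)).1)) (enc (dF (Nat.unpair (n / 7)).2)) ≤ n / 7 := by
        have h4 : Nat.pair (enc (dF (Nat.unpair (n / 7)).1)) (enc (dF (Nat.unpair (n / 7)).2)) ≤
            Nat.pair (Nat.unpair (n / 7)).1 (Nat.unpair (n / 7)).2 := by
          rcases l1.lt_or_eq with h5 | h5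
          · rcases l2.lt_or_eq with h6 | h6
            · exact ((Nat.pair_lt_pair_left _ h5).trans (Nat.pair_lt_pair_right _ h6)).le
            · rw [h6]
              exact (Nat.pair_lt_pair_left _ h5).le
          · rcases l2.lt_or_eq with h6 | h6
            · rw [h5]
              exact (Nat.pair_lt_pair_right _ h6).le
            · rw [h5, h6]
        rwa [Nat.pair_unpair] at h4
      omega
    · have hd : n / 7 < n := Nat.div_lt_self (by omega) (by norm_num)
      have l1 := ih _ hd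
      rw [dF, if_neg (by omega), if_neg (by omega), if_neg (by omega), if_neg (by omega),
        if_neg (by omega), dif_neg (by omega), dif_pos h, enc]
      omega

theorem lex_iff {r : α → α → Prop} {l l' : List α} (h : l.length = l'.length) :
    List.Lex r l l' ↔ ∃ (i : ℕ) (a b : α), l.take i = l'.take i ∧ l[i]? = some a ∧ l'[i]? = some b ∧ r a b := by
  induction l generalizing l' with
  | nil =>
    cases l' with
    | nil =>
      refine iff_of_false (fun h1 => nomatch h1) ?_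
      rintro ⟨i, a, b, -, h1, -⟩
      simp at h1
    | cons y l' => simp at h
  | cons x l ih =>
    cases l' with
    | nil => simp at h
    | cons y l' =>
      have hl : l.length = l'.length := by simpa using h
      constructor
      · intro h1
        cases h1 with
        | rel h2 => exact ⟨0, x, y, rfl, rfl, rfl, h2⟩
        | cons h2 =>
          obtain ⟨i, a, b, h3, h4, h5, h6⟩ := (ih hl).1 h2
          exact ⟨i + 1, a, b, by rw [List.take_succ_cons, List.take_succ_cons, h3], h4, h5, h6⟩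
      · rintro ⟨i, a, b, h3, h4, h5, h6⟩
        cases i with
        | zero =>
          have h7 : x = a := by simpa using h4
          have h8 : y = b := by simpa using h5
          rw [h7, h8]
          exact List.Lex.rel h6
        | succ i =>
          rw [List.take_succ_cons, List.take_succ_cons] at h3
          have h7 : x = y := (List.cons.inj h3).1
          rw [h7]
          exact List.Lex.cons ((ih hl).2 ⟨i, a, b, (List.cons.inj h3).2, h4, h5, h6⟩)

theorem ip_slx : IP N (fun p : St N (α × α) × List α × List α =>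
    List.Shortlex (fun a b => (a, b) ∈ p.1) p.2.1 p.2.2) := by
  refine IP.congr (P := fun p : St N (α × α) × List α × List α => p.2.1.length < p.2.2.length ∨
    (p.2.1.length = p.2.2.length ∧ ∃ (i : ℕ) (a b : α), p.2.1.take i = p.2.2.take i ∧ p.2.1[i]? = some a ∧
      p.2.2[i]? = some b ∧ (a, b) ∈ p.1)) (fun p => ?_) ?_
  · rw [List.shortlex_def]
    refine or_congr_right (and_congr_right fun h => ?_)
    exact (lex_iff h).symm
  · have h1 : IF N (fun p : St N (α × α) × List α × List α => p.2.1) := IF.fst.comp IF.snd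
    have h2 : IF N (fun p : St N (α × α) × List α × List α => p.2.2) := IF.snd.comp IF.snd
    refine IP.or (IP.lt (IF.length h1) (IF.length h2)) (IP.and (IP.eq (IF.length h1) (IF.length h2))
      (IP.ex (IP.ex (IP.ex (IP.and (IP.eq ?_ ?_) (IP.and ?_ (IP.and ?_ ?_)))))))
    · exact IF.take (IF.snd.comp (IF.fst.comp IF.fst)) (h1.comp (IF.fst.comp (IF.fst.comp IF.fst)))
    · exact IF.take (IF.snd.comp (IF.fst.comp IF.fst)) (h2.comp (IF.fst.comp (IF.fst.comp IF.fst)))
    · exact IP.eqSome (IF.getElem? (h1.comp (IF.fst.comp (IF.fst.comp IF.fst)))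
        (IF.snd.comp (IF.fst.comp IF.fst))) (IF.snd.comp IF.fst)
    · exact IP.eqSome (IF.getElem? (h2.comp (IF.fst.comp (IF.fst.comp IF.fst)))
        (IF.snd.comp (IF.fst.comp IF.fst))) IF.snd
    · exact IP.mem (IF.pair (IF.snd.comp IF.fst) IF.snd) (IF.fst.comp (IF.fst.comp (IF.fst.comp IF.fst)))

theorem less_iff {T : St N (α × α) × St N α} {x y : α} :
    less F0 (Ec N) (fun a b => (a, b) ∈ T.1) (· ∈ T.2) x y ↔ ∃ n a l, gok T a l ∧ gd T n a l x ∧
      ∀ n' a' l', gok T a' l' → gd T n' a' l' y →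
        n < n' ∨ (n = n' ∧ List.Shortlex (fun a b => (a, b) ∈ T.1) (a :: l) (a' :: l')) := by
  constructor
  · rintro ⟨⟨φ, a, l⟩, hk, hd, h⟩
    refine ⟨enc φ, a, l, hk, ?_, fun n' a' l' hk' hd' => ?_⟩
    · rw [gd_iff, dF_enc]
      exact hd
    · have h1 := enc_dF n'
      rcases h ⟨dF n', a', l'⟩ hk' (gd_iff.1 hd') with h2 | ⟨h2, h3⟩
      · exact Or.inl (h2.trans_le h1)
      · have h4 : φ = dF n' := h2
        rw [← h4] at h1
        rcases h1.lt_or_eq with h5 | h5
        · exact Or.inl h5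
        · exact Or.inr ⟨h5, h3⟩
  · rintro ⟨n, a, l, hk, hd, h⟩
    refine ⟨⟨dF n, a, l⟩, hk, gd_iff.1 hd, ?_⟩
    rintro ⟨φ, a', l'⟩ hk' hd'
    rcases h (enc φ) a' l' hk' (by rw [gd_iff, dF_enc]; exact hd') with h2 | ⟨h2, h3⟩
    · exact Or.inl ((enc_dF n).trans_lt h2)
    · exact Or.inr ⟨by rw [h2, dF_enc], h3⟩

/-- the comparison of new elements is internal -/
theorem ip_less : IP N (fun p : (St N (α × α) × St N α) × α × α =>
    less F0 (Ec N) (fun a b => (a, b) ∈ p.1.1) (· ∈ p.1.2) p.2.1 p.2.2) := by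
  refine IP.congr (fun p => less_iff.symm) ?_
  refine IP.ex (IP.ex (IP.ex (IP.and ?_ (IP.and ?_ (IP.all (IP.all (IP.all (IP.imp ?_ (IP.imp ?_
    (IP.or ?_ (IP.and ?_ ?_)))))))))))
  · exact IP.comp3 (h := fun (T : St N (α × α) × St N α) (a : α) (l : List α) => gok T a l) ip_gok
      (IF.fst.comp (IF.fst.comp (IF.fst.comp IF.fst))) (IF.snd.comp IF.fst) IF.snd
  · refine IP.comp (P := fun p : (St N (α × α) × St N α) × ℕ × α × List α × α =>
      gd p.1 p.2.1 p.2.2.1 p.2.2.2.1 p.2.2.2.2) (f := fun p : ((((St N (α × α) × St N α) × α × α) × ℕ) × α) × List α =>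
      (p.1.1.1.1, p.1.1.2, p.1.2, p.2, p.1.1.1.2.1)) ip_gd ?_
    simp (maxDischargeDepth := 99)
  · refine IP.comp3 (h := fun (T : St N (α × α) × St N α) (a : α) (l : List α) => gok T a l)
      (f := fun p : ((((((((St N (α × α) × St N α) × α × α) × ℕ) × α) × List α) × ℕ) × α) × List α) =>
        p.1.1.1.1.1.1.1) (g := fun p => p.1.2) (k := fun p => p.2) ip_gok ?_ ?_ ?_
    all_goals simp (maxDischargeDepth := 99)
  · refine IP.comp (P := fun p : (St N (α × α) × St N α) × ℕ × α × List α × α =>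
      gd p.1 p.2.1 p.2.2.1 p.2.2.2.1 p.2.2.2.2)
      (f := fun p : ((((((((St N (α × α) × St N α) × α × α) × ℕ) × α) × List α) × ℕ) × α) × List α) =>
      (p.1.1.1.1.1.1.1, p.1.1.2, p.1.2, p.2, p.1.1.1.1.1.1.2.2)) ip_gd ?_
    simp (maxDischargeDepth := 99)
  · refine IP.lt ?_ ?_
    all_goals simp (maxDischargeDepth := 99)
  · refine IP.eq ?_ ?_
    all_goals simp (maxDischargeDepth := 99)
  · refine IP.comp3 (h := fun (R : St N (α × α)) (l l' : List α) => List.Shortlex (fun a b => (a, b) ∈ R) l l')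
      (f := fun p : ((((((((St N (α × α) × St N α) × α × α) × ℕ) × α) × List α) × ℕ) × α) × List α) =>
        p.1.1.1.1.1.1.1.1) (g := fun p => p.1.1.1.1.2 :: p.1.1.1.2) (k := fun p => p.1.2 :: p.2) ip_slx ?_ ?_ ?_
    all_goals simp (maxDischargeDepth := 99)

end LBB
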