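import Pool.Agent.LBB.Defs
import Pool.Agent.LGr.Wol
import Pool.Agent.LGr.OrdL
import Pool.Agent.LGr.Trn

/-! # The family `B`: elementary properties

(problem MP_328cd5_lc, black box L; architect helper69; native)

PROOFS. `L τ` is `U F0 τ`; see `LGr/Hier.lean` (`U_succ`, `U_lim`, `U_mono`, `U_trans`, `DfU`, `uz_mem`, `exists_Df`), `LGr/Wol.lean` (`Lt_irr`, `Lt_tr`, `Lt_lin`, `Lt_wf`), `LGr/OrdL.lean` (`toZFSet_mem_U`, `rank_le`).
* `st_mem`, `st_le`: `sInf` of a nonempty set of ordinals. `st_lt` (limit `τ`): `U_lim`. `st_lz`: `lz α ∈ L (α + 1)`; `lz α ∉ L α` (otherwise `lz α ∈ lz α`).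
* `lz_union`: elements of elements of `L (α + 1)` are in `L α` (`U_succ`, `DfU_sub`), and `z ∈ L α` is in the element `lz α` of `L (α + 1)`.
* `fs_pair`, `sn_pair`: `ZFSet.pair_inj`. `pj_…`: definition. `lv_ord`: `Ordinal.rank_toZFSet`, injectivity.
* `lea_spec`: a nonempty class of elements of `L τ` has an `lL`-least element (`Lt_wf`, `Lt_lin`), unique. `lea_eq`: uniqueness. `lea_none`.
* `pair_mem` (limit `τ`): `{x, y}` is definable over a level which contains `x`, `y` (formula `0 = 1 ∨ 0 = 2`, key with parameters `x`, `y`, `exists_Df`), twice.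
* `B_mem`: induction on the term: components (transitivity), `st`: `toZFSet_mem_U`, `lv`: `uz_mem` and `st`/rank (`x = α.toZFSet ∈ L τ` gives `α < τ`: `rank_le`, limit), `sk`: the value is in `fs x` or empty.
* `dF_enc`: strong recursion equation of `dF` (`dF.eq_def`), `Nat.unpair_pair`, `(7 * a + c) % 7 = c`, `(7 * a + c) / 7 = a` for `c < 7`. `exists_dT`: by induction on the term the code `8 * k + c`. -/

namespace LBB

open STP LGr WCal

theorem mem_lz {τ : Ordinal.{0}} {x : ZFSet.{0}} : x ∈ lz τ ↔ x ∈ L τ := mem_uz F0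

theorem st_mem {τ : Ordinal.{0}} {x : ZFSet.{0}} (h : x ∈ L τ) : x ∈ L (st x) := by
  exact csInf_mem (s := {α | x ∈ L α}) ⟨τ, h⟩

theorem st_le {τ : Ordinal.{0}} {x : ZFSet.{0}} (h : x ∈ L τ) : st x ≤ τ := by
  exact csInf_le' (s := {α | x ∈ L α}) h

theorem st_lt {τ : Ordinal.{0}} (hτ : Order.IsSuccLimit τ) {x : ZFSet.{0}} (h : x ∈ L τ) : st x < τ := by
  obtain ⟨β, hβ, h1⟩ := (U_lim F0 hτ).1 h
  exact (st_le h1).trans_lt hβ

theorem mem_L_iff {τ α : Ordinal.{0}} {x : ZFSet.{0}} (h : x ∈ L τ) : x ∈ L α ↔ st x ≤ α := by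
  exact ⟨fun h1 => st_le h1, fun h1 => U_mono F0 h1 (st_mem h)⟩

theorem st_lz (α : Ordinal.{0}) : st (lz α) = α + 1 := by
  have h1 : lz α ∈ L (α + 1) := uz_mem F0 α
  refine le_antisymm (st_le h1) ?_
  by_contra h2
  have h3 : st (lz α) ≤ α := Order.lt_add_one_iff.1 (not_le.1 h2)
  have h4 : lz α ∈ L α := (mem_L_iff h1).2 h3
  exact ZFSet.mem_irrefl _ (mem_lz.2 h4)

theorem lz_union {α : Ordinal.{0}} {z : ZFSet.{0}} : z ∈ L α ↔ ∃ w ∈ L (α + 1), z ∈ w := by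
  constructor
  · intro h
    exact ⟨lz α, uz_mem F0 α, mem_lz.2 h⟩
  · rintro ⟨w, hw, hz⟩
    exact DfU_sub F0 ((U_succ F0).1 hw) hz

theorem ord_mem_L {τ : Ordinal.{0}} (hτ : Order.IsSuccLimit τ) {α : Ordinal.{0}} : α.toZFSet ∈ L τ ↔ α < τ := by
  constructor
  · intro h
    obtain ⟨β, hβ, h1⟩ := (U_lim F0 hτ).1 h
    have h2 := rank_le F0 h1
    rw [Ordinal.rank_toZFSet] at h2
    exact h2.trans_lt hβ
  · intro h
    have h2 : α + 1 ≤ τ := by
      rw [← Order.succ_eq_add_one]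
      exact (hτ.succ_lt h).le
    exact U_mono F0 h2 (toZFSet_mem_U F0 α)

@[simp] theorem fs_pair (a b : ZFSet.{0}) : fs (ZFSet.pair a b) = a := by
  have h : ∃ a' b', ZFSet.pair a b = ZFSet.pair a' b' := ⟨a, b, rfl⟩
  unfold fs
  rw [dif_pos h]
  obtain ⟨b', h1⟩ := h.choose_spec
  exact (ZFSet.pair_inj.1 h1).1.symm

@[simp] theorem sn_pair (a b : ZFSet.{0}) : sn (ZFSet.pair a b) = b := by
  have h : ∃ b' a', ZFSet.pair a b = ZFSet.pair a' b' := ⟨b, a, rfl⟩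
  unfold sn
  rw [dif_pos h]
  obtain ⟨b', h1⟩ := h.choose_spec
  exact (ZFSet.pair_inj.1 h1).2.symm

@[simp] theorem pj_zero (x : ZFSet.{0}) : pj x 0 = fs x := rfl

@[simp] theorem pj_succ (x : ZFSet.{0}) (i : ℕ) : pj x (i + 1) = pj (sn x) i := rfl

private theorem fst_mem_pair (a b : ZFSet.{0}) : ({a} : ZFSet.{0}) ∈ ZFSet.pair a b := by
  unfold ZFSet.pair
  rw [ZFSet.mem_pair]
  exact Or.inl rfl

private theorem snd_mem_pair (a b : ZFSet.{0}) : ({a, b} : ZFSet.{0}) ∈ ZFSet.pair a b := by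
  unfold ZFSet.pair
  rw [ZFSet.mem_pair]
  exact Or.inr rfl

private theorem empty_ne_pair (a b : ZFSet.{0}) : ∅ ≠ ZFSet.pair a b := by
  intro h
  have h1 := fst_mem_pair a b
  rw [← h] at h1
  exact ZFSet.notMem_empty _ h1

theorem fs_empty : fs ∅ = ∅ := by
  unfold fs
  rw [dif_neg]
  rintro ⟨a, b, h⟩
  exact empty_ne_pair a b h

theorem sn_empty : sn ∅ = ∅ := by
  unfold sn
  rw [dif_neg]
  rintro ⟨a, b, h⟩
  exact empty_ne_pair b a h

theorem pj_empty (i : ℕ) : pj ∅ i = ∅ := by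
  induction i with
  | zero => exact fs_empty
  | succ i ih => rw [pj_succ, sn_empty, ih]

@[simp] theorem lv_ord (α : Ordinal.{0}) : lv α.toZFSet = lz α := by
  unfold lv
  rw [if_pos ⟨α, rfl⟩, Ordinal.rank_toZFSet]

theorem lea_spec {τ : Ordinal.{0}} {P : ZFSet.{0} → Prop} (hP : ∀ y, P y → y ∈ L τ) (h : ∃ y, P y) :
    P (lea P) ∧ ∀ z, P z → lea P = z ∨ lL (lea P) z := by
  have hex : ∃ y, P y ∧ ∀ z, P z → y = z ∨ lL y z := by
    refine ⟨(Lt_wf F0).min {y | P y} h, (Lt_wf F0).min_mem {y | P y} h, fun z hz => ?_⟩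
    have h1 : P ((Lt_wf F0).min {y | P y} h) := (Lt_wf F0).min_mem {y | P y} h
    rcases Lt_lin F0 (x := (Lt_wf F0).min {y | P y} h) (y := z) ⟨τ, hP _ h1⟩ ⟨τ, hP _ hz⟩ with
      h2 | h2 | h2
    · exact Or.inr h2
    · exact Or.inl h2
    · exact absurd h2 ((Lt_wf F0).not_lt_min {y | P y} hz)
  unfold lea
  rw [dif_pos hex]
  exact hex.choose_spec

theorem lea_eq {τ : Ordinal.{0}} {P : ZFSet.{0} → Prop} (hP : ∀ y, P y → y ∈ L τ) {y : ZFSet.{0}} (hy : P y)
    (h : ∀ z, P z → y = z ∨ lL y z) : lea P = y := by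
  obtain ⟨h1, h2⟩ := lea_spec hP ⟨y, hy⟩
  rcases h2 y hy with h3 | h3
  · exact h3
  · rcases h _ h1 with h4 | h4
    · exact h4.symm
    · exact absurd (Lt_tr F0 h3 h4) (Lt_irr F0 _)

theorem lea_none {P : ZFSet.{0} → Prop} (h : ∀ y, ¬ P y) : lea P = ∅ := by
  unfold lea
  rw [dif_neg]
  rintro ⟨y, hy, -⟩
  exact h y hy

theorem up_mem {τ : Ordinal.{0}} (hτ : Order.IsSuccLimit τ) {x y : ZFSet.{0}} (hx : x ∈ L τ) (hy : y ∈ L τ) :
    ({x, y} : ZFSet.{0}) ∈ L τ := by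
  obtain ⟨β1, hβ1, h1⟩ := (U_lim F0 hτ).1 hx
  obtain ⟨β2, hβ2, h2⟩ := (U_lim F0 hτ).1 hy
  have h3 : x ∈ L (max β1 β2) := U_mono F0 (le_max_left _ _) h1
  have h4 : y ∈ L (max β1 β2) := U_mono F0 (le_max_right _ _) h2
  have h5 : max β1 β2 < τ := max_lt hβ1 hβ2
  obtain ⟨w, hw⟩ := exists_Df F0 (max β1 β2) ⟨.imp (.imp (.eq 0 1) .bot) (.eq 0 2), x, [y]⟩
  have h6 : w ∈ L (max β1 β2 + 1) := by
    refine (U_succ F0).2 ⟨_, ⟨h3, fun z hz => ?_⟩, hw⟩
    rw [List.mem_singleton] at hz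
    rw [hz]
    exact h4
  have h7 : w = {x, y} := by
    ext z
    rw [ZFSet.mem_pair]
    refine (hw z).trans ?_
    have e1 : ∀ A B C : Prop, (A → C) → (B → C) → ((C ∧ ((A → False) → B)) ↔ (A ∨ B)) := by
      intro A B C hA hB
      constructor
      · rintro ⟨-, h⟩
        by_cases hA' : A
        · exact Or.inl hA'
        · exact Or.inr (h hA')
      · rintro (h | h)
        · exact ⟨hA h, fun h' => absurd h h'⟩
        · exact ⟨hB h, fun _ => h⟩
    exact e1 (z = x) (z = y) (z ∈ L (max β1 β2)) (fun h => h ▸ h3) (fun h => h ▸ h4)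
  rw [← h7]
  refine U_mono F0 ?_ h6
  rw [← Order.succ_eq_add_one]
  exact (hτ.succ_lt h5).le

theorem pair_mem {τ : Ordinal.{0}} (hτ : Order.IsSuccLimit τ) {x y : ZFSet.{0}} (hx : x ∈ L τ) (hy : y ∈ L τ) :
    ZFSet.pair x y ∈ L τ := by
  have h1 : ({x} : ZFSet.{0}) = {x, x} := by
    ext z
    rw [ZFSet.mem_singleton, ZFSet.mem_pair, or_self_iff]
  unfold ZFSet.pair
  rw [h1]
  exact up_mem hτ (up_mem hτ hx hx) (up_mem hτ hx hy)

/-- limit levels are closed -/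
private theorem fs_mem {τ : Ordinal.{0}} {x : ZFSet.{0}} (hx : x ∈ L τ) : fs x ∈ L τ := by
  by_cases h : ∃ a b, x = ZFSet.pair a b
  · obtain ⟨a, b, rfl⟩ := h
    rw [fs_pair]
    exact U_trans F0 (U_trans F0 hx (fst_mem_pair a b)) (ZFSet.mem_singleton.2 rfl)
  · unfold fs
    rw [dif_neg h]
    exact empty_mem_U F0 τ

private theorem sn_mem {τ : Ordinal.{0}} {x : ZFSet.{0}} (hx : x ∈ L τ) : sn x ∈ L τ := by
  by_cases h : ∃ b a, x = ZFSet.pair a b
  · obtain ⟨b, a, rfl⟩ := h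
    rw [sn_pair]
    exact U_trans F0 (U_trans F0 hx (snd_mem_pair a b)) (ZFSet.mem_pair.2 (Or.inr rfl))
  · unfold sn
    rw [dif_neg h]
    exact empty_mem_U F0 τ

private theorem ev_mem {τ : Ordinal.{0}} (hτ : Order.IsSuccLimit τ) (t : Tm) {x : ZFSet.{0}}
    (hx : x ∈ L τ) : ev t x ∈ L τ := by
  induction t generalizing x with
  | id => exact hx
  | fs => exact fs_mem hx
  | sn => exact sn_mem hx
  | st => exact (ord_mem_L hτ).2 (st_lt hτ hx)
  | lv =>
    change lv x ∈ L τ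
    by_cases h : ∃ α : Ordinal.{0}, x = α.toZFSet
    · obtain ⟨α, rfl⟩ := h
      rw [lv_ord]
      refine U_mono F0 ?_ (uz_mem F0 α)
      rw [← Order.succ_eq_add_one]
      exact (hτ.succ_lt ((ord_mem_L hτ).1 hx)).le
    · unfold lv
      rw [if_neg h]
      exact empty_mem_U F0 τ
  | sk φ =>
    change lea (fun y => y ∈ fs x ∧ us (fs x) φ (cns y (pj (sn x)))) ∈ L τ
    by_cases h : ∃ y, y ∈ fs x ∧ us (fs x) φ (cns y (pj (sn x)))
    · have h1 := (lea_spec (P := fun y => y ∈ fs x ∧ us (fs x) φ (cns y (pj (sn x))))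
        (fun y hy => U_trans F0 (fs_mem hx) hy.1) h).1
      exact U_trans F0 (fs_mem hx) h1.1
    · rw [lea_none fun y hy => h ⟨y, hy⟩]
      exact empty_mem_U F0 τ
  | comp s t ih1 ih2 => exact ih1 (ih2 hx)
  | pair s t ih1 ih2 => exact pair_mem hτ (ih1 hx) (ih2 hx)

theorem B_mem {τ : Ordinal.{0}} (hτ : Order.IsSuccLimit τ) (n : ℕ) {x : ZFSet.{0}} (hx : x ∈ L τ) : B n x ∈ L τ := by
  exact ev_mem hτ (dT n) hx

theorem dF_enc (φ : LF) : dF (enc φ) = φ := by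
  induction φ with
  | mem i j =>
    have h1 : (7 * Nat.pair i j) % 7 = 0 := by omega
    have h2 : (7 * Nat.pair i j) / 7 = Nat.pair i j := by omega
    rw [enc, dF, if_pos h1, h2, Nat.unpair_pair]
  | eq i j =>
    have h1 : (7 * Nat.pair i j + 1) % 7 = 1 := by omega
    have h2 : (7 * Nat.pair i j + 1) / 7 = Nat.pair i j := by omega
    rw [enc, dF, if_neg (by omega), if_pos h1, h2, Nat.unpair_pair]
  | lt i j =>
    have h1 : (7 * Nat.pair i j + 2) % 7 = 2 := by omega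
    have h2 : (7 * Nat.pair i j + 2) / 7 = Nat.pair i j := by omega
    rw [enc, dF, if_neg (by omega), if_neg (by omega), if_pos h1, h2, Nat.unpair_pair]
  | tp r i j k =>
    have h1 : (7 * Nat.pair (Nat.pair r i) (Nat.pair j k) + 3) % 7 = 3 := by omega
    have h2 : (7 * Nat.pair (Nat.pair r i) (Nat.pair j k) + 3) / 7 =
        Nat.pair (Nat.pair r i) (Nat.pair j k) := by omega
    rw [enc, dF, if_neg (by omega), if_neg (by omega), if_neg (by omega), if_pos h1, h2,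
      Nat.unpair_pair]
    simp only [Nat.unpair_pair]
  | bot =>
    rw [enc, dF]
    rfl
  | imp φ ψ ih1 ih2 =>
    have h1 : (7 * Nat.pair (enc φ) (enc ψ) + 5) % 7 = 5 := by omega
    have h2 : (7 * Nat.pair (enc φ) (enc ψ) + 5) / 7 = Nat.pair (enc φ) (enc ψ) := by omega
    rw [enc, dF, if_neg (by omega), if_neg (by omega), if_neg (by omega), if_neg (by omega),
      if_neg (by omega), dif_pos h1, h2, Nat.unpair_pair]
    simp only [ih1, ih2]
  | all φ ih =>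
    have h1 : (7 * enc φ + 6) % 7 = 6 := by omega
    have h2 : (7 * enc φ + 6) / 7 = enc φ := by omega
    rw [enc, dF, if_neg (by omega), if_neg (by omega), if_neg (by omega), if_neg (by omega),
      if_neg (by omega), dif_neg (by omega), dif_pos h1, h2, ih]

theorem exists_dT (t : Tm) : ∃ n, dT n = t := by
  induction t with
  | id => exact ⟨0, by rw [dT]; rfl⟩
  | fs => exact ⟨1, by rw [dT]; rfl⟩
  | sn => exact ⟨2, by rw [dT]; rfl⟩
  | st => exact ⟨3, by rw [dT]; rfl⟩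
  | lv => exact ⟨4, by rw [dT]; rfl⟩
  | sk φ =>
    refine ⟨8 * enc φ + 5, ?_⟩
    have h1 : (8 * enc φ + 5) % 8 = 5 := by omega
    have h2 : (8 * enc φ + 5) / 8 = enc φ := by omega
    rw [dT, if_neg (by omega), if_neg (by omega), if_neg (by omega), if_neg (by omega),
      if_neg (by omega), if_pos h1, h2, dF_enc]
  | comp s t ih1 ih2 =>
    obtain ⟨m, hm⟩ := ih1
    obtain ⟨n, hn⟩ := ih2
    refine ⟨8 * Nat.pair m n + 6, ?_⟩
    have h1 : (8 * Nat.pair m n + 6) % 8 = 6 := by omega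
    have h2 : (8 * Nat.pair m n + 6) / 8 = Nat.pair m n := by omega
    rw [dT, if_neg (by omega), if_neg (by omega), if_neg (by omega), if_neg (by omega),
      if_neg (by omega), if_neg (by omega), dif_pos h1, h2, Nat.unpair_pair]
    simp only [hm, hn]
  | pair s t ih1 ih2 =>
    obtain ⟨m, hm⟩ := ih1
    obtain ⟨n, hn⟩ := ih2
    refine ⟨8 * Nat.pair m n + 7, ?_⟩
    have h1 : (8 * Nat.pair m n + 7) % 8 = 7 := by omega
    have h2 : (8 * Nat.pair m n + 7) / 8 = Nat.pair m n := by omega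
    rw [dT, if_neg (by omega), if_neg (by omega), if_neg (by omega), if_neg (by omega),
      if_neg (by omega), if_neg (by omega), dif_neg (by omega), dif_pos h1, h2, Nat.unpair_pair]
    simp only [hm, hn]

theorem exists_comp (m n : ℕ) : ∃ k, ∀ x, B k x = B m (B n x) := by
  obtain ⟨k, hk⟩ := exists_dT (.comp (dT m) (dT n))
  exact ⟨k, fun x => by unfold B; rw [hk]; rfl⟩

theorem exists_pair (m n : ℕ) : ∃ k, ∀ x, B k x = ZFSet.pair (B m x) (B n x) := by
  obtain ⟨k, hk⟩ := exists_dT (.pair (dT m) (dT n))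
  exact ⟨k, fun x => by unfold B; rw [hk]; rfl⟩

theorem exists_id : ∃ k, ∀ x, B k x = x := by
  obtain ⟨k, hk⟩ := exists_dT .id
  exact ⟨k, fun x => by unfold B; rw [hk]; rfl⟩

theorem exists_fs : ∃ k, ∀ x, B k x = fs x := by
  obtain ⟨k, hk⟩ := exists_dT .fs
  exact ⟨k, fun x => by unfold B; rw [hk]; rfl⟩

theorem exists_sn : ∃ k, ∀ x, B k x = sn x := by
  obtain ⟨k, hk⟩ := exists_dT .sn
  exact ⟨k, fun x => by unfold B; rw [hk]; rfl⟩

theorem exists_st : ∃ k, ∀ x, B k x = (st x).toZFSet := by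
  obtain ⟨k, hk⟩ := exists_dT .st
  exact ⟨k, fun x => by unfold B; rw [hk]; rfl⟩

theorem exists_lv : ∃ k, ∀ x, B k x = lv x := by
  obtain ⟨k, hk⟩ := exists_dT .lv
  exact ⟨k, fun x => by unfold B; rw [hk]; rfl⟩

theorem exists_sk (φ : LF) : ∃ k, ∀ x, B k x = sk φ x := by
  obtain ⟨k, hk⟩ := exists_dT (.sk φ)
  exact ⟨k, fun x => by unfold B; rw [hk]; rfl⟩

/-- limit levels are closed sets -/
theorem cls_L {τ : Ordinal.{0}} (hτ : Order.IsSuccLimit τ) : Cls (L τ) := by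
  exact ⟨⟨∅, empty_mem_U F0 τ⟩, fun x hx y hy => pair_mem hτ hx hy, fun n x hx => B_mem hτ n hx⟩

end LBB
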