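import Pool.Agent.LBB.HbC
import Pool.Agent.LGr.CollB

/-! # Condensation, part A: the collapse

(problem MP_328cd5_lc, black box L; architect helper69; native)

PROOF of `exists_cndA`. `coll` (`LGr/CollB.lean`) for the structure `coh_hb (Cls.isHb …)` (the types `X`, `od X` are small: subsets of `lz τ`, of the ordinals `≤ τ`; `<` is well-founded) gives `ρ : od X → Ordinal`, `π0 : X → ZFSet`. Let `π x := π0 ⟨x, _⟩` for `x ∈ X` (else `∅`), `τ' := sup {ρ i + 1}`. `od X` is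
closed under successors and nonempty, `ρ (α + 1) = ρ α + 1` (`J_iff`, `seg`), so `τ'` is a limit; `ρ i ≤ i` by induction, so `τ' ≤ τ` (`i < τ`). `maps`, `onto`: `lev_iff`, `onto`, every `x ∈ X` is in a level `α ∈ od X` (`IsHb.stage`), `U_lim`. `inj`, `mos`, `mem`, `lt`: the fields of `Cl`. `sat`: let `u ∈ X`,
`v i ∈ X`. `us (π u) φ (π ∘ v)`: the elements of `π u` are the `π y`, `y ∈ u ∩ X`; by `lsat_map`-like induction (quantifiers over `π u` correspond to quantifiers over `u ∩ X`, atoms by `mem`, `inj`, `lt`) it is equivalent to satisfaction of `φ` with quantifiers over `u ∩ X`, so to `us u φ v` by `Cls.tv`.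
`lev`: `lev_iff`. `rk`: the values `ρ`: `π α.toZFSet = (ρ α).toZFSet` for `α ∈ od X`, by induction on `α` (`mos`; the elements of `α.toZFSet` in `X` are the `β.toZFSet` with `β < α`, `β ∈ od X`; `seg`, `J_iff`). -/

namespace LBB

open STP LGr WCal

/-- the collapse of a closed set, basic properties -/
structure CndA (X : Set ZFSet.{0}) (τ : Ordinal.{0}) (π : ZFSet.{0} → ZFSet.{0}) (ρ : Ordinal.{0} → Ordinal.{0}) : Prop where
  lim : Order.IsSuccLimit τ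
  maps : ∀ x ∈ X, π x ∈ L τ
  onto : ∀ z ∈ L τ, ∃ x ∈ X, π x = z
  inj : ∀ x ∈ X, ∀ y ∈ X, π x = π y → x = y
  mem : ∀ x ∈ X, ∀ y ∈ X, (x ∈ y ↔ π x ∈ π y)
  mos : ∀ x ∈ X, ∀ z, z ∈ π x ↔ ∃ y ∈ X, y ∈ x ∧ π y = z
  lt : ∀ x ∈ X, ∀ y ∈ X, (lL x y ↔ lL (π x) (π y))
  sat : ∀ (φ : LF) (u : ZFSet.{0}) (v : ℕ → ZFSet.{0}), u ∈ X → (∀ i, v i ∈ X) →
    (us u φ v ↔ us (π u) φ (fun i => π (v i)))
  rmap : ∀ α ∈ od X, ρ α < τ ∧ ρ α ≤ α
  rmon : ∀ α ∈ od X, ∀ β ∈ od X, (α < β ↔ ρ α < ρ β)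
  ronto : ∀ β < τ, ∃ α ∈ od X, ρ α = β
  ord : ∀ α ∈ od X, π α.toZFSet = (ρ α).toZFSet
  lev : ∀ x ∈ X, ∀ α ∈ od X, (x ∈ L α ↔ π x ∈ L (ρ α))

private theorem cndA_sat {S : Type*} {E lt : S → S → Prop} {π : S → ZFSet.{0}} {D : S → Prop}
    {D' : ZFSet.{0} → Prop} (hE : ∀ x y, E x y ↔ π x ∈ π y) (hi : Function.Injective π)
    (hl : ∀ x y, lt x y ↔ lL (π x) (π y)) (h1 : ∀ x, D x → D' (π x))
    (h2 : ∀ z, D' z → ∃ x, D x ∧ π x = z) (φ : LF) (v : ℕ → S) :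
    lsat F0 E lt D φ v ↔ lsat F0 (· ∈ ·) lL D' φ (fun i => π (v i)) := by
  induction φ generalizing v with
  | mem i j => exact hE _ _
  | eq i j => exact hi.eq_iff.symm
  | lt i j => exact hl _ _
  | tp r i j k => simp only [lsat, F0, and_false, exists_false]
  | bot => exact Iff.rfl
  | imp φ ψ ih1 ih2 => exact imp_congr (ih1 v) (ih2 v)
  | all φ ih =>
    have hc : ∀ x : S, (fun i => π (cns x v i)) = cns (π x) fun i => π (v i) := by
      intro x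
      funext i
      cases i <;> rfl
    constructor
    · intro h z hz
      obtain ⟨x, hx, rfl⟩ := h2 z hz
      rw [← hc]
      exact (ih _).1 (h x hx)
    · intro h x hx
      rw [ih, hc]
      exact h _ (h1 x hx)

theorem exists_cndA {X : Set ZFSet.{0}} {τ : Ordinal.{0}} (h : Cls X) (hτ : Order.IsSuccLimit τ) (hs : X ⊆ L τ) :
    ∃ τ' ≤ τ, ∃ π ρ, CndA X τ' π ρ := by
  classical
  have hb := h.isHb hτ hs
  have hC := coh_hb hb
  have hwf : WellFounded (fun i j : od X => i.1 < j.1) := InvImage.wf Subtype.val Ordinal.lt_wf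
  have hsm : Small.{0} X := by
    have h0 : Small.{0} (lz τ) := inferInstance
    refine small_of_injective (f := fun x : X => (⟨x.1, mem_lz.2 (hs x.2)⟩ : lz τ)) ?_
    intro x y hxy
    exact Subtype.ext (congrArg (fun z : lz τ => z.1) hxy)
  have hsm' : Small.{0} (od X) := by
    refine small_of_injective (f := fun α : od X => (⟨α.1.toZFSet, α.2⟩ : X)) ?_
    intro x y hxy
    exact Subtype.ext (Ordinal.toZFSet_injective (congrArg (fun z : X => z.1) hxy))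
  obtain ⟨ρ0, π0, hcl⟩ := coll hC hwf
  have hltτ : ∀ i : od X, i.1 < τ := fun i => (ord_mem_L hτ).1 (hs i.2)
  have hle : ∀ i : od X, ρ0 i ≤ i.1 := by
    intro i
    induction i using hwf.induction with
    | h i ih =>
      refine le_of_forall_lt fun α hα => ?_
      obtain ⟨j, rfl⟩ := hcl.seg i α hα
      have h1 : j.1 < i.1 := (hcl.J_iff j i).2 hα
      exact (ih j h1).trans_lt h1
  have hne : (∀ i, ρ0 i ≠ τ) := fun i => ((hle i).trans_lt (hltτ i)).ne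
  let τ' : Ordinal.{0} := sInf {α | ∀ i, ρ0 i ≠ α}
  have hτ'le : τ' ≤ τ := csInf_le' (s := {α | ∀ i, ρ0 i ≠ α}) hne
  have hτ'mem : ∀ i, ρ0 i ≠ τ' := csInf_mem (s := {α | ∀ i, ρ0 i ≠ α}) ⟨τ, hne⟩
  have hτ1 : ∀ α, α < τ' → ∃ i, ρ0 i = α := by
    intro α hα
    by_contra hcon
    push Not at hcon
    exact absurd (csInf_le' (s := {α | ∀ i, ρ0 i ≠ α}) hcon) (not_le.2 hα)
  have hτ2 : ∀ i, ρ0 i < τ' := by
    intro i
    by_contra hcon
    rcases (not_lt.1 hcon).lt_or_eq with h1 | h1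
    · obtain ⟨j, hj⟩ := hcl.seg i _ h1
      exact hτ'mem j hj
    · exact hτ'mem i h1.symm
  have hlim : Order.IsSuccLimit τ' := by
    refine ⟨fun hmin => ?_, fun b hb' => ?_⟩
    · have h1 := hτ2 ⟨0, hb.zero⟩
      exact absurd (hmin h1.le) (not_le.2 h1)
    · obtain ⟨i, rfl⟩ := hτ1 b hb'.lt
      have h1 : ρ0 i < ρ0 ⟨i.1 + 1, hb.succ i.1 i.2⟩ :=
        (hcl.J_iff _ _).1 (Order.lt_add_one_iff.2 le_rfl)
      exact hb'.2 h1 (hτ2 _)
  let π : ZFSet.{0} → ZFSet.{0} := fun x => if hx : x ∈ X then π0 ⟨x, hx⟩ else ∅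
  let ρ : Ordinal.{0} → Ordinal.{0} := fun α => if hα : α ∈ od X then ρ0 ⟨α, hα⟩ else 0
  have hπ : ∀ x (hx : x ∈ X), π x = π0 ⟨x, hx⟩ := fun x hx => dif_pos hx
  have hρ : ∀ α (hα : α ∈ od X), ρ α = ρ0 ⟨α, hα⟩ := fun α hα => dif_pos hα
  have hmem : ∀ x y : X, x.1 ∈ y.1 ↔ π0 x ∈ π0 y := by
    intro x y
    rw [hcl.mem]
    constructor
    · intro hxy
      exact ⟨x, hxy, rfl⟩
    · rintro ⟨w, hw, hwx⟩
      rw [← hcl.inj hwx]
      exact hw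
  have hmos : ∀ x ∈ X, ∀ z, z ∈ π x ↔ ∃ y ∈ X, y ∈ x ∧ π y = z := by
    intro x hx z
    rw [hπ x hx, hcl.mem]
    constructor
    · rintro ⟨y, hy, rfl⟩
      exact ⟨y.1, y.2, hy, hπ y.1 y.2⟩
    · rintro ⟨y, hy, hyx, rfl⟩
      exact ⟨⟨y, hy⟩, hyx, (hπ y hy).symm⟩
  have hrmon : ∀ α ∈ od X, ∀ β ∈ od X, (α < β ↔ ρ α < ρ β) := by
    intro α hα β hβ
    rw [hρ α hα, hρ β hβ]
    exact hcl.J_iff ⟨α, hα⟩ ⟨β, hβ⟩
  have hronto : ∀ β < τ', ∃ α ∈ od X, ρ α = β := by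
    intro β hβ
    obtain ⟨i, rfl⟩ := hτ1 β hβ
    exact ⟨i.1, i.2, hρ i.1 i.2⟩
  have hrmap : ∀ α ∈ od X, ρ α < τ' ∧ ρ α ≤ α := by
    intro α hα
    rw [hρ α hα]
    exact ⟨hτ2 _, hle ⟨α, hα⟩⟩
  refine ⟨τ', hτ'le, π, ρ,
    { lim := hlim
      maps := fun x hx => ?_
      onto := fun z hz => ?_
      inj := fun x hx y hy hxy => ?_
      mem := fun x hx y hy => ?_
      mos := hmos
      lt := fun x hx y hy => ?_
      sat := fun φ u v hu hv => ?_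
      rmap := hrmap
      rmon := hrmon
      ronto := hronto
      ord := fun α => ?_
      lev := fun x hx α hα => ?_ }⟩
  · obtain ⟨i, hi⟩ := hC.tot ⟨x, hx⟩
    rw [hπ x hx]
    exact U_mono F0 (hτ2 i).le ((hcl.lev_iff i ⟨x, hx⟩).1 hi)
  · obtain ⟨β, hβ, hz'⟩ := (U_lim F0 hlim).1 hz
    obtain ⟨i, rfl⟩ := hτ1 β hβ
    obtain ⟨x, rfl⟩ := hcl.onto i z hz'
    exact ⟨x.1, x.2, hπ x.1 x.2⟩
  · rw [hπ x hx, hπ y hy] at hxy
    exact congrArg Subtype.val (hcl.inj hxy)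
  · rw [hπ x hx, hπ y hy]
    exact hmem ⟨x, hx⟩ ⟨y, hy⟩
  · rw [hπ x hx, hπ y hy]
    exact hcl.lt_iff ⟨x, hx⟩ ⟨y, hy⟩
  · have h1 := h.tvs hs φ hu (fun i => (⟨v i, hv i⟩ : X))
    refine h1.symm.trans ?_
    have h2 := cndA_sat (π := π0) (D := fun x : X => x.1 ∈ u) (D' := fun z => z ∈ π u) hmem
      hcl.inj hcl.lt_iff (fun x hx => (hmos u hu _).2 ⟨x.1, x.2, hx, hπ x.1 x.2⟩)
      (fun z hz => by
        obtain ⟨y, hy, hyu, hyz⟩ := (hmos u hu z).1 hz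
        exact ⟨⟨y, hy⟩, hyu, (hπ y hy).symm.trans hyz⟩) φ (fun i => (⟨v i, hv i⟩ : X))
    refine h2.trans ?_
    have h3 : (fun i => π0 (⟨v i, hv i⟩ : X)) = fun i => π (v i) :=
      funext fun i => (hπ (v i) (hv i)).symm
    rw [h3]
    exact Iff.rfl
  · induction α using WellFoundedLT.induction with
    | ind α ih =>
      intro hα
      apply ZFSet.ext
      intro z
      rw [hmos _ hα, Ordinal.mem_toZFSet_iff]
      constructor
      · rintro ⟨y, hy, hyα, rfl⟩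
        obtain ⟨β, hβ, rfl⟩ := Ordinal.mem_toZFSet_iff.1 hyα
        exact ⟨ρ β, (hrmon β hy α hα).1 hβ, (ih β hβ hy).symm⟩
      · rintro ⟨γ, hγ, rfl⟩
        obtain ⟨β, hβ, rfl⟩ := hronto γ (hγ.trans (hrmap α hα).1)
        have h1 : β < α := (hrmon β hβ α hα).2 hγ
        exact ⟨β.toZFSet, hβ, Ordinal.toZFSet_mem_toZFSet_iff.2 h1, ih β h1 hβ⟩
  · rw [hπ x hx, hρ α hα]
    exact hcl.lev_iff ⟨α, hα⟩ ⟨x, hx⟩

end LBB
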