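import Pool.Agent.LBB.CndA

/-! # Condensation

(problem MP_328cd5_lc, black box L; architect helper69; native)

PROOFS. `h : Cls X`, `X ⊆ L σ`, `σ` a limit, `hc : CndA X τ π ρ`.
* `up`: `π {x, y} = {π x, π y}` if `x, y, {x, y} ∈ X` (`mos`). If `z ∈ X` has at most two elements then they are in `X` (`Cls.wit` for `u = z`, twice). So for `x, y ∈ X` the elements `{x}`, `{x, y}` of `pair x y ∈ X` are in `X` and `π (pair x y) = pair (π x) (π y)`.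
* `fs`, `sn`: if `x` is a pair then `π x` is the pair of the images; if `π x` is the pair `(c, d)` then `c, d ∈ L τ` are `π a`, `π b`, and `π (pair a b) = π x`, so `x = pair a b` (`inj`). If neither is a pair both values are `∅`, and `π ∅ = ∅`.
* `st`: `x ∈ L α ↔ π x ∈ L (ρ α)` for `α ∈ od X`; `st x ∈ od X`; `st (π x) = ρ (st x)` (`ronto` for the ordinals below). `lz`: `π (lz α) = lz (ρ α)` (`mos`, `lev`, `onto`). `lv`: `x` is an ordinal iff `π x` is one: if `π x = β.toZFSet` then `β < τ` (`ord_mem_L`), `β = ρ α`, `π x = π α.toZFSet`, `inj`.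
* `sk`: `fs`, `sn`, so `π` maps the parameters `pj (sn x) i` to those of `π x`; if there is a witness in `fs x` then by `Cls.wit` the least witness `y` is in `X`, `π y` is a witness by `sat`, and it is least: every witness in `π (fs x)` is `π z` for `z ∈ fs x ∩ X` (`mos`), `z` is a witness (`sat`), `lt`; `lea_eq`.
  Conversely a witness for `π x` comes from one for `x`.
* `B`: induction on the term `dT n`. -/

namespace LBB

open STP LGr WCal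

variable {X : Set ZFSet.{0}} {σ τ : Ordinal.{0}} {π : ZFSet.{0} → ZFSet.{0}} {ρ : Ordinal.{0} → Ordinal.{0}}

private theorem cbMem {x : ZFSet.{0}} (hs : X ⊆ L σ) (hx : x ∈ X) {y : ZFSet.{0}} (hy : y ∈ x) : y ∈ L σ :=
  U_trans F0 (hs hx) hy

private theorem cbUp1 (h : Cls X) (hs : X ⊆ L σ) {z a b : ZFSet.{0}} (hz : z ∈ X) (he : z = {a, b}) :
    a ∈ X ∧ b ∈ X := by
  have hm : ∀ w, w ∈ z ↔ w = a ∨ w = b := by
    intro w
    rw [he]
    exact ZFSet.mem_pair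
  obtain ⟨c, hc, hcz, -, -⟩ := h.wit hs (.imp .bot .bot) hz (v := fun _ => z) (fun _ => hz)
    ⟨a, (hm a).2 (Or.inl rfl), fun h0 => h0⟩
  have key : ∀ c ∈ X, c ∈ z → ∀ d, d ∈ z → d ≠ c → (∀ w, w ∈ z → w = c ∨ w = d) → d ∈ X := by
    intro c hc _ d hdz hdc hall
    obtain ⟨e, he, hez, he2, -⟩ := h.wit hs (.imp (.eq 0 1) .bot) hz (v := fun _ => c) (fun _ => hc)
      ⟨d, hdz, fun h0 => hdc h0⟩
    have he3 : e ≠ c := fun h0 => he2 h0
    rcases hall e hez with h1 | h1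
    · exact absurd h1 he3
    · rw [← h1]
      exact he
  by_cases hab : a = b
  · rcases (hm c).1 hcz with h1 | h1
    · rw [← hab, ← h1]
      exact ⟨hc, hc⟩
    · rw [hab, ← h1]
      exact ⟨hc, hc⟩
  · rcases (hm c).1 hcz with h1 | h1
    · subst h1
      exact ⟨hc, key c hc hcz b ((hm b).2 (Or.inr rfl)) (fun h2 => hab h2.symm) fun w hw => (hm w).1 hw⟩
    · subst h1
      exact ⟨key c hc hcz a ((hm a).2 (Or.inl rfl)) hab fun w hw => ((hm w).1 hw).symm, hc⟩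

private theorem cbEmp (hc : CndA X τ π ρ) (h : Cls X) : π ∅ = ∅ := by
  rw [ZFSet.eq_empty]
  intro y hy
  obtain ⟨z, _, hz, _⟩ := (hc.mos ∅ h.emp y).1 hy
  exact ZFSet.notMem_empty z hz

private theorem cbUp2 (hc : CndA X τ π ρ) {x y z : ZFSet.{0}} (hx : x ∈ X) (hy : y ∈ X) (hz : z ∈ X)
    (he : z = {x, y}) : π z = {π x, π y} := by
  ext w
  rw [hc.mos z hz w, ZFSet.mem_pair]
  constructor
  · rintro ⟨u, _, huz, rfl⟩
    rw [he, ZFSet.mem_pair] at huz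
    rcases huz with rfl | rfl
    · exact Or.inl rfl
    · exact Or.inr rfl
  · rintro (rfl | rfl)
    · exact ⟨x, hx, by rw [he, ZFSet.mem_pair]; exact Or.inl rfl, rfl⟩
    · exact ⟨y, hy, by rw [he, ZFSet.mem_pair]; exact Or.inr rfl, rfl⟩

theorem CndA.pr (h : Cls X) (hσ : Order.IsSuccLimit σ) (hs : X ⊆ L σ) (hc : CndA X τ π ρ) {x y : ZFSet.{0}}
    (hx : x ∈ X) (hy : y ∈ X) : π (ZFSet.pair x y) = ZFSet.pair (π x) (π y) := by
  have _ := hσ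
  have hp := h.pr x hx y hy
  have he : ZFSet.pair x y = {{x}, {x, y}} := rfl
  obtain ⟨h1, h2⟩ := cbUp1 h hs hp he
  have e1 : ({x} : ZFSet.{0}) = {x, x} := by
    ext w
    rw [ZFSet.mem_singleton, ZFSet.mem_pair, or_self]
  have e2 : ({π x} : ZFSet.{0}) = {π x, π x} := by
    ext w
    rw [ZFSet.mem_singleton, ZFSet.mem_pair, or_self]
  rw [cbUp2 hc h1 h2 hp he, cbUp2 hc hx hx h1 e1, cbUp2 hc hx hy h2 rfl, ← e2]
  rfl

private theorem cbPairIn (h : Cls X) {a b : ZFSet.{0}} (hx : ZFSet.pair a b ∈ X) : a ∈ X ∧ b ∈ X := by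
  have h1 := h.fs hx
  have h2 := h.sn hx
  rw [fs_pair] at h1
  rw [sn_pair] at h2
  exact ⟨h1, h2⟩

private theorem cbPairBack (h : Cls X) (hσ : Order.IsSuccLimit σ) (hs : X ⊆ L σ) (hc : CndA X τ π ρ)
    {x c d : ZFSet.{0}} (hx : x ∈ X) (he : π x = ZFSet.pair c d) : ∃ a b, x = ZFSet.pair a b := by
  have hpx : ZFSet.pair c d ∈ L τ := by
    rw [← he]
    exact hc.maps x hx
  have h1 : ({c} : ZFSet.{0}) ∈ L τ := U_trans F0 hpx (by
    change _ ∈ ({{c}, {c, d}} : ZFSet.{0})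
    rw [ZFSet.mem_pair]
    exact Or.inl rfl)
  have h2 : ({c, d} : ZFSet.{0}) ∈ L τ := U_trans F0 hpx (by
    change _ ∈ ({{c}, {c, d}} : ZFSet.{0})
    rw [ZFSet.mem_pair]
    exact Or.inr rfl)
  have h3 : c ∈ L τ := U_trans F0 h1 (ZFSet.mem_singleton.2 rfl)
  have h4 : d ∈ L τ := U_trans F0 h2 (ZFSet.mem_pair.2 (Or.inr rfl))
  obtain ⟨a, ha, rfl⟩ := hc.onto c h3
  obtain ⟨b, hb, rfl⟩ := hc.onto d h4
  refine ⟨a, b, hc.inj _ hx _ (h.pr a ha b hb) ?_⟩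
  rw [he, hc.pr h hσ hs ha hb]

private theorem cbFsSn (h : Cls X) (hσ : Order.IsSuccLimit σ) (hs : X ⊆ L σ) (hc : CndA X τ π ρ)
    {x : ZFSet.{0}} (hx : x ∈ X) : π (LBB.fs x) = LBB.fs (π x) ∧ π (LBB.sn x) = LBB.sn (π x) := by
  by_cases hp : ∃ a b, x = ZFSet.pair a b
  · obtain ⟨a, b, rfl⟩ := hp
    obtain ⟨ha, hb⟩ := cbPairIn h hx
    rw [hc.pr h hσ hs ha hb, fs_pair, fs_pair, sn_pair, sn_pair]
    exact ⟨rfl, rfl⟩
  · have hp' : ¬ ∃ b a, x = ZFSet.pair a b := fun ⟨b, a, h0⟩ => hp ⟨a, b, h0⟩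
    have hq : ¬ ∃ a b, π x = ZFSet.pair a b := fun ⟨a, b, h0⟩ =>
      hp (cbPairBack h hσ hs hc hx h0)
    have hq' : ¬ ∃ b a, π x = ZFSet.pair a b := fun ⟨b, a, h0⟩ => hq ⟨a, b, h0⟩
    have e1 : LBB.fs x = ∅ := dif_neg hp
    have e2 : LBB.sn x = ∅ := dif_neg hp'
    have e3 : LBB.fs (π x) = ∅ := dif_neg hq
    have e4 : LBB.sn (π x) = ∅ := dif_neg hq'
    rw [e1, e2, e3, e4, cbEmp hc h]
    exact ⟨rfl, rfl⟩

private theorem cbSt (h : Cls X) (hs : X ⊆ L σ) (hc : CndA X τ π ρ) {x : ZFSet.{0}} (hx : x ∈ X) :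
    LBB.st (π x) = ρ (LBB.st x) := by
  have h0 : LBB.st x ∈ od X := h.st hx
  have h1 : π x ∈ L (ρ (LBB.st x)) := (hc.lev x hx _ h0).1 (st_mem (hs hx))
  have h2 : LBB.st (π x) ≤ ρ (LBB.st x) := (mem_L_iff (hc.maps x hx)).1 h1
  refine le_antisymm h2 (le_of_not_gt fun h3 => ?_)
  obtain ⟨α, hα, hαe⟩ := hc.ronto _ (h3.trans (hc.rmap _ h0).1)
  have h4 : π x ∈ L (ρ α) := by
    rw [hαe]
    exact st_mem (hc.maps x hx)
  have h5 : LBB.st x ≤ α := (mem_L_iff (hs hx)).1 ((hc.lev x hx α hα).2 h4)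
  rw [← hαe] at h3
  exact absurd h5 (not_le.2 ((hc.rmon α hα _ h0).2 h3))

private theorem cbLz (h : Cls X) (hc : CndA X τ π ρ) {α : Ordinal.{0}} (hα : α ∈ od X) :
    π (lz α) = lz (ρ α) := by
  have h0 := h.lz_mem hα
  ext z
  rw [hc.mos _ h0 z, mem_lz]
  constructor
  · rintro ⟨y, hy, hyz, rfl⟩
    exact (hc.lev y hy α hα).1 (mem_lz.1 hyz)
  · intro hz
    obtain ⟨y, hy, rfl⟩ := hc.onto z (U_mono F0 (hc.rmap α hα).1.le hz)
    exact ⟨y, hy, mem_lz.2 ((hc.lev y hy α hα).2 hz), rfl⟩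

private theorem cbLv (h : Cls X) (hc : CndA X τ π ρ) {x : ZFSet.{0}} (hx : x ∈ X) :
    π (LBB.lv x) = LBB.lv (π x) := by
  by_cases hp : ∃ α : Ordinal.{0}, x = α.toZFSet
  · obtain ⟨α, rfl⟩ := hp
    rw [lv_ord, hc.ord α hx, lv_ord]
    exact cbLz h hc hx
  · have hq : ¬ ∃ α : Ordinal.{0}, π x = α.toZFSet := by
      rintro ⟨β, hβ⟩
      have h1 : β < τ := (ord_mem_L hc.lim).1 (by rw [← hβ]; exact hc.maps x hx)
      obtain ⟨α, hα, rfl⟩ := hc.ronto β h1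
      exact hp ⟨α, hc.inj _ hx _ hα (by rw [hβ, hc.ord α hα])⟩
    have e1 : LBB.lv x = ∅ := if_neg hp
    have e2 : LBB.lv (π x) = ∅ := if_neg hq
    rw [e1, e2, cbEmp hc h]

private theorem cbPj (h : Cls X) (hσ : Order.IsSuccLimit σ) (hs : X ⊆ L σ) (hc : CndA X τ π ρ)
    (i : ℕ) {x : ZFSet.{0}} (hx : x ∈ X) : pj x i ∈ X ∧ π (pj x i) = pj (π x) i := by
  induction i generalizing x with
  | zero => exact ⟨h.fs hx, (cbFsSn h hσ hs hc hx).1⟩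
  | succ i ih =>
    obtain ⟨h1, h2⟩ := ih (h.sn hx)
    refine ⟨h1, ?_⟩
    rw [pj_succ, h2, (cbFsSn h hσ hs hc hx).2, pj_succ]

private theorem cbSk (h : Cls X) (hσ : Order.IsSuccLimit σ) (hs : X ⊆ L σ) (hc : CndA X τ π ρ)
    (φ : LF) {x : ZFSet.{0}} (hx : x ∈ X) : π (LBB.sk φ x) = LBB.sk φ (π x) := by
  have hu : LBB.fs x ∈ X := h.fs hx
  have eu : π (LBB.fs x) = LBB.fs (π x) := (cbFsSn h hσ hs hc hx).1
  have hv : ∀ i, pj (LBB.sn x) i ∈ X := fun i => (cbPj h hσ hs hc i (h.sn hx)).1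
  have ev : ∀ i, π (pj (LBB.sn x) i) = pj (LBB.sn (π x)) i := fun i => by
    rw [(cbPj h hσ hs hc i (h.sn hx)).2, (cbFsSn h hσ hs hc hx).2]
  have hP : ∀ y ∈ X, (y ∈ LBB.fs x ∧ us (LBB.fs x) φ (cns y (pj (LBB.sn x)))) ↔
      (π y ∈ LBB.fs (π x) ∧ us (LBB.fs (π x)) φ (cns (π y) (pj (LBB.sn (π x))))) := by
    intro y hy
    have h1 : (fun i => π (cns y (pj (LBB.sn x)) i)) = cns (π y) (pj (LBB.sn (π x))) := by
      funext i
      cases i with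
      | zero => rfl
      | succ i => exact ev i
    have h2 := hc.sat φ (LBB.fs x) (cns y (pj (LBB.sn x))) hu (fun i => by
      cases i with
      | zero => exact hy
      | succ i => exact hv i)
    rw [h1, eu] at h2
    rw [← h2, ← eu, ← hc.mem y hy _ hu]
  by_cases hw : ∃ y, y ∈ LBB.fs x ∧ us (LBB.fs x) φ (cns y (pj (LBB.sn x)))
  · obtain ⟨y0, hy0, hy1⟩ := hw
    obtain ⟨y, hy, hyu, hyφ, hmin⟩ := h.wit hs φ hu hv ⟨y0, hy0, hy1⟩
    have e1 : LBB.sk φ x = y := lea_eq (τ := σ) (fun z hz => U_trans F0 (hs hu) hz.1) ⟨hyu, hyφ⟩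
      fun z hz => hmin z hz.1 hz.2
    have e2 : LBB.sk φ (π x) = π y := by
      refine lea_eq (τ := τ) (fun z hz => U_trans F0 (by rw [← eu]; exact hc.maps _ hu) hz.1)
        ((hP y hy).1 ⟨hyu, hyφ⟩) ?_
      rintro z ⟨hz1, hz2⟩
      have hz3 := hz1
      rw [← eu] at hz3
      obtain ⟨z', hz', _, rfl⟩ := (hc.mos _ hu z).1 hz3
      obtain ⟨h3, h4⟩ := (hP z' hz').2 ⟨hz1, hz2⟩
      rcases hmin z' h3 h4 with h5 | h5
      · exact Or.inl (by rw [h5])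
      · exact Or.inr ((hc.lt y hy z' hz').1 h5)
    rw [e1, e2]
  · have hw' : ∀ y, ¬ (y ∈ LBB.fs x ∧ us (LBB.fs x) φ (cns y (pj (LBB.sn x)))) :=
      fun y hy => hw ⟨y, hy⟩
    have hw2 : ∀ y, ¬ (y ∈ LBB.fs (π x) ∧ us (LBB.fs (π x)) φ (cns y (pj (LBB.sn (π x))))) := by
      rintro y ⟨hy1, hy2⟩
      have hy3 := hy1
      rw [← eu] at hy3
      obtain ⟨z, hz, _, rfl⟩ := (hc.mos _ hu y).1 hy3
      exact hw' z ((hP z hz).2 ⟨hy1, hy2⟩)
    have e1 : LBB.sk φ x = ∅ := lea_none hw'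
    have e2 : LBB.sk φ (π x) = ∅ := lea_none hw2
    rw [e1, e2, cbEmp hc h]

private theorem cbEvX (h : Cls X) (t : Tm) {x : ZFSet.{0}} (hx : x ∈ X) : ev t x ∈ X := by
  obtain ⟨n, hn⟩ := exists_dT t
  have h1 := h.B n x hx
  unfold LBB.B at h1
  rw [hn] at h1
  exact h1

private theorem cbEv (h : Cls X) (hσ : Order.IsSuccLimit σ) (hs : X ⊆ L σ) (hc : CndA X τ π ρ)
    (t : Tm) {x : ZFSet.{0}} (hx : x ∈ X) : π (ev t x) = ev t (π x) := by
  induction t generalizing x with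
  | id => rfl
  | fs => exact (cbFsSn h hσ hs hc hx).1
  | sn => exact (cbFsSn h hσ hs hc hx).2
  | st =>
    change π (LBB.st x).toZFSet = (LBB.st (π x)).toZFSet
    rw [hc.ord _ (h.st hx), cbSt h hs hc hx]
  | lv => exact cbLv h hc hx
  | sk φ => exact cbSk h hσ hs hc φ hx
  | comp s t ihs iht =>
    change π (ev s (ev t x)) = ev s (ev t (π x))
    rw [ihs (cbEvX h t hx), iht hx]
  | pair s t ihs iht =>
    change π (ZFSet.pair (ev s x) (ev t x)) = ZFSet.pair (ev s (π x)) (ev t (π x))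
    rw [hc.pr h hσ hs (cbEvX h s hx) (cbEvX h t hx), ihs hx, iht hx]

theorem CndA.B (h : Cls X) (hσ : Order.IsSuccLimit σ) (hs : X ⊆ L σ) (hc : CndA X τ π ρ) (n : ℕ) {x : ZFSet.{0}}
    (hx : x ∈ X) : π (LBB.B n x) = LBB.B n (π x) := cbEv h hσ hs hc (dT n) hx

theorem CndA.cnd (h : Cls X) (hσ : Order.IsSuccLimit σ) (hs : X ⊆ L σ) (hc : CndA X τ π ρ) : Cnd X τ π :=
  ⟨hc.lim, hc.maps, hc.onto, hc.inj, hc.mem, hc.mos, hc.lt, hc.sat, fun _ hx _ hy => hc.pr h hσ hs hx hy,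
    fun n _ hx => hc.B h hσ hs n hx⟩

/-- **Condensation.** -/
theorem condensation (h : Cls X) (hσ : Order.IsSuccLimit σ) (hs : X ⊆ L σ) :
    ∃ τ ≤ σ, ∃ π, Cnd X τ π := by
  obtain ⟨τ, hτ, π, ρ, hc⟩ := exists_cndA h hσ hs
  exact ⟨τ, hτ, π, hc.cnd h hσ hs⟩

end LBB
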