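import Pool.Agent.LBB.CndB

/-! # Properties of collapses

(problem MP_328cd5_lc, black box L; architect helper69; native)

PROOFS. `hc : Cnd X τ π`.
* `id`: `T ⊆ X` transitive: by `∈`-induction `π x = x` for `x ∈ T` (`mos`: all elements of `x` are in `T ⊆ X`).
* `ord`: `X ⊆ L σ` for a limit `σ` and `X` closed: by induction on `α`: `π α.toZFSet` is a transitive set of ordinals: the elements are the `π β.toZFSet`, `β < α`, `β ∈ od X`; to see that it is an initial segment of the ordinals: if `γ.toZFSet ∈ π β.toZFSet` then `γ.toZFSet = π z` with `z ∈ β.toZFSet`, `z ∈ X`, so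
  `z = β'.toZFSet`, `β' < β < α`. (Mathlib: `ZFSet.isOrdinal_iff_mem_range_toZFSet`.) `≤`: by induction. `mono`, `onto`.
* `lev`: `π (B n x) = B n (π x)` for the term `lv` (`exists_lv`, `lv_ord`), `ord`. `levm`: `x ∈ L α ↔ π x ∈ L β` if `π α.toZFSet = β.toZFSet` (`mem` with `lz α ∈ X`).
* `big`: if `α.toZFSet ⊆ X` then `π β.toZFSet = β.toZFSet` for `β < α` and, if `α ∈ od X`, also for `α` (`id`). If moreover `λ ∈ od X` and `π λ.toZFSet = λ'.toZFSet` then `λ' ≥ α` … (see the statement). -/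

namespace LBB

open STP LGr WCal

variable {X : Set ZFSet.{0}} {σ τ : Ordinal.{0}} {π : ZFSet.{0} → ZFSet.{0}}

private theorem Cnd.id_aux (hc : Cnd X τ π) {x : ZFSet.{0}} (hx : x ∈ X)
    (h : ∀ y ∈ x, y ∈ X ∧ π y = y) : π x = x := by
  refine ZFSet.ext fun z => ?_
  rw [hc.mos x hx]
  constructor
  · rintro ⟨y, -, hyx, rfl⟩
    rw [(h y hyx).2]
    exact hyx
  · intro hz
    exact ⟨z, (h z hz).1, hz, (h z hz).2⟩

theorem Cnd.id (hc : Cnd X τ π) {T : Set ZFSet.{0}} (hT : ∀ x ∈ T, ∀ y ∈ x, y ∈ T) (hTX : T ⊆ X) {x : ZFSet.{0}}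
    (hx : x ∈ T) : π x = x := by
  induction x using ZFSet.inductionOn with
  | _ x ih =>
    refine hc.id_aux (hTX hx) fun y hy => ⟨hTX (hT x hx y hy), ih y hy (hT x hx y hy)⟩

/-- a set of `X` all whose elements are fixed is fixed -/
theorem Cnd.id' (hc : Cnd X τ π) {x : ZFSet.{0}} (hx : x ∈ X) (h : ∀ y ∈ x, y ∈ X ∧ π y = y) : π x = x := by
  exact hc.id_aux hx h

theorem Cnd.ord (hc : Cnd X τ π) (h : Cls X) (hσ : Order.IsSuccLimit σ) (hs : X ⊆ L σ) {α : Ordinal.{0}}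
    (hα : α ∈ od X) : ∃ β < τ, β ≤ α ∧ π α.toZFSet = β.toZFSet := by
  induction α using WellFoundedLT.induction with
  | _ α ih =>
    have h1 : ∀ z, z ∈ π α.toZFSet ↔ ∃ γ < α, γ ∈ od X ∧ π γ.toZFSet = z := by
      intro z
      rw [hc.mos _ hα]
      constructor
      · rintro ⟨y, hy, hya, rfl⟩
        obtain ⟨γ, hγ, rfl⟩ := Ordinal.mem_toZFSet_iff.1 hya
        exact ⟨γ, hγ, hy, rfl⟩
      · rintro ⟨γ, hγ, hγX, rfl⟩
        exact ⟨γ.toZFSet, hγX, Ordinal.toZFSet_mem_toZFSet_iff.2 hγ, rfl⟩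
    have h2 : (π α.toZFSet).IsOrdinal := by
      rw [ZFSet.isOrdinal_iff_forall_mem_isOrdinal]
      constructor
      · intro w hw z hz
        obtain ⟨γ, hγ, hγX, rfl⟩ := (h1 w).1 hw
        obtain ⟨y, hy, hyγ, rfl⟩ := (hc.mos _ hγX z).1 hz
        obtain ⟨δ, hδ, rfl⟩ := Ordinal.mem_toZFSet_iff.1 hyγ
        exact (h1 _).2 ⟨δ, hδ.trans hγ, hy, rfl⟩
      · intro w hw
        obtain ⟨γ, hγ, hγX, rfl⟩ := (h1 w).1 hw
        obtain ⟨δ, -, -, e⟩ := ih γ hγ hγX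
        rw [e]
        exact ZFSet.isOrdinal_toZFSet δ
    obtain ⟨β, hβ⟩ := ZFSet.isOrdinal_iff_mem_range_toZFSet.1 h2
    refine ⟨β, ?_, ?_, hβ.symm⟩
    · rw [← ord_mem_L hc.lim, hβ]
      exact hc.maps _ hα
    · by_contra hn
      rw [not_le] at hn
      have h3 : α.toZFSet ∈ π α.toZFSet := by
        rw [← hβ]
        exact Ordinal.toZFSet_mem_toZFSet_iff.2 hn
      obtain ⟨γ, hγ, hγX, e⟩ := (h1 _).1 h3
      obtain ⟨δ, -, hδ, e'⟩ := ih γ hγ hγX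
      rw [e'] at e
      rw [Ordinal.toZFSet_injective e] at hδ
      exact absurd hγ (not_lt.2 hδ)

theorem Cnd.ord_onto (hc : Cnd X τ π) (h : Cls X) (hσ : Order.IsSuccLimit σ) (hs : X ⊆ L σ) {β : Ordinal.{0}}
    (hβ : β < τ) : ∃ α ∈ od X, π α.toZFSet = β.toZFSet := by
  obtain ⟨x, hx, hxβ⟩ := hc.onto _ ((ord_mem_L hc.lim).2 hβ)
  by_cases hex : ∃ α : Ordinal.{0}, x = α.toZFSet
  · obtain ⟨α, rfl⟩ := hex
    exact ⟨α, hx, hxβ⟩
  · exfalso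
    obtain ⟨k, hk⟩ := exists_lv
    have h1 := hc.B k x hx
    rw [hk, hk, hxβ, lv_ord, LBB.lv, if_neg hex] at h1
    have h2 : (∅ : ZFSet.{0}) ∈ lz β := mem_lz.2 (empty_mem_U F0 β)
    rw [← h1] at h2
    obtain ⟨y, -, hy, -⟩ := (hc.mos _ h.emp ∅).1 h2
    exact ZFSet.notMem_empty y hy

theorem Cnd.lz_eq (hc : Cnd X τ π) {α β : Ordinal.{0}} (hα : α ∈ od X) (h : π α.toZFSet = β.toZFSet) :
    π (lz α) = lz β := by
  obtain ⟨k, hk⟩ := exists_lv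
  have h1 := hc.B k α.toZFSet hα
  rw [hk, hk, h, lv_ord, lv_ord] at h1
  exact h1

theorem Cnd.emp (hc : Cnd X τ π) (h : Cls X) : π ∅ = ∅ := by
  refine (ZFSet.eq_empty _).2 fun z hz => ?_
  obtain ⟨y, -, hy, -⟩ := (hc.mos _ h.emp z).1 hz
  exact ZFSet.notMem_empty y hy

/-- if `X ∩ α'` is the ordinal `α` then `α'` is mapped to `α` -/
theorem Cnd.cut (hc : Cnd X τ π) (h : Cls X) (hσ : Order.IsSuccLimit σ) (hs : X ⊆ L σ) {α α' : Ordinal.{0}}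
    (h1 : ∀ β, β < α ↔ β ∈ od X ∧ β < α') (h2 : α' ∈ od X) : π α'.toZFSet = α.toZFSet := by
  have h3 : ∀ β < α, π β.toZFSet = β.toZFSet := by
    intro β hβ
    refine hc.id (T := {x | ∃ γ < α, x = γ.toZFSet}) ?_ ?_ ⟨β, hβ, rfl⟩
    · rintro x ⟨γ, hγ, rfl⟩ y hy
      obtain ⟨δ, hδ, rfl⟩ := Ordinal.mem_toZFSet_iff.1 hy
      exact ⟨δ, hδ.trans hγ, rfl⟩
    · rintro x ⟨γ, hγ, rfl⟩
      exact ((h1 γ).1 hγ).1
  refine ZFSet.ext fun z => ?_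
  rw [hc.mos _ h2]
  constructor
  · rintro ⟨y, hy, hya, rfl⟩
    obtain ⟨γ, hγ, rfl⟩ := Ordinal.mem_toZFSet_iff.1 hya
    have h4 : γ < α := (h1 γ).2 ⟨hy, hγ⟩
    rw [h3 γ h4]
    exact Ordinal.toZFSet_mem_toZFSet_iff.2 h4
  · intro hz
    obtain ⟨γ, hγ, rfl⟩ := Ordinal.mem_toZFSet_iff.1 hz
    obtain ⟨h4, h5⟩ := (h1 γ).1 hγ
    exact ⟨γ.toZFSet, h4, Ordinal.toZFSet_mem_toZFSet_iff.2 h5, h3 γ hγ⟩

end LBB
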