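import Pool.Agent.LGr.Hier
import Pool.Agent.WCal.Tm
import Pool.Agent.WCal.Simp

/-! # The constructible levels as a black box (definitions)

(problem MP_328cd5_lc, black box L; architect helper69; definitions, no sorry in this file)

`L τ` is the hierarchy `U Φ τ` of `LGr` without parameter (`Φ = F0`), `lL` its canonical order, `lz τ` the level as a set.
`B n x` (`n : ℕ`, `x` a set): the value of the `n`-th term (`ev (dT n) x`). Terms: identity, components of an ordered pair, `st x` (ordinal of the first level which contains `x`), `lv α` (the level `L α` as a set),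
`sk φ (u, (v0, (v1, …)))` = the `lL`-least `y ∈ u` with `(u, ∈, lL) |= φ(y, v0, v1, …)` (`∅` if there is none), composition, ordered pairs of values.
`Cls X`: `X` is closed. `Cnd X τ π`: `π` is an isomorphism of `X` onto `L τ` (condensation). -/

namespace LBB

open STP LGr WCal

/-- no parameter -/
def F0 (_ _ _ _ : ℕ) : Prop := False

/-- the levels -/
abbrev L (τ : Ordinal.{0}) : Set ZFSet.{0} := U F0 τ

/-- the canonical order -/
abbrev lL : ZFSet.{0} → ZFSet.{0} → Prop := Lt F0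

/-- the level as a set -/
noncomputable abbrev lz (τ : Ordinal.{0}) : ZFSet.{0} := uz F0 τ

/-- the first level which contains `x` -/
noncomputable def st (x : ZFSet.{0}) : Ordinal.{0} := sInf {α | x ∈ L α}

open Classical in
/-- first component of an ordered pair -/
noncomputable def fs (x : ZFSet.{0}) : ZFSet.{0} :=
  if h : ∃ a b, x = ZFSet.pair a b then h.choose else ∅

open Classical in
/-- second component of an ordered pair -/
noncomputable def sn (x : ZFSet.{0}) : ZFSet.{0} :=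
  if h : ∃ b a, x = ZFSet.pair a b then h.choose else ∅

/-- components of a tuple `(v 0, (v 1, …))` -/
noncomputable def pj (x : ZFSet.{0}) : ℕ → ZFSet.{0}
  | 0 => fs x
  | i + 1 => pj (sn x) i

open Classical in
/-- the level of an ordinal -/
noncomputable def lv (x : ZFSet.{0}) : ZFSet.{0} :=
  if ∃ α : Ordinal.{0}, x = α.toZFSet then lz x.rank else ∅

open Classical in
/-- the `lL`-least set with the property `P` -/
noncomputable def lea (P : ZFSet.{0} → Prop) : ZFSet.{0} :=
  if h : ∃ y, P y ∧ ∀ z, P z → y = z ∨ lL y z then h.choose else ∅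

/-- satisfaction in `(u, ∈, lL)` -/
def us (u : ZFSet.{0}) (φ : LF) (v : ℕ → ZFSet.{0}) : Prop := lsat F0 (· ∈ ·) lL (· ∈ u) φ v

/-- the least witness -/
noncomputable def sk (φ : LF) (x : ZFSet.{0}) : ZFSet.{0} :=
  lea fun y => y ∈ fs x ∧ us (fs x) φ (cns y (pj (sn x)))

/-- terms -/
inductive Tm : Type
  | id : Tm
  | fs : Tm
  | sn : Tm
  | st : Tm
  | lv : Tm
  | sk (φ : LF) : Tm
  | comp (s t : Tm) : Tm
  | pair (s t : Tm) : Tm

/-- evaluation of terms -/
noncomputable def ev : Tm → ZFSet.{0} → ZFSet.{0}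
  | .id, x => x
  | .fs, x => LBB.fs x
  | .sn, x => LBB.sn x
  | .st, x => (LBB.st x).toZFSet
  | .lv, x => LBB.lv x
  | .sk φ, x => LBB.sk φ x
  | .comp s t, x => ev s (ev t x)
  | .pair s t, x => ZFSet.pair (ev s x) (ev t x)

private theorem dl1 {n : ℕ} {c d : ℕ} (hd : 1 < d) (hc : 0 < c) (h : n % d = c) : (Nat.unpair (n / d)).1 < n := by
  have h1 : 0 < n := by
    rcases Nat.eq_zero_or_pos n with rfl | h0
    · rw [Nat.zero_mod] at h
      omega
    · exact h0
  exact (Nat.unpair_left_le _).trans_lt (Nat.div_lt_self h1 hd)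

private theorem dl2 {n : ℕ} {c d : ℕ} (hd : 1 < d) (hc : 0 < c) (h : n % d = c) : (Nat.unpair (n / d)).2 < n := by
  have h1 : 0 < n := by
    rcases Nat.eq_zero_or_pos n with rfl | h0
    · rw [Nat.zero_mod] at h
      omega
    · exact h0
  exact (Nat.unpair_right_le _).trans_lt (Nat.div_lt_self h1 hd)

private theorem dl3 {n : ℕ} {c d : ℕ} (hd : 1 < d) (hc : 0 < c) (h : n % d = c) : n / d < n := by
  have h1 : 0 < n := by
    rcases Nat.eq_zero_or_pos n with rfl | h0
    · rw [Nat.zero_mod] at h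
      omega
    · exact h0
  exact Nat.div_lt_self h1 hd

/-- decoding of formulas (`dF (enc φ) = φ`) -/
def dF (n : ℕ) : LF :=
  if n % 7 = 0 then .mem (Nat.unpair (n / 7)).1 (Nat.unpair (n / 7)).2
  else if n % 7 = 1 then .eq (Nat.unpair (n / 7)).1 (Nat.unpair (n / 7)).2
  else if n % 7 = 2 then .lt (Nat.unpair (n / 7)).1 (Nat.unpair (n / 7)).2
  else if n % 7 = 3 then .tp (Nat.unpair (Nat.unpair (n / 7)).1).1 (Nat.unpair (Nat.unpair (n / 7)).1).2
    (Nat.unpair (Nat.unpair (n / 7)).2).1 (Nat.unpair (Nat.unpair (n / 7)).2).2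
  else if n % 7 = 4 then .bot
  else if h5 : n % 7 = 5 then .imp (dF (Nat.unpair (n / 7)).1) (dF (Nat.unpair (n / 7)).2)
  else if h6 : n % 7 = 6 then .all (dF (n / 7))
  else .bot
termination_by n
decreasing_by
  · exact dl1 (by omega) (by omega) h5
  · exact dl2 (by omega) (by omega) h5
  · exact dl3 (by omega) (by omega) h6

/-- decoding of terms -/
def dT (n : ℕ) : Tm :=
  if n % 8 = 0 then .id
  else if n % 8 = 1 then .fs
  else if n % 8 = 2 then .sn
  else if n % 8 = 3 then .st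
  else if n % 8 = 4 then .lv
  else if n % 8 = 5 then .sk (dF (n / 8))
  else if h6 : n % 8 = 6 then .comp (dT (Nat.unpair (n / 8)).1) (dT (Nat.unpair (n / 8)).2)
  else if h7 : n % 8 = 7 then .pair (dT (Nat.unpair (n / 8)).1) (dT (Nat.unpair (n / 8)).2)
  else .id
termination_by n
decreasing_by
  · exact dl1 (by omega) (by omega) h6
  · exact dl2 (by omega) (by omega) h6
  · exact dl1 (by omega) (by omega) h7
  · exact dl2 (by omega) (by omega) h7

/-- the countable family of functions -/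
noncomputable def B (n : ℕ) (x : ZFSet.{0}) : ZFSet.{0} := ev (dT n) x

/-- closed sets -/
structure Cls (X : Set ZFSet.{0}) : Prop where
  ne : X.Nonempty
  pr : ∀ x ∈ X, ∀ y ∈ X, ZFSet.pair x y ∈ X
  B : ∀ n, ∀ x ∈ X, B n x ∈ X

/-- `π` is an isomorphism of `X` onto the level `L τ` -/
structure Cnd (X : Set ZFSet.{0}) (τ : Ordinal.{0}) (π : ZFSet.{0} → ZFSet.{0}) : Prop where
  lim : Order.IsSuccLimit τ
  maps : ∀ x ∈ X, π x ∈ L τ
  onto : ∀ z ∈ L τ, ∃ x ∈ X, π x = z
  inj : ∀ x ∈ X, ∀ y ∈ X, π x = π y → x = y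
  mem : ∀ x ∈ X, ∀ y ∈ X, (x ∈ y ↔ π x ∈ π y)
  mos : ∀ x ∈ X, ∀ z, z ∈ π x ↔ ∃ y ∈ X, y ∈ x ∧ π y = z
  lt : ∀ x ∈ X, ∀ y ∈ X, (lL x y ↔ lL (π x) (π y))
  sat : ∀ (φ : LF) (u : ZFSet.{0}) (v : ℕ → ZFSet.{0}), u ∈ X → (∀ i, v i ∈ X) →
    (us u φ v ↔ us (π u) φ (fun i => π (v i)))
  pr : ∀ x ∈ X, ∀ y ∈ X, π (ZFSet.pair x y) = ZFSet.pair (π x) (π y)
  B : ∀ n, ∀ x ∈ X, π (LBB.B n x) = LBB.B n (π x)

end LBB
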