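import Pool.Agent.LBB.Bas
import Pool.Agent.LGr.Aom
import Pool.Agent.WCal.Simp
import Pool.Agent.WCal.ZUb
import Pool.Agent.WCal.Tm
import Pool.Agent.COD.Defs

/-! # Levels and ordinals as types of the model

(problem MP_328cd5_lc, black box L; architect helper69; internal)

The model is `L δ` (`GM δ`). `L Ω` (for `Ω < δ`, written `[Fact (Ω < δ)]`) and `Set.Iio a` (`[Fact (a < δ)]`) are types of the model. All objects are native: `IP (L δ) (fun p : L Ω × L Ω => p.1.1 ∈ p.2.1)` is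
the statement that membership of elements of `L Ω` is internal.

`ip_cdmem`, `ip_cdeq`: for arbitrary types of a well-founded model membership and equality of codes are internal; so (`IF.of_cd`) a function whose values have the same codes as those of an internal function is internal. Example: `if_ord`, `if_pairL`. -/

universe u v w x

namespace LBB

open STP LGr WCal WM

/-! ### codes -/

section

variable {N : Type u} [WM N] {α : Type v} {β : Type w} {γ : Type x} [WTy N α] [WTy N β] [WTy N γ]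

theorem ip_cdmem : IP N (fun p : α × β => E (cd N p.1) (cd N p.2)) :=
  IP.of_dfn2 (Q := fun x y => E x y) (ZU.dfn_mem (ZU.df_var 0) (ZU.df_var 1)) fun _ _ => Iff.rfl

theorem ip_cdeq : IP N (fun p : α × β => cd N p.1 = cd N p.2) :=
  IP.of_dfn2 (Q := fun x y => x = y) (ZU.dfn_eq (ZU.df_var 0) (ZU.df_var 1)) fun _ _ => Iff.rfl

theorem IP.cdmem {f : γ → α} {g : γ → β} (hf : IF N f) (hg : IF N g) : IP N (fun c => E (cd N (f c)) (cd N (g c))) :=
  IP.comp2 (P := fun (a : α) (b : β) => E (cd N a) (cd N b)) ip_cdmem hf hg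

theorem IP.cdeq {f : γ → α} {g : γ → β} (hf : IF N f) (hg : IF N g) : IP N (fun c => cd N (f c) = cd N (g c)) :=
  IP.comp2 (P := fun (a : α) (b : β) => cd N a = cd N b) ip_cdeq hf hg

/-- a function with the same codes as an internal function is internal -/
theorem IF.of_cd {f : γ → α} {g : γ → β} (hf : IF N f) (h : ∀ c, cd N (g c) = cd N (f c)) : IF N g :=
  IF.ofP (Q := fun c b => cd N (f c) = cd N b) (IP.cdeq (hf.comp IF.fst) IF.snd) fun c b => by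
    rw [← h, cd_inj]

end

/-- the model -/
class GM (δ : Ordinal.{0}) : Prop where
  lim : Order.IsSuccLimit δ
  om : Ordinal.omega0 < δ
  ct : (L δ).Countable
  mod : CPY.Mod (L δ)

variable {δ : Ordinal.{0}}

instance instFactMod [h : GM δ] : Fact (CPY.Mod (L δ)) := ⟨h.mod⟩

/-- ordinals -/
noncomputable instance instWTyIio [hG : GM δ] {a : Ordinal.{0}} [h : Fact (a < δ)] : WTy (L δ) (Set.Iio a) where
  cd x := ⟨x.1.toZFSet, (ord_mem_L hG.lim).2 (lt_trans x.2 h.out)⟩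
  inj x y hxy := Subtype.ext (Ordinal.toZFSet_injective (congrArg Subtype.val hxy))
  rg := ⟨a.toZFSet, (ord_mem_L hG.lim).2 h.out⟩
  mem_rg x := by
    constructor
    · intro hx
      obtain ⟨α, hα, hx⟩ := Ordinal.mem_toZFSet_iff.1 (show x.1 ∈ a.toZFSet from hx)
      exact ⟨⟨α, hα⟩, Subtype.ext hx⟩
    · rintro ⟨y, rfl⟩
      exact Ordinal.toZFSet_mem_toZFSet_iff.2 y.2

/-- levels -/
noncomputable instance instWTyL [hG : GM δ] {Ω : Ordinal.{0}} [h : Fact (Ω < δ)] : WTy (L δ) (L Ω) where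
  cd x := ⟨x.1, U_mono F0 h.out.le x.2⟩
  inj x y hxy := by
    have h1 : x.1 = y.1 := congrArg (Subtype.val : L δ → ZFSet.{0}) hxy
    exact Subtype.ext h1
  rg := ⟨lz Ω, uz_mem' hG.lim h.out⟩
  mem_rg x := by
    constructor
    · intro hx
      exact ⟨⟨x.1, mem_lz.1 hx⟩, rfl⟩
    · rintro ⟨y, rfl⟩
      exact mem_lz.2 y.2

variable [hG : GM δ] {Ω Ω' a b : Ordinal.{0}} [hΩ : Fact (Ω < δ)] [hΩ' : Fact (Ω' < δ)] [ha : Fact (a < δ)]
  [hb : Fact (b < δ)]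

theorem cd_L (x : L Ω) : (cd (L δ) x).1 = x.1 := rfl

theorem cd_Iio (x : Set.Iio a) : (cd (L δ) x).1 = x.1.toZFSet := rfl

theorem cd_prod {α : Type v} {β : Type w} [WTy (L δ) α] [WTy (L δ) β] (p : α × β) :
    (cd (L δ) p).1 = ZFSet.pair (cd (L δ) p.1).1 (cd (L δ) p.2).1 := op_val _ _

theorem ip_memL : IP (L δ) (fun p : L Ω × L Ω' => p.1.1 ∈ p.2.1) := ip_cdmem

theorem ip_lL : IP (L δ) (fun p : L Ω × L Ω' => lL p.1.1 p.2.1) :=
  IP.comp2 (P := fun (x : El (⟨lz Ω, uz_mem' hG.lim hΩ.out⟩ : L δ)) (y : El (⟨lz Ω', uz_mem' hG.lim hΩ'.out⟩ : L δ)) =>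
    lL x.v.1 y.v.1) (f := fun p : L Ω × L Ω' => (⟨⟨p.1.1, U_mono F0 hΩ.out.le p.1.2⟩, mem_lz.2 p.1.2⟩ :
      El (⟨lz Ω, uz_mem' hG.lim hΩ.out⟩ : L δ)))
    (g := fun p : L Ω × L Ω' => (⟨⟨p.2.1, U_mono F0 hΩ'.out.le p.2.2⟩, mem_lz.2 p.2.2⟩ :
      El (⟨lz Ω', uz_mem' hG.lim hΩ'.out⟩ : L δ)))
    (ip_Lt hG.lim _ _) (IF.of_cd (f := fun p : L Ω × L Ω' => p.1) IF.fst fun _ => rfl)
    (IF.of_cd (f := fun p : L Ω × L Ω' => p.2) IF.snd fun _ => rfl)

theorem ip_ltO : IP (L δ) (fun p : Set.Iio a × Set.Iio b => p.1.1 < p.2.1) :=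
  IP.congr (P := fun p : Set.Iio a × Set.Iio b => E (cd (L δ) p.1) (cd (L δ) p.2))
    (fun _ => Ordinal.toZFSet_mem_toZFSet_iff) ip_cdmem

/-- an ordinal below `a` is an element of `L Ω` -/
theorem if_ord (h : ∀ x : Set.Iio a, x.1.toZFSet ∈ L Ω) : IF (L δ) (fun x : Set.Iio a => (⟨x.1.toZFSet, h x⟩ : L Ω)) :=
  IF.of_cd (f := fun x : Set.Iio a => x) IF.id fun _ => rfl

/-- inclusion of levels -/
theorem if_incl (h : Ω ≤ Ω') : IF (L δ) (fun x : L Ω => (⟨x.1, U_mono F0 h x.2⟩ : L Ω')) :=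
  IF.of_cd (f := fun x : L Ω => x) IF.id fun _ => rfl

theorem if_inclO (h : a ≤ b) : IF (L δ) (fun x : Set.Iio a => (⟨x.1, lt_of_lt_of_le x.2 h⟩ : Set.Iio b)) :=
  IF.of_cd (f := fun x : Set.Iio a => x) IF.id fun _ => rfl

theorem if_pairL (h : Order.IsSuccLimit Ω) :
    IF (L δ) (fun p : L Ω × L Ω => (⟨ZFSet.pair p.1.1 p.2.1, pair_mem h p.1.2 p.2.2⟩ : L Ω)) :=
  IF.of_cd (f := fun p : L Ω × L Ω => p) IF.id fun p =>
    Subtype.ext (cd_prod (δ := δ) (α := L Ω) (β := L Ω) p).symm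

/-- the elements of a type of the model are elements of `L Ω` for some `Ω` -/
theorem exists_Om (α : Type v) [WTy (L δ) α] (ζ : Ordinal.{0}) (hζ : ζ < δ) :
    ∃ Ω, ζ < Ω ∧ Ω < δ ∧ Order.IsSuccLimit Ω ∧ ∀ x : α, (cd (L δ) x).1 ∈ L Ω := by
  obtain ⟨γ, hγ, h1⟩ := (U_lim F0 hG.lim).1 (rg (L δ) α).2
  obtain ⟨Ω, h2, h3, h4⟩ := exists_lim (Φ := F0) hG.lim (α := max ζ γ) (max_lt hζ hγ)
  refine ⟨Ω, (le_max_left _ _).trans_lt h2, h3, h4, fun x => ?_⟩
  exact U_mono F0 ((le_max_right _ _).trans h2.le) (U_trans F0 h1 (cd_mem (N := L δ) x))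

/-- the code as an element of `L Ω` -/
theorem if_code {α : Type v} [WTy (L δ) α] (h : ∀ x : α, (cd (L δ) x).1 ∈ L Ω) :
    IF (L δ) (fun x : α => (⟨(cd (L δ) x).1, h x⟩ : L Ω)) :=
  IF.of_cd (f := fun x : α => x) IF.id fun _ => rfl

/-- sets of the model and internal predicates on `L Ω` -/
theorem ip_set {y : ZFSet.{0}} (hy : y ∈ L δ) : IP (L δ) (fun x : L Ω => x.1 ∈ y) :=
  IP.iff_mem.2 ⟨y, hy, fun _ => Iff.rfl⟩

theorem exists_set {P : L Ω → Prop} (hP : IP (L δ) P) : ∃ y ∈ L δ, ∀ z, z ∈ y ↔ ∃ h : z ∈ L Ω, P ⟨z, h⟩ := by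
  obtain ⟨x0, h0⟩ := exists_sub (L δ) P hP
  refine ⟨x0.1, x0.2, fun z => ?_⟩
  constructor
  · intro hz
    have h1 : E (⟨z, U_trans F0 x0.2 hz⟩ : L δ) x0 := hz
    obtain ⟨a, ha, hza⟩ := (h0 _).1 h1
    have h2 : a.1 = z := congrArg Subtype.val hza
    subst h2
    exact ⟨a.2, ha⟩
  · rintro ⟨h, hP⟩
    exact (h0 _).2 ⟨⟨z, h⟩, hP, rfl⟩

/-- the value of a set of pairs at `x` (the least one, `∅` if there is none) -/
noncomputable def ap (F x : ZFSet.{0}) : ZFSet.{0} := lea fun y => ZFSet.pair x y ∈ F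

/-- the least element of `x` which is not in `y` -/
noncomputable def df (x y : ZFSet.{0}) : ZFSet.{0} := lea fun z => z ∈ x ∧ z ∉ y

/-- the value of an internal function -/
theorem ap_cd {α : Type v} {β : Type w} [WTy (L δ) α] [WTy (L δ) β] (F : Fn (L δ) α β) (x : α) :
    ap (cd (L δ) F).1 (cd (L δ) x).1 = (cd (L δ) (F x)).1 := by
  have h1 : ∀ y, ZFSet.pair (cd (L δ) x).1 y ∈ (cd (L δ) F).1 ↔ y = (cd (L δ) (F x)).1 := by
    intro y
    constructor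
    · intro hy
      have h2 : ZFSet.pair (cd (L δ) x).1 y ∈ L δ := U_trans F0 (cd (L δ) F).2 hy
      have h3 : E (⟨_, h2⟩ : L δ) (cd (L δ) F) := hy
      obtain ⟨a, ha⟩ := (cd_fn (L δ) F _).1 h3
      have h4 := congrArg Subtype.val ha
      rw [op_val] at h4
      obtain ⟨h5, h6⟩ := ZFSet.pair_inj.1 h4
      have h7 : x = a := (cd_inj (N := L δ)).1 (Subtype.ext h5)
      rw [h7]
      exact h6
    · rintro rfl
      have h3 : E (op (cd (L δ) x) (cd (L δ) (F x))) (cd (L δ) F) := (cd_fn (L δ) F _).2 ⟨x, rfl⟩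
      have h4 : (op (cd (L δ) x) (cd (L δ) (F x))).1 ∈ (cd (L δ) F).1 := h3
      rwa [op_val] at h4
  unfold ap
  refine lea_eq (τ := δ) (fun y hy => ?_) ((h1 _).2 rfl) fun z hz => Or.inl ((h1 z).1 hz).symm
  rw [(h1 y).1 hy]
  exact (cd (L δ) (F x)).2

end LBB
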