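import Pool.Agent.LBB.CndB
import Pool.Agent.LBB.Typ

/-! # Values of functions and least elements of differences in the family `B`

(problem MP_328cd5_lc, black box L; architect helper69; native)

PROOFS. Level of a set by terms: `lv (st x)` as a term is `lz (st x)`, it contains `x` and by
transitivity the elements of `x`, the elements of elements …
* `exists_df`: `df x y` = `sk φ (u, (x, (y, ∅…)))` with `u = lz (st x)` and `φ` =
'`0 ∈ 1 ∧ ¬ 0 ∈ 2`' (variable `0` is the witness, `1 = pj (sn _) 0 = x`, `2 = y`; take e.g. the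
tuple `pair u (pair x (pair y y))`); terms:
`comp (sk φ) (pair (comp lv (comp st fs)) (pair fs (pair sn sn)))`.
  The witnesses are elements of `x`, so in `u` (`st_mem`, `U_trans`), so both `lea` are of the same
predicate.
* `exists_ap`: the argument is `pair F x`, `u = lz (st F)`, `φ` =
'`∃ p ∈ F, ∃ a b ∈ p, (∀ c ∈ p, c = a ∨ c = b) ∧ x ∈ a ∧ (∀ w ∈ a, w = x) ∧ x ∈ b ∧ y ∈ b ∧ ∀ w ∈
b, w = x ∨ w =
y`' (`y` is the witness, variable `0`); all quantifiers over `u`, which is transitive and contains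
`F`. For `p ∈ F` this says `p = pair x y`
  (`pair x y = {{x}, {x, y}}`), also if `x ∉ u`. If `pair x y ∈ F` then `y ∈ u`.
* `Cls.ap`, `Cls.df`: closure under `B`. `Cnd.ap`, `Cnd.df`: `Cnd.B`, `Cnd.pr`. -/

namespace LBB

open STP LGr WCal

private def fnd (φ ψ : LF) : LF := .imp (.imp φ (.imp ψ .bot)) .bot

private def fxs (φ : LF) : LF := .imp (.all (.imp φ .bot)) .bot

private def fr2 (φ ψ : LF) : LF := .imp (.imp φ .bot) ψ

private theorem us_and' {u : ZFSet.{0}} {φ ψ : LF} {v : ℕ → ZFSet.{0}} :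
    us u (fnd φ ψ) v ↔ us u φ v ∧ us u ψ v := by
  change ((us u φ v → us u ψ v → False) → False) ↔ _
  tauto

private theorem us_or' {u : ZFSet.{0}} {φ ψ : LF} {v : ℕ → ZFSet.{0}} :
    us u (fr2 φ ψ) v ↔ us u φ v ∨ us u ψ v := by
  change ((us u φ v → False) → us u ψ v) ↔ _
  tauto

private theorem us_ex' {u : ZFSet.{0}} {φ : LF} {v : ℕ → ZFSet.{0}} :
    us u (fxs φ) v ↔ ∃ y ∈ u, us u φ (cns y v) := by
  change ((∀ y, y ∈ u → us u φ (cns y v) → False) → False) ↔ _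
  constructor
  · intro h
    by_contra hcon
    exact h fun y hy hy' => hcon ⟨y, hy, hy'⟩
  · rintro ⟨y, hy, hy'⟩ h
    exact h y hy hy'

private theorem us_all' {u : ZFSet.{0}} {φ : LF} {v : ℕ → ZFSet.{0}} :
    us u (.all φ) v ↔ ∀ y ∈ u, us u φ (cns y v) := Iff.rfl

private theorem us_imp' {u : ZFSet.{0}} {φ ψ : LF} {v : ℕ → ZFSet.{0}} :
    us u (.imp φ ψ) v ↔ (us u φ v → us u ψ v) := Iff.rfl

private theorem us_mem' {u : ZFSet.{0}} {i j : ℕ} {v : ℕ → ZFSet.{0}} :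
    us u (.mem i j) v ↔ v i ∈ v j := Iff.rfl

private theorem us_eq' {u : ZFSet.{0}} {i j : ℕ} {v : ℕ → ZFSet.{0}} :
    us u (.eq i j) v ↔ v i = v j := Iff.rfl

/-- the value of the term -/
private theorem term_val (φ : LF) : ∃ n, ∀ x y : ZFSet.{0}, B n (ZFSet.pair x y) =
    lea fun z => z ∈ lz (st x) ∧
      us (lz (st x)) φ (cns z (pj (ZFSet.pair x (ZFSet.pair y y)))) := by
  obtain ⟨n, hn⟩ := exists_dT (.comp (.sk φ) (.pair (.comp .lv (.comp .st .fs))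
    (.pair .fs (.pair .sn .sn))))
  refine ⟨n, fun x y => ?_⟩
  unfold B
  rw [hn]
  change LBB.sk φ (ZFSet.pair (LBB.lv (LBB.st (LBB.fs (ZFSet.pair x y))).toZFSet)
    (ZFSet.pair (LBB.fs (ZFSet.pair x y)) (ZFSet.pair (LBB.sn (ZFSet.pair x y))
      (LBB.sn (ZFSet.pair x y))))) = _
  rw [fs_pair, sn_pair, lv_ord]
  unfold LBB.sk
  rw [fs_pair, sn_pair]

private theorem pj0 (x y : ZFSet.{0}) : pj (ZFSet.pair x (ZFSet.pair y y)) 0 = x := by
  rw [pj_zero, fs_pair]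

private theorem pj1 (x y : ZFSet.{0}) : pj (ZFSet.pair x (ZFSet.pair y y)) 1 = y := by
  rw [pj_succ, pj_zero, sn_pair, fs_pair]

theorem exists_df : ∃ n, ∀ (τ : Ordinal.{0}) (x y : ZFSet.{0}), x ∈ L τ → B n (ZFSet.pair x y) = df x y := by
  obtain ⟨n, hn⟩ := term_val (fnd (.mem 0 1) (.imp (.mem 0 2) .bot))
  refine ⟨n, fun τ x y hx => ?_⟩
  rw [hn]
  unfold df
  congr 1
  funext z
  refine propext ?_
  rw [us_and', us_mem', us_imp', us_mem']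
  change z ∈ lz (st x) ∧ (z ∈ pj (ZFSet.pair x (ZFSet.pair y y)) 0 ∧
    (z ∈ pj (ZFSet.pair x (ZFSet.pair y y)) 1 → False)) ↔ _
  rw [pj0, pj1]
  constructor
  · exact fun h => h.2
  · exact fun h => ⟨mem_lz.2 (U_trans F0 (st_mem hx) h.1), h⟩

private def apF : LF := fxs (fnd (.mem 0 2) (fxs (fxs (fnd (.mem 1 2) (fnd (.mem 0 2)
  (fnd (.all (.imp (.mem 0 3) (fr2 (.eq 0 2) (.eq 0 1)))) (fnd (.mem 5 1)
  (fnd (.all (.imp (.mem 0 2) (.eq 0 6))) (fnd (.mem 5 0) (fnd (.mem 3 0)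
  (.all (.imp (.mem 0 1) (fr2 (.eq 0 6) (.eq 0 4))))))))))))))

private theorem us_apF {u : ZFSet.{0}} {v : ℕ → ZFSet.{0}} : us u apF v ↔
    ∃ p ∈ u, p ∈ v 1 ∧ ∃ a ∈ u, ∃ b ∈ u, a ∈ p ∧ b ∈ p ∧ (∀ c ∈ u, c ∈ p → c = a ∨ c = b) ∧
      v 2 ∈ a ∧ (∀ w ∈ u, w ∈ a → w = v 2) ∧ v 2 ∈ b ∧ v 0 ∈ b ∧
        ∀ w ∈ u, w ∈ b → w = v 2 ∨ w = v 0 := by
  simp only [apF, us_ex', us_and', us_all', us_imp', us_or', us_mem', us_eq']
  exact Iff.rfl

theorem exists_ap : ∃ n, ∀ (τ : Ordinal.{0}) (F x : ZFSet.{0}), F ∈ L τ → B n (ZFSet.pair F x) = ap F x := by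
  obtain ⟨n, hn⟩ := term_val apF
  refine ⟨n, fun τ F x hF => ?_⟩
  rw [hn]
  unfold ap
  congr 1
  funext y
  refine propext ?_
  rw [us_apF]
  change (y ∈ lz (st F) ∧ ∃ p ∈ lz (st F), p ∈ pj (ZFSet.pair F (ZFSet.pair x x)) 0 ∧
    ∃ a ∈ lz (st F), ∃ b ∈ lz (st F), a ∈ p ∧ b ∈ p ∧
      (∀ c ∈ lz (st F), c ∈ p → c = a ∨ c = b) ∧
      pj (ZFSet.pair F (ZFSet.pair x x)) 1 ∈ a ∧
      (∀ w ∈ lz (st F), w ∈ a → w = pj (ZFSet.pair F (ZFSet.pair x x)) 1) ∧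
      pj (ZFSet.pair F (ZFSet.pair x x)) 1 ∈ b ∧ y ∈ b ∧
      ∀ w ∈ lz (st F), w ∈ b → w = pj (ZFSet.pair F (ZFSet.pair x x)) 1 ∨ w = y) ↔ _
  rw [pj0, pj1]
  have hFu : F ∈ L (st F) := st_mem hF
  have htr : ∀ z ∈ lz (st F), ∀ w ∈ z, w ∈ lz (st F) := fun z hz w hw =>
    mem_lz.2 (U_trans F0 (mem_lz.1 hz) hw)
  constructor
  · rintro ⟨-, p, hp, hpF, a, ha, b, hb, hap, hbp, h1, h2, h3, h4, h5, h6⟩
    have ea : a = {x} := by
      ext w
      rw [ZFSet.mem_singleton]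
      exact ⟨fun hw => h3 w (htr a ha w hw) hw, fun hw => by rw [hw]; exact h2⟩
    have eb : b = {x, y} := by
      ext w
      rw [ZFSet.mem_pair]
      refine ⟨fun hw => h6 w (htr b hb w hw) hw, ?_⟩
      rintro (rfl | rfl)
      · exact h4
      · exact h5
    have ep : p = ZFSet.pair x y := by
      unfold ZFSet.pair
      rw [← ea, ← eb]
      ext c
      rw [ZFSet.mem_pair]
      refine ⟨fun hc => h1 c (htr p hp c hc) hc, ?_⟩
      rintro (rfl | rfl)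
      · exact hap
      · exact hbp
    rw [← ep]
    exact hpF
  · intro h
    have hp : ZFSet.pair x y ∈ lz (st F) := mem_lz.2 (U_trans F0 hFu h)
    have ha : ({x} : ZFSet.{0}) ∈ ZFSet.pair x y := by
      unfold ZFSet.pair
      rw [ZFSet.mem_pair]
      exact Or.inl rfl
    have hb : ({x, y} : ZFSet.{0}) ∈ ZFSet.pair x y := by
      unfold ZFSet.pair
      rw [ZFSet.mem_pair]
      exact Or.inr rfl
    have ha' := htr _ hp _ ha
    have hb' := htr _ hp _ hb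
    refine ⟨htr _ hb' y (ZFSet.mem_pair.2 (Or.inr rfl)), _, hp, h, _, ha', _, hb', ha, hb, ?_,
      ZFSet.mem_singleton.2 rfl, fun w _ hw => ZFSet.mem_singleton.1 hw,
      ZFSet.mem_pair.2 (Or.inl rfl), ZFSet.mem_pair.2 (Or.inr rfl),
      fun w _ hw => ZFSet.mem_pair.1 hw⟩
    intro c _ hc
    unfold ZFSet.pair at hc
    exact ZFSet.mem_pair.1 hc

variable {X : Set ZFSet.{0}} {σ τ : Ordinal.{0}} {π : ZFSet.{0} → ZFSet.{0}}

theorem Cls.df (h : Cls X) (hs : X ⊆ L σ) {x y : ZFSet.{0}} (hx : x ∈ X) (hy : y ∈ X) : df x y ∈ X := by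
  obtain ⟨n, hn⟩ := exists_df
  rw [← hn σ x y (hs hx)]
  exact h.B n _ (h.pr x hx y hy)

theorem Cls.ap (h : Cls X) (hs : X ⊆ L σ) {F x : ZFSet.{0}} (hF : F ∈ X) (hx : x ∈ X) : ap F x ∈ X := by
  obtain ⟨n, hn⟩ := exists_ap
  rw [← hn σ F x (hs hF)]
  exact h.B n _ (h.pr F hF x hx)

theorem Cnd.df (hc : Cnd X τ π) (h : Cls X) (hs : X ⊆ L σ) {x y : ZFSet.{0}} (hx : x ∈ X) (hy : y ∈ X) :
    π (LBB.df x y) = LBB.df (π x) (π y) := by
  obtain ⟨n, hn⟩ := exists_df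
  rw [← hn σ x y (hs hx), hc.B n _ (h.pr x hx y hy), hc.pr x hx y hy,
    hn τ _ _ (hc.maps x hx)]

theorem Cnd.ap (hc : Cnd X τ π) (h : Cls X) (hs : X ⊆ L σ) {F x : ZFSet.{0}} (hF : F ∈ X) (hx : x ∈ X) :
    π (LBB.ap F x) = LBB.ap (π F) (π x) := by
  obtain ⟨n, hn⟩ := exists_ap
  rw [← hn σ F x (hs hF), hc.B n _ (h.pr F hF x hx), hc.pr F hF x hx,
    hn τ _ _ (hc.maps F hF)]

/-- `df x y ∈ x` and not in `y` if `x ⊄ y` -/
theorem df_spec {x y z : ZFSet.{0}} (hx : x ∈ L τ) (hz : z ∈ x) (hz' : z ∉ y) : df x y ∈ x ∧ df x y ∉ y := by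
  exact (lea_spec (P := fun z => z ∈ x ∧ z ∉ y) (fun z hz => U_trans F0 hx hz.1) ⟨z, hz, hz'⟩).1

end LBB
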