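import Pool.Agent.LGr.HullC
import Pool.Agent.LGr.CollB
import Pool.Agent.LGr.Elem
import Pool.Agent.WCal.ZUb

/-! # Ground models which satisfy a given sentence

(problem MP_328cd5_lc, black box L, Mahlo transfer; architect helper69; adapted from `LGr/Gm.lean`)

`exists_ground_of`: a sentence which is true in the class `Lc Φ` is true in a countable level which is a model of ZFC. `mod_Lc`: the class `Lc Φ` is a transitive model. -/

namespace LBB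

open STP LGr

private theorem em_wf (W : Set ZFSet.{0}) : WellFounded (CPY.Em W) :=
  InvImage.wf Subtype.val ZFSet.mem_wf

private theorem val_eq {W : Set ZFSet.{0}} (ht : ∀ x ∈ W, ∀ y ∈ x, y ∈ W) (x : W) (y : ZFSet.{0})
    (h1 : ∀ w : W, w.1 ∈ x.1 ↔ w.1 ∈ y) (h2 : ∀ z ∈ y, z ∈ W) : x.1 = y := by
  apply ZFSet.ext
  intro z
  constructor
  · intro hz
    exact (h1 ⟨z, ht x.1 x.2 z hz⟩).1 hz
  · intro hz
    exact (h1 ⟨z, h2 z hz⟩).2 hz

/-- a set satisfying the formula of unordered pairs in a transitive class is the pair -/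
private theorem isUP_val {W : Set ZFSet.{0}} (ht : ∀ x ∈ W, ∀ y ∈ x, y ∈ W) {p x y : W}
    (h : IsUP (CPY.Em W) p x y) : p.1 = ({x.1, y.1} : ZFSet.{0}) := by
  refine val_eq ht _ _ (fun w => ?_) fun z hz => ?_
  · rw [ZFSet.mem_pair, ← Subtype.ext_iff, ← Subtype.ext_iff]
    exact h w
  · rcases ZFSet.mem_pair.1 hz with rfl | rfl
    · exact x.2
    · exact y.2

private theorem isOP_val {W : Set ZFSet.{0}} (ht : ∀ x ∈ W, ∀ y ∈ x, y ∈ W)
    (hz : ZFC (CPY.Em W)) {p x y : W} (h : IsOP (CPY.Em W) p x y) :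
    p.1 = ZFSet.pair x.1 y.1 := by
  obtain ⟨a, ha⟩ := hz.pair x x
  obtain ⟨b, hb⟩ := hz.pair x y
  have ha' : a.1 = ({x.1} : ZFSet.{0}) := by
    have h1 := isUP_val ht (p := a) (x := x) (y := x) ha
    rw [h1]
    apply ZFSet.ext
    intro z
    rw [ZFSet.mem_pair, or_self, ZFSet.mem_singleton]
  have hb' : b.1 = ({x.1, y.1} : ZFSet.{0}) := isUP_val ht (p := b) (x := x) (y := y) hb
  have h2 : p.1 = ({a.1, b.1} : ZFSet.{0}) := by
    refine val_eq ht _ _ (fun w => ?_) fun z hz => ?_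
    · rw [ZFSet.mem_pair]
      refine (h w).trans ?_
      constructor
      · rintro (h3 | h3)
        · left
          rw [isUP_val ht h3, isUP_val ht (p := a) (x := x) (y := x) ha]
        · right
          rw [isUP_val ht h3, hb']
      · rintro (h3 | h3)
        · left
          have h4 : w = a := Subtype.ext h3
          rw [h4]
          exact ha
        · right
          have h4 : w = b := Subtype.ext h3
          rw [h4]
          exact hb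
    · rcases ZFSet.mem_pair.1 hz with rfl | rfl
      · exact a.2
      · exact b.2
  rw [h2, ha', hb']
  rfl

/-- transitive models of ZFC satisfy the axiom about well-orders -/
theorem mod_of_zfc {W : Set ZFSet.{0}} (ht : ∀ x ∈ W, ∀ y ∈ x, y ∈ W)
    (hz : ZFC (CPY.Em W)) : CPY.Mod W := by
  refine ⟨ht, hz, fun A hA => ?_⟩
  let _ : WCal.WM W := ⟨CPY.Em W, hz, em_wf W⟩
  have hop : ∀ x y : W, (WCal.op x y).1 = ZFSet.pair x.1 y.1 := fun x y =>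
    isOP_val ht hz (WCal.isOP_op x y)
  obtain ⟨o, ho, f, ⟨g, hg⟩, hf⟩ := WCal.exists_ord_image (⟨A, hA⟩ : W)
  refine ⟨o.1, o.2, ⟨fun y hy z hz' => ?_, fun {y z w} hyz hzw hw => ?_⟩, g.1, g.2,
    fun z hz' => ?_, fun x hx => ?_, fun y hy => ?_⟩
  · have hyW := ht _ o.2 y hy
    have hzW := ht _ hyW z hz'
    exact ho.1 ⟨y, hyW⟩ hy ⟨z, hzW⟩ hz'
  · have hwW := ht _ o.2 w hw
    have hzW := ht _ hwW z hzw
    have hyW := ht _ hzW y hyz
    exact ho.2 ⟨w, hwW⟩ hw ⟨z, hzW⟩ hzw ⟨y, hyW⟩ hyz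
  · have hzW := ht _ g.2 z hz'
    obtain ⟨a, ha⟩ := (hg ⟨z, hzW⟩).1 hz'
    refine ⟨a.v.1, a.h, (f a).1, ?_⟩
    rw [← hop, ← ha]
  · have hxW := ht _ o.2 x hx
    let a : WCal.El o := ⟨⟨x, hxW⟩, hx⟩
    have h1 : ZFSet.pair x (f a).1 ∈ g.1 := by
      have h2 := (hg (WCal.op a.v (f a))).2 ⟨a, rfl⟩
      have h3 : (WCal.op a.v (f a)).1 ∈ g.1 := h2
      rw [hop] at h3
      exact h3
    refine ⟨(f a).1, h1, fun y' hy' => ?_⟩
    have hpW := ht _ g.2 _ hy'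
    obtain ⟨b, hb⟩ := (hg ⟨_, hpW⟩).1 hy'
    have h4 : ZFSet.pair x y' = ZFSet.pair b.v.1 (f b).1 := by
      rw [← hop, ← hb]
    obtain ⟨h5, h6⟩ := ZFSet.pair_inj.1 h4
    have h7 : a = b := WCal.El.ext (Subtype.ext h5)
    rw [h6, h7]
  · have hyW := ht _ hA y hy
    obtain ⟨a, ha⟩ := hf ⟨y, hyW⟩ hy
    refine ⟨a.v.1, a.h, ?_⟩
    have h2 := (hg (WCal.op a.v (f a))).2 ⟨a, rfl⟩
    have h3 : (WCal.op a.v (f a)).1 ∈ g.1 := h2
    rw [hop, ha] at h3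
    exact h3

/-- the class of all constructible sets is a model -/
theorem mod_Lc (Φ : ℕ → ℕ → ℕ → ℕ → Prop) : CPY.Mod (Lc Φ) := by
  refine mod_of_zfc (fun x hx y hy => ?_) (zfc_Lc Φ)
  obtain ⟨α, hα⟩ := hx
  exact ⟨α, U_trans Φ hα hy⟩

theorem exists_ground_of (Φ : ℕ → ℕ → ℕ → ℕ → Prop) (ψ : Fml) (hψ : ∀ v : ℕ → Lc Φ, sat (CPY.Em (Lc Φ)) ψ v) :
    ∃ δ : Ordinal.{0}, Order.IsSuccLimit δ ∧ Ordinal.omega0 < δ ∧ (U Φ δ).Countable ∧ CPY.Mod (U Φ δ) ∧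
      ∀ v : ℕ → U Φ δ, sat (CPY.Em (U Φ δ)) ψ v := by
  obtain ⟨δ', -, -, hlim', hrefl⟩ := exists_refl Φ 0
  -- the level δ' is a model
  have hzU : ZFC (CPY.Em (U Φ δ')) := by
    have : Nonempty (U Φ δ') := ⟨⟨∅, empty_mem_U Φ δ'⟩⟩
    refine zfc_elem (F := CPY.Em (Lc Φ)) (fun x : U Φ δ' => (⟨x.1, ⟨δ', x.2⟩⟩ : Lc Φ))
      (fun φ v => ?_) (zfc_Lc Φ)
    rw [sat_tr Φ (Lt Φ), sat_tr Φ (Lt Φ)]
    exact (hrefl (tr φ) (fun i => (v i).1) fun i => (v i).2).symm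
  have hψU : ∀ v : ℕ → U Φ δ', sat (CPY.Em (U Φ δ')) ψ v := by
    intro v
    have h1 := hψ fun i => (⟨(v i).1, ⟨δ', (v i).2⟩⟩ : Lc Φ)
    rw [sat_tr Φ (Lt Φ)] at h1
    rw [sat_tr Φ (Lt Φ)]
    exact (hrefl (tr ψ) (fun i => (v i).1) fun i => (v i).2).1 h1
  -- the hull
  obtain ⟨X, A, hh⟩ := exists_hull Φ hlim'
  have hzX : ZFC (CPY.Em X) := by
    have : Nonempty X := ⟨⟨∅, hh.emp⟩⟩
    exact zfc_elem (F := CPY.Em (U Φ δ')) (fun x : X => (⟨x.1, hh.sub x.2⟩ : U Φ δ'))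
      (fun φ v => elem_hull hlim' hh φ v) hzU
  have hψX : ∀ v : ℕ → X, sat (CPY.Em X) ψ v := fun v => (elem_hull hlim' hh ψ v).2 (hψU _)
  have hcX : Countable X := hh.cX.to_subtype
  have hcA : Countable A := hh.cA.to_subtype
  obtain ⟨ρ, π, hC⟩ := coll (coh_hull hlim' hh)
    (InvImage.wf (fun i : A => i.1) Ordinal.lt_wf)
  have htot := (coh_hull hlim' hh).tot
  -- the ordinal δ
  have hbdd : ∃ β, ∀ i, ρ i ≠ β := by
    obtain ⟨γ, hγ⟩ := Ordinal.bddAbove_of_small (s := Set.range ρ)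
    refine ⟨γ + 1, fun i hi => ?_⟩
    have h1 : ρ i ≤ γ := hγ ⟨i, rfl⟩
    rw [hi] at h1
    exact absurd h1 (not_le.2 (Order.lt_add_one_iff.2 le_rfl))
  obtain ⟨δ, hδ1, hδ2⟩ : ∃ δ, (∀ i, ρ i ≠ δ) ∧ ∀ β < δ, ∃ i, ρ i = β := by
    refine ⟨sInf {β | ∀ i, ρ i ≠ β}, csInf_mem (s := {β | ∀ i, ρ i ≠ β}) hbdd, fun β hβ => ?_⟩
    by_contra h
    push Not at h
    exact notMem_of_lt_csInf' hβ h
  have hδ3 : ∀ i, ρ i < δ := by
    intro i
    rcases lt_trichotomy (ρ i) δ with h | h | h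
    · exact h
    · exact absurd h (hδ1 i)
    · obtain ⟨j, hj⟩ := hC.seg i δ h
      exact absurd hj (hδ1 j)
  have hsucc : ∀ β < δ, β + 1 < δ := by
    intro β hβ
    obtain ⟨i, rfl⟩ := hδ2 β hβ
    have h1 : ρ i < ρ ⟨i.1 + 1, hh.succ _ i.2⟩ :=
      (hC.J_iff _ _).1 (Order.lt_add_one_iff.2 le_rfl)
    exact (Order.add_one_le_of_lt h1).trans_lt (hδ3 _)
  have hlim : Order.IsSuccLimit δ := by
    refine ⟨fun hmin => ?_, fun b hb => ?_⟩
    · have h1 := hδ3 ⟨0, hh.zero⟩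
      exact absurd (hmin h1.le) (not_le.2 h1)
    · exact hb.2 (Order.lt_add_one_iff.2 le_rfl) (hsucc b hb.lt)
  -- the isomorphism
  have hπ : ∀ x, π x ∈ U Φ δ := by
    intro x
    obtain ⟨i, hi⟩ := htot x
    exact U_mono Φ (hδ3 i).le ((hC.lev_iff i x).1 hi)
  have hsurj : ∀ z ∈ U Φ δ, ∃ x, π x = z := by
    intro z hz
    obtain ⟨β, hβ, hzβ⟩ := (U_lim Φ hlim).1 hz
    obtain ⟨i, rfl⟩ := hδ2 β hβ
    exact hC.onto i z hzβ
  let e : X ≃ U Φ δ := Equiv.ofBijective (fun x => ⟨π x, hπ x⟩)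
    ⟨fun x y hxy => hC.inj (congrArg Subtype.val hxy), fun z => by
      obtain ⟨x, hx⟩ := hsurj z.1 z.2
      exact ⟨x, Subtype.ext hx⟩⟩
  have he : ∀ x y : X, CPY.Em X x y ↔ CPY.Em (U Φ δ) (e x) (e y) := by
    intro x y
    have h1 : CPY.Em (U Φ δ) (e x) (e y) ↔ π x ∈ π y := Iff.rfl
    rw [h1, hC.mem]
    constructor
    · intro h
      exact ⟨x, h, rfl⟩
    · rintro ⟨w, hw, hwx⟩
      rw [← hC.inj hwx]
      exact hw
  have hz : ZFC (CPY.Em (U Φ δ)) := by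
    have : Nonempty (U Φ δ) := ⟨⟨∅, empty_mem_U Φ δ⟩⟩
    refine zfc_elem (F := CPY.Em X) e.symm (fun φ v => ?_) hzX
    rw [sat_iso e he]
    simp only [Equiv.apply_symm_apply]
  have ht : ∀ x ∈ U Φ δ, ∀ y ∈ x, y ∈ U Φ δ := fun x hx y hy => U_trans Φ hx hy
  refine ⟨δ, hlim, ?_, ?_, mod_of_zfc ht hz, fun v => ?_⟩
  · -- ω < δ
    obtain ⟨x, ⟨y0, hy0, -⟩, hx⟩ := hz.infinity
    have h1 : ∀ n : ℕ, ∃ y : U Φ δ, y.1 ∈ x.1 ∧ (n : Ordinal.{0}) ≤ y.1.rank := by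
      intro n
      induction n with
      | zero => exact ⟨y0, hy0, by rw [Nat.cast_zero]; exact zero_le⟩
      | succ n ih =>
        obtain ⟨y, hy, hn⟩ := ih
        obtain ⟨z, hzx, hz1⟩ := hx y hy
        refine ⟨z, hzx, ?_⟩
        have h2 : y.1 ∈ z.1 := (hz1 y).2 (Or.inr rfl)
        have h3 := ZFSet.rank_lt_of_mem h2
        push_cast
        exact Order.add_one_le_of_lt (hn.trans_lt h3)
    have h2 : Ordinal.omega0 ≤ x.1.rank := by
      rw [Ordinal.omega0_le]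
      intro n
      obtain ⟨y, hy, hn⟩ := h1 n
      exact hn.trans (ZFSet.rank_lt_of_mem hy).le
    obtain ⟨β, hβ, hxβ⟩ := (U_lim Φ hlim).1 x.2
    exact (h2.trans (rank_le Φ hxβ)).trans_lt hβ
  · have : Countable (U Φ δ) := e.symm.injective.countable
    exact Set.countable_coe_iff.1 this
  · have h1 := hψX fun i => e.symm (v i)
    rw [sat_iso e he] at h1
    simp only [Equiv.apply_symm_apply] at h1
    exact h1

end LBB
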