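import Pool.Agent.LBB.TV
import Pool.Agent.LGr.Hull

/-! # Closed sets are bounded hulls

(problem MP_328cd5_lc, black box L; architect helper69; native)

`IsHb X A` is `LGr.IsHull` without the Skolem functions of the whole structure (only of the levels `α ∈ A`). `od X`: the ordinals of `X`.

PROOFS. `X` closed, `X ⊆ L τ`, `τ` a limit, `A = od X`.
* `lz_mem`: `lv`. `stage`: `Cls.st` (`st_mem`, least by definition of `st`). `succ`: `α + 1 = st (lz α)` (`st_lz`). `pred`: from `u = (α + 1).toZFSet` by `Cls.wit` for the formula `∀ z ∈ u, z ∈ y ∨ z = y` the element `α.toZFSet` of `u`.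
* `sk` (`α ∈ A`): `Cls.wit` with `u = lz α ∈ X` (`lsat … (· ∈ U F0 α)` and `us (lz α)` agree by `mem_lz`).
* `key`: let `x ∈ X`, `DfU F0 α x`, `k = ⟨φ, a, l⟩` a least key (`exists_least_key`); its parameters are in `L α`. Claim: they are in `X`. Let `l0 = a :: l` (length `m`). By induction on `i ≤ m`: the first `i` members of `l0` are in `X`. The member `i` is the `lL`-least `y ∈ L α` such that there is a list `l1` of
  elements of `L α` of length `m` which begins with the first `i` members of `l0` and `y` such that the key `⟨φ, l1⟩` defines `x` over `L α` (lexicographic minimality of `l0` among the lists of length `m`: `klt`, `List.shortlex_def`). This is a formula over `u = lz α` with the parameters `x` and the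
  first `i` members of `l0`: `∃ y_(i+1) … y_(m-1), ∀ z, z ∈ x ↔ φ(z, a, l)`, where `φ` is evaluated with the assignment `k.env` (all variables beyond the length are `a`): rename the variables of `φ` (write a renaming function on `LF`, or use the general fact below) so `Cls.wit` gives an element of `X`.
  General fact (useful): call a property `P` of sequences `v : ℕ → ZFSet` GOOD if there are `φ` and a bound `m` with `P v ↔ us u φ v` for all `v` with arbitrary values; good properties are closed under `∧`, `¬`, quantifiers over `u` and renaming of variables `v ↦ v ∘ f` (renaming: induction on `φ`).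
* `set`: the set `x` defined by the key over `L α` is the unique `y ∈ L (α + 1)` with `∀ z ∈ L (α + 1), z ∈ y ↔ z ∈ L α ∧ …` : `Cls.wit` for `u = lz (α + 1)` and the parameters of the key and `lz α`, relativize the formula of the key to `lz α` (write a function `rel` on `LF`, induction). -/

namespace LBB

open STP LGr WCal

/-- the ordinals of `X` -/
def od (X : Set ZFSet.{0}) : Set Ordinal.{0} := {α | α.toZFSet ∈ X}

/-- closed sets of elements and indices, bounded version -/
structure IsHb (X : Set ZFSet.{0}) (A : Set Ordinal.{0}) : Prop where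
  emp : ∅ ∈ X
  ext : ∀ x ∈ X, ∀ y ∈ X, (∀ z ∈ X, z ∈ x ↔ z ∈ y) → x = y
  zero : (0 : Ordinal.{0}) ∈ A
  succ : ∀ α ∈ A, α + 1 ∈ A
  pred : ∀ α, α + 1 ∈ A → α ∈ A
  stage : ∀ x ∈ X, ∃ α ∈ A, x ∈ U F0 α ∧ ∀ β < α, x ∉ U F0 β
  sk : ∀ α ∈ A, ∀ (φ : LF) (v : ℕ → ZFSet.{0}), (∀ i, v i ∈ X ∧ v i ∈ U F0 α) →
    (∃ x, x ∈ U F0 α ∧ lsat F0 (· ∈ ·) (Lt F0) (· ∈ U F0 α) φ (cns x v)) →
      ∃ x ∈ X, x ∈ U F0 α ∧ lsat F0 (· ∈ ·) (Lt F0) (· ∈ U F0 α) φ (cns x v)
  key : ∀ α ∈ A, ∀ x ∈ X, DfU F0 α x → ∃ k : Key ZFSet.{0}, k.ok (fun y => y ∈ X ∧ y ∈ U F0 α) ∧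
    k.dfs F0 (· ∈ ·) (Lt F0) (· ∈ U F0 α) x ∧
      ∀ k' : Key ZFSet.{0}, k'.ok (· ∈ U F0 α) → k'.dfs F0 (· ∈ ·) (Lt F0) (· ∈ U F0 α) x →
        k = k' ∨ klt (Lt F0) k k'
  set : ∀ α ∈ A, ∀ k : Key ZFSet.{0}, k.ok (fun y => y ∈ X ∧ y ∈ U F0 α) → ∀ x : ZFSet.{0},
    k.dfs F0 (· ∈ ·) (Lt F0) (· ∈ U F0 α) x → x ∈ X

variable {X : Set ZFSet.{0}} {τ : Ordinal.{0}}

private def fand (φ ψ : LF) : LF := .imp (.imp φ (.imp ψ .bot)) .bot

private def fiff (φ ψ : LF) : LF := fand (.imp φ ψ) (.imp ψ φ)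

private def fex (φ : LF) : LF := .imp (.all (.imp φ .bot)) .bot

private theorem us_and {u : ZFSet.{0}} {φ ψ : LF} {v : ℕ → ZFSet.{0}} :
    us u (fand φ ψ) v ↔ us u φ v ∧ us u ψ v := by
  change ((us u φ v → us u ψ v → False) → False) ↔ _
  tauto

private theorem us_iff {u : ZFSet.{0}} {φ ψ : LF} {v : ℕ → ZFSet.{0}} :
    us u (fiff φ ψ) v ↔ (us u φ v ↔ us u ψ v) := by
  rw [fiff, us_and]
  exact ⟨fun h => ⟨h.1, h.2⟩, fun h => ⟨h.1, h.2⟩⟩

private theorem us_ex {u : ZFSet.{0}} {φ : LF} {v : ℕ → ZFSet.{0}} :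
    us u (fex φ) v ↔ ∃ y ∈ u, us u φ (cns y v) := by
  change ((∀ y, y ∈ u → us u φ (cns y v) → False) → False) ↔ _
  constructor
  · intro h
    by_contra hcon
    exact h fun y hy hy' => hcon ⟨y, hy, hy'⟩
  · rintro ⟨y, hy, hy'⟩ h
    exact h y hy hy'

private def lft (f : ℕ → ℕ) : ℕ → ℕ
  | 0 => 0
  | n + 1 => f n + 1

/-- renaming of variables -/
private def ren : LF → (ℕ → ℕ) → LF
  | .mem i j, f => .mem (f i) (f j)
  | .eq i j, f => .eq (f i) (f j)
  | .lt i j, f => .lt (f i) (f j)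
  | .tp r i j k, f => .tp r (f i) (f j) (f k)
  | .bot, _ => .bot
  | .imp φ ψ, f => .imp (ren φ f) (ren ψ f)
  | .all φ, f => .all (ren φ (lft f))

private theorem cns_lft (x : ZFSet.{0}) (v : ℕ → ZFSet.{0}) (f : ℕ → ℕ) :
    (fun i => cns x v (lft f i)) = cns x (fun i => v (f i)) := by
  funext i
  cases i <;> rfl

private theorem us_ren (u : ZFSet.{0}) (φ : LF) : ∀ (f : ℕ → ℕ) (v : ℕ → ZFSet.{0}),
    us u (ren φ f) v ↔ us u φ (fun i => v (f i)) := by
  induction φ with
  | mem i j => exact fun f v => Iff.rfl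
  | eq i j => exact fun f v => Iff.rfl
  | lt i j => exact fun f v => Iff.rfl
  | tp r i j k => exact fun f v => Iff.rfl
  | bot => exact fun f v => Iff.rfl
  | imp φ ψ ih1 ih2 => exact fun f v => imp_congr (ih1 f v) (ih2 f v)
  | all φ ih =>
    intro f v
    change (∀ y, y ∈ u → us u (ren φ (lft f)) (cns y v)) ↔
      ∀ y, y ∈ u → us u φ (cns y (fun i => v (f i)))
    refine forall_congr' fun y => imp_congr_right fun _ => ?_
    rw [ih, cns_lft]

/-- relativization -/
private def rel : LF → ℕ → LF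
  | .mem i j, _ => .mem i j
  | .eq i j, _ => .eq i j
  | .lt i j, _ => .lt i j
  | .tp r i j k, _ => .tp r i j k
  | .bot, _ => .bot
  | .imp φ ψ, c => .imp (rel φ c) (rel ψ c)
  | .all φ, c => .all (.imp (.mem 0 (c + 1)) (rel φ (c + 1)))

private theorem us_rel (u : ZFSet.{0}) (φ : LF) : ∀ (c : ℕ) (v : ℕ → ZFSet.{0}),
    (∀ z ∈ v c, z ∈ u) → (us u (rel φ c) v ↔ us (v c) φ v) := by
  induction φ with
  | mem i j => exact fun c v _ => Iff.rfl
  | eq i j => exact fun c v _ => Iff.rfl
  | lt i j => exact fun c v _ => Iff.rfl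
  | tp r i j k => exact fun c v _ => Iff.rfl
  | bot => exact fun c v _ => Iff.rfl
  | imp φ ψ ih1 ih2 => exact fun c v h => imp_congr (ih1 c v h) (ih2 c v h)
  | all φ ih =>
    intro c v h
    change (∀ y, y ∈ u → y ∈ v c → us u (rel φ (c + 1)) (cns y v)) ↔
      ∀ y, y ∈ v c → us (v c) φ (cns y v)
    constructor
    · intro h1 y hy
      exact (ih (c + 1) (cns y v) h).1 (h1 y (h y hy) hy)
    · intro h1 y _ hy
      exact (ih (c + 1) (cns y v) h).2 (h1 y hy)

/-- several new values -/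
private def push : List ZFSet.{0} → (ℕ → ZFSet.{0}) → ℕ → ZFSet.{0}
  | [], v => v
  | y :: l, v => push l (cns y v)

private theorem push_ge (l : List ZFSet.{0}) : ∀ (v : ℕ → ZFSet.{0}) (i : ℕ),
    push l v (l.length + i) = v i := by
  induction l with
  | nil =>
    intro v i
    rw [List.length_nil, Nat.zero_add]
    rfl
  | cons y l ih =>
    intro v i
    have h := ih (cns y v) (i + 1)
    rw [List.length_cons, Nat.add_right_comm]
    exact h

private theorem push_lt (d : ZFSet.{0}) (l : List ZFSet.{0}) : ∀ (v : ℕ → ZFSet.{0}) (j : ℕ),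
    j < l.length → push l v (l.length - 1 - j) = l.getD j d := by
  induction l with
  | nil =>
    intro v j hj
    exact absurd hj (Nat.not_lt_zero j)
  | cons y l ih =>
    intro v j hj
    cases j with
    | zero =>
      have h := push_ge l (cns y v) 0
      exact h
    | succ j =>
      have h := ih (cns y v) j (by simpa using hj)
      have e : (y :: l).length - 1 - (j + 1) = l.length - 1 - j := by
        rw [List.length_cons]
        omega
      rw [e]
      exact h

private def exq (θ : LF) : ℕ → LF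
  | 0 => θ
  | n + 1 => fex (exq θ n)

private theorem us_exq {u : ZFSet.{0}} {θ : LF} (n : ℕ) : ∀ v : ℕ → ZFSet.{0},
    us u (exq θ n) v ↔ ∃ l : List ZFSet.{0}, l.length = n ∧ (∀ y ∈ l, y ∈ u) ∧
      us u θ (push l v) := by
  induction n with
  | zero =>
    intro v
    constructor
    · intro h
      exact ⟨[], rfl, fun y hy => absurd hy List.not_mem_nil, h⟩
    · rintro ⟨l, hl, -, h⟩
      obtain rfl := List.length_eq_zero_iff.1 hl
      exact h
  | succ n ih =>
    intro v
    rw [exq, us_ex]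
    constructor
    · rintro ⟨y, hy, h⟩
      obtain ⟨l, hl, h1, h2⟩ := (ih _).1 h
      refine ⟨y :: l, by rw [List.length_cons, hl], fun z hz => ?_, h2⟩
      rcases List.mem_cons.1 hz with rfl | hz
      · exact hy
      · exact h1 z hz
    · rintro ⟨l, hl, h1, h2⟩
      cases l with
      | nil => exact absurd hl (by simp)
      | cons y l =>
        exact ⟨y, h1 y List.mem_cons_self, (ih _).2 ⟨l, by simpa using hl,
          fun z hz => h1 z (List.mem_cons_of_mem _ hz), h2⟩⟩

/-- the members of a lexicographically minimal list are in `X` -/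
private theorem lexmin (h : Cls X) (hs : X ⊆ L τ) (θ : LF) {u : ZFSet.{0}} (hu : u ∈ X)
    (l0 : List ZFSet.{0}) : ∀ v : ℕ → ZFSet.{0}, (∀ i, v i ∈ X) → (∀ y ∈ l0, y ∈ u) →
    us u θ (push l0 v) → (∀ l1 : List ZFSet.{0}, l1.length = l0.length → (∀ y ∈ l1, y ∈ u) →
      us u θ (push l1 v) → l0 = l1 ∨ List.Lex lL l0 l1) → ∀ y ∈ l0, y ∈ X := by
  induction l0 with
  | nil => exact fun v _ _ _ _ y hy => absurd hy List.not_mem_nil
  | cons y l ih =>
    intro v hv hl0 hθ hmin
    have hl : ∀ z ∈ l, z ∈ u := fun z hz => hl0 z (List.mem_cons_of_mem _ hz)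
    have hP : us u (exq θ l.length) (cns y v) := (us_exq _ _).2 ⟨l, rfl, hl, hθ⟩
    obtain ⟨y', hy'X, hy'u, hy', hleast⟩ := h.wit hs (exq θ l.length) hu hv
      ⟨y, hl0 y List.mem_cons_self, hP⟩
    obtain ⟨l', hl', hl'u, hl'θ⟩ := (us_exq _ _).1 hy'
    have hyy : y = y' := by
      rcases hleast y (hl0 y List.mem_cons_self) hP with h1 | h1
      · exact h1.symm
      · rcases hmin (y' :: l') (by rw [List.length_cons, List.length_cons, hl'])
          (fun z hz => by
            rcases List.mem_cons.1 hz with rfl | hz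
            · exact hy'u
            · exact hl'u z hz) hl'θ with h2 | h2
        · exact (List.cons.inj h2).1
        · cases h2 with
          | rel h3 => exact absurd (Lt_tr F0 h3 h1) (Lt_irr F0 _)
          | cons h3 => rfl
    subst hyy
    intro z hz
    rcases List.mem_cons.1 hz with rfl | hz
    · exact hy'X
    · refine ih (cns y v) (fun i => ?_) hl hθ ?_ z hz
      · cases i with
        | zero => exact hy'X
        | succ i => exact hv i
      · intro l1 h1 h2 h3
        rcases hmin (y :: l1) (by rw [List.length_cons, List.length_cons, h1])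
          (fun z hz => by
            rcases List.mem_cons.1 hz with rfl | hz
            · exact hy'u
            · exact h2 z hz) h3 with h4 | h4
        · exact Or.inl (List.cons.inj h4).2
        · cases h4 with
          | rel h5 => exact absurd h5 (Lt_irr F0 _)
          | cons h5 => exact Or.inr h5

private def gg (m : ℕ) : ℕ → ℕ
  | 0 => 0
  | j + 1 => (if j < m then m - 1 - j else m - 1) + 1

private def keyF (φ : LF) (m : ℕ) : LF := .all (fiff (.mem 0 (m + 1)) (ren φ (gg m)))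

private theorem us_keyF {u x a : ZFSet.{0}} {φ : LF} {l : List ZFSet.{0}} :
    us u (keyF φ (a :: l).length) (push (a :: l) fun _ => x) ↔
      ∀ z ∈ u, (z ∈ x ↔ us u φ (cns z (⟨φ, a, l⟩ : Key ZFSet.{0}).env)) := by
  have e0 : push (a :: l) (fun _ => x) (a :: l).length = x :=
    push_ge (a :: l) (fun _ => x) 0
  have e1 : ∀ z : ZFSet.{0}, (fun i => cns z (push (a :: l) fun _ => x)
      (gg (a :: l).length i)) = cns z (⟨φ, a, l⟩ : Key ZFSet.{0}).env := by
    intro z
    funext i
    cases i with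
    | zero => rfl
    | succ j =>
      change push (a :: l) (fun _ => x) (if j < (a :: l).length then (a :: l).length - 1 - j
        else (a :: l).length - 1) = (a :: l).getD j a
      by_cases hj : j < (a :: l).length
      · rw [if_pos hj]
        exact push_lt a (a :: l) _ j hj
      · rw [if_neg hj, List.getD_eq_default _ _ (not_lt.1 hj)]
        exact push_lt a (a :: l) (fun _ => x) 0 (by simp)
  change (∀ z, z ∈ u → us u (fiff (.mem 0 ((a :: l).length + 1)) (ren φ (gg (a :: l).length)))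
    (cns z (push (a :: l) fun _ => x))) ↔ _
  refine forall_congr' fun z => imp_congr_right fun _ => ?_
  rw [us_iff, us_ren, e1]
  change ((z ∈ push (a :: l) (fun _ => x) (a :: l).length) ↔ _) ↔ _
  rw [e0]

private theorem us_lz {α : Ordinal.{0}} {φ : LF} {v : ℕ → ZFSet.{0}} :
    us (lz α) φ v ↔ lsat F0 (· ∈ ·) (Lt F0) (· ∈ U F0 α) φ v := by
  have h : (fun x => x ∈ lz α) = (fun x => x ∈ U F0 α) := funext fun x => propext mem_lz
  unfold us
  rw [h]

private theorem dfs_us {α : Ordinal.{0}} {k : Key ZFSet.{0}} {x : ZFSet.{0}} :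
    k.dfs F0 (· ∈ ·) (Lt F0) (· ∈ U F0 α) x ↔ (∀ z ∈ x, z ∈ U F0 α) ∧
      ∀ z ∈ lz α, (z ∈ x ↔ us (lz α) k.φ (cns z k.env)) := by
  constructor
  · intro h
    refine ⟨fun z hz => ((h z).1 hz).1, fun z hz => (h z).trans ⟨fun h1 => us_lz.2 h1.2,
      fun h1 => ⟨mem_lz.1 hz, us_lz.1 h1⟩⟩⟩
  · rintro ⟨h1, h2⟩ z
    constructor
    · intro hz
      exact ⟨h1 z hz, us_lz.1 ((h2 z (mem_lz.2 (h1 z hz))).1 hz)⟩
    · rintro ⟨hz, h3⟩
      exact (h2 z (mem_lz.2 hz)).2 (us_lz.2 h3)

private def sft : ℕ → ℕ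
  | 0 => 0
  | j + 1 => j + 3

private theorem od_zero (h : Cls X) : (0 : Ordinal.{0}) ∈ od X := by
  change (0 : Ordinal.{0}).toZFSet ∈ X
  rw [Ordinal.toZFSet_zero]
  exact h.emp

private theorem env_mem {k : Key ZFSet.{0}} {p : ZFSet.{0} → Prop} (ha : p k.a)
    (hl : ∀ y ∈ k.l, p y) (i : ℕ) : p (k.env i) := by
  change p ((k.a :: k.l).getD i k.a)
  by_cases hi : i < (k.a :: k.l).length
  · rw [List.getD_eq_getElem _ _ hi]
    rcases List.mem_cons.1 (List.getElem_mem hi) with h | h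
    · rw [h]
      exact ha
    · exact hl _ h
  · rw [List.getD_eq_default _ _ (not_lt.1 hi)]
    exact ha

theorem Cls.lz_mem (h : Cls X) {α : Ordinal.{0}} (hα : α ∈ od X) : lz α ∈ X := by
  have h1 := h.lv hα
  rwa [lv_ord] at h1

theorem Cls.isHb (h : Cls X) (hτ : Order.IsSuccLimit τ) (hs : X ⊆ L τ) : IsHb X (od X) := by
  have hsucc : ∀ α ∈ od X, α + 1 ∈ od X := by
    intro α hα
    have h1 := h.st (h.lz_mem hα)
    rwa [st_lz] at h1
  refine
    { emp := h.emp
      ext := fun x hx y hy he => h.ext hs hx hy he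
      zero := od_zero h
      succ := hsucc
      pred := fun α hα => ?_
      stage := fun x hx => ?_
      sk := fun α hα φ v hv hex => ?_
      key := fun α hα x hx hdf => ?_
      set := fun α hα k hk x hdf => ?_ }
  · obtain ⟨y, hyX, hyu, hy, -⟩ := h.wit hs (.all (.imp (.imp (.mem 0 1) .bot) (.eq 0 1)))
      (u := (α + 1).toZFSet) hα (v := fun _ => ∅) (fun _ => h.emp)
      ⟨α.toZFSet, Ordinal.mem_toZFSet_iff.2 ⟨α, lt_add_one α, rfl⟩, by
        intro z hz hz'
        obtain ⟨β, hβ, rfl⟩ := Ordinal.mem_toZFSet_iff.1 hz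
        rcases (Order.lt_add_one_iff.1 hβ).lt_or_eq with h1 | h1
        · exact absurd (Ordinal.toZFSet_mem_toZFSet_iff.2 h1) hz'
        · rw [h1]
          rfl⟩
    obtain ⟨β, hβ, rfl⟩ := Ordinal.mem_toZFSet_iff.1 hyu
    have h1 : α.toZFSet = β.toZFSet := by
      refine hy α.toZFSet (Ordinal.mem_toZFSet_iff.2 ⟨α, lt_add_one α, rfl⟩) ?_
      intro h2
      have h2' : α.toZFSet ∈ β.toZFSet := h2
      exact absurd (Order.lt_add_one_iff.1 hβ) (not_le.2 (Ordinal.toZFSet_mem_toZFSet_iff.1 h2'))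
    change α.toZFSet ∈ X
    rw [h1]
    exact hyX
  · exact ⟨LBB.st x, h.st hx, st_mem (hs hx), fun β hβ h1 => absurd (st_le h1) (not_le.2 hβ)⟩
  · obtain ⟨x, hx, hx'⟩ := hex
    obtain ⟨y, hyX, hyu, hy, -⟩ := h.wit hs φ (h.lz_mem hα) (v := v) (fun i => (hv i).1)
      ⟨x, mem_lz.2 hx, us_lz.2 hx'⟩
    exact ⟨y, hyX, mem_lz.1 hyu, us_lz.1 hy⟩
  · obtain ⟨k, hk, hkd, hmin⟩ := exists_least_key F0 hdf
    have hx' : ∀ z ∈ x, z ∈ U F0 α := fun z hz => DfU_sub F0 hdf hz
    have hmem : ∀ y ∈ k.a :: k.l, y ∈ U F0 α := by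
      intro y hy
      rcases List.mem_cons.1 hy with rfl | hy
      · exact hk.1
      · exact hk.2 y hy
    have hkey : ∀ y ∈ k.a :: k.l, y ∈ X := by
      refine lexmin h hs (keyF k.φ (k.a :: k.l).length) (h.lz_mem hα) (k.a :: k.l) (fun _ => x)
        (fun _ => hx) (fun y hy => mem_lz.2 (hmem y hy)) (us_keyF.2 (dfs_us.1 hkd).2) ?_
      intro l1 h1 h2 h3
      cases l1 with
      | nil => exact absurd h1 (by simp)
      | cons a' l' =>
        rw [← h1] at h3
        have h4 : (⟨k.φ, a', l'⟩ : Key ZFSet.{0}).dfs F0 (· ∈ ·) (Lt F0) (· ∈ U F0 α) x :=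
          dfs_us.2 ⟨hx', us_keyF.1 h3⟩
        rcases hmin ⟨k.φ, a', l'⟩ ⟨mem_lz.1 (h2 a' List.mem_cons_self),
          fun y hy => mem_lz.1 (h2 y (List.mem_cons_of_mem _ hy))⟩ h4 with h5 | h5
        · left
          rw [h5]
        · right
          rcases h5 with h5 | ⟨-, h5⟩
          · exact absurd h5 (lt_irrefl _)
          · rcases List.shortlex_def.1 h5 with h6 | h6
            · change (k.a :: k.l).length < (a' :: l').length at h6
              rw [h1] at h6
              exact absurd h6 (lt_irrefl _)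
            · exact h6.2
    exact ⟨k, ⟨⟨hkey _ List.mem_cons_self, hk.1⟩,
      fun y hy => ⟨hkey y (List.mem_cons_of_mem _ hy), hk.2 y hy⟩⟩, hkd, hmin⟩
  · have hd := dfs_us.1 hdf
    have hsub : ∀ z ∈ lz α, z ∈ lz (α + 1) := fun z hz =>
      mem_lz.2 (U_mono F0 (lt_add_one α).le (mem_lz.1 hz))
    have hkU : k.ok (· ∈ U F0 α) := ⟨hk.1.2, fun y hy => (hk.2 y hy).2⟩
    have hxU : x ∈ U F0 (α + 1) := (U_succ F0).2 ((DfU_iff F0).2 ⟨k, hkU, hdf⟩)
    have henv : ∀ i, k.env i ∈ X := env_mem hk.1.1 fun y hy => (hk.2 y hy).1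
    have hsem : ∀ y : ZFSet.{0}, us (lz (α + 1))
        (.all (fiff (.mem 0 1) (fand (.mem 0 2) (rel (ren k.φ sft) 2))))
        (cns y (cns (lz α) k.env)) ↔
        ∀ z ∈ lz (α + 1), (z ∈ y ↔ z ∈ lz α ∧ us (lz α) k.φ (cns z k.env)) := by
      intro y
      change (∀ z, z ∈ lz (α + 1) → us (lz (α + 1))
        (fiff (.mem 0 1) (fand (.mem 0 2) (rel (ren k.φ sft) 2)))
        (cns z (cns y (cns (lz α) k.env)))) ↔ _
      refine forall_congr' fun z => imp_congr_right fun _ => ?_
      rw [us_iff, us_and, us_rel _ _ _ _ hsub, us_ren]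
      have e : (fun i => cns z (cns y (cns (lz α) k.env)) (sft i)) = cns z k.env := by
        funext i
        cases i <;> rfl
      rw [e]
      exact Iff.rfl
    obtain ⟨y, hyX, hyu, hy, -⟩ := h.wit hs
      (.all (fiff (.mem 0 1) (fand (.mem 0 2) (rel (ren k.φ sft) 2))))
      (h.lz_mem (hsucc α hα)) (v := cns (lz α) k.env)
      (fun i => by
        cases i with
        | zero => exact h.lz_mem hα
        | succ i => exact henv i)
      ⟨x, mem_lz.2 hxU, (hsem x).2 fun z _ => by
        constructor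
        · intro h1
          exact ⟨mem_lz.2 (hd.1 z h1), (hd.2 z (mem_lz.2 (hd.1 z h1))).1 h1⟩
        · rintro ⟨h1, h2⟩
          exact (hd.2 z h1).2 h2⟩
    have hy' := (hsem y).1 hy
    have hyx : y = x := by
      ext z
      constructor
      · intro hz
        have h1 : z ∈ U F0 α := DfU_sub F0 ((U_succ F0).1 (mem_lz.1 hyu)) hz
        have h2 := (hy' z (hsub z (mem_lz.2 h1))).1 hz
        exact (hd.2 z h2.1).2 h2.2
      · intro hz
        have h1 := mem_lz.2 (hd.1 z hz)
        exact (hy' z (hsub z h1)).2 ⟨h1, (hd.2 z h1).1 hz⟩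
    rw [← hyx]
    exact hyX

end LBB
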