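import Pool.Agent.LBB.Hb
import Pool.Agent.LGr.Zfc

/-! # Bounded hulls are coherent

(problem MP_328cd5_lc, black box L; architect helper69; native)

PROOF of `coh_hb`: copy `LGr/HullC.lean` (`coh_hull`), which is proved; the changes: `Φ = F0`, so
`tp` is always false and the natural numbers (`hull_num`) are not needed; `hull_tv` only for
`α ∈ A` (field `sk`); extensionality is the field `ext` instead of the Skolem functions of the
whole structure; in `set` no bound for `x` is needed. -/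

namespace LBB

open STP LGr WCal

variable {X : Set ZFSet.{0}} {A : Set Ordinal.{0}}

private def nt (φ : LF) : LF := .imp φ .bot

private def an (φ ψ : LF) : LF := nt (.imp φ (nt ψ))

private theorem lsat_an {S : Type*} {E lt : S → S → Prop} {D : S → Prop} {φ ψ : LF}
    {v : ℕ → S} : lsat F0 E lt D (an φ ψ) v ↔ lsat F0 E lt D φ v ∧ lsat F0 E lt D ψ v := by
  simp only [an, nt, lsat]
  tauto

private theorem sk_all (h : IsHb X A) {α : Ordinal.{0}} (hα : α ∈ A) (φ : LF)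
    (v : ℕ → ZFSet.{0}) (hv : ∀ i, v i ∈ X ∧ v i ∈ U F0 α)
    (h1 : ∀ x ∈ X, x ∈ U F0 α → lsat F0 (· ∈ ·) (Lt F0) (· ∈ U F0 α) φ (cns x v)) :
    ∀ x ∈ U F0 α, lsat F0 (· ∈ ·) (Lt F0) (· ∈ U F0 α) φ (cns x v) := by
  intro x hx
  by_contra hc
  obtain ⟨y, hy, hy', h2⟩ := h.sk α hα (nt φ) v hv ⟨x, hx, hc⟩
  exact h2 (h1 y hy hy')

private theorem cns_val (x : X) (v : ℕ → X) :
    (fun i => (cns x v i).1) = cns x.1 fun i => (v i).1 := by
  funext i
  cases i with
  | zero => rfl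
  | succ i => rfl

theorem hb_tv (h : IsHb X A) {α : Ordinal.{0}} (hα : α ∈ A)
    (φ : LF) (v : ℕ → X) (hv : ∀ i, (v i).1 ∈ U F0 α) :
    lsat F0 (S := X) (fun x y => x.1 ∈ y.1) (fun x y => Lt F0 x.1 y.1) (fun x => x.1 ∈ U F0 α) φ v ↔
      lsat F0 (· ∈ ·) (Lt F0) (· ∈ U F0 α) φ (fun i => (v i).1) := by
  induction φ generalizing v with
  | mem i j => exact Iff.rfl
  | eq i j => exact Subtype.ext_iff
  | lt i j => exact Iff.rfl
  | tp r i j k => simp only [lsat, F0, and_false, exists_false]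
  | bot => exact Iff.rfl
  | imp φ ψ h1 h2 => exact imp_congr (h1 v hv) (h2 v hv)
  | all φ ih =>
    have key : ∀ x : X, x.1 ∈ U F0 α → (lsat F0 (S := X) (fun x y => x.1 ∈ y.1)
        (fun x y => Lt F0 x.1 y.1) (fun x => x.1 ∈ U F0 α) φ (cns x v) ↔
        lsat F0 (· ∈ ·) (Lt F0) (· ∈ U F0 α) φ (cns x.1 fun i => (v i).1)) := by
      intro x hx
      rw [ih (cns x v) (fun i => by
        cases i with
        | zero => exact hx
        | succ i => exact hv i), cns_val]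
    constructor
    · intro h1
      exact sk_all h hα φ (fun i => (v i).1) (fun i => ⟨(v i).2, hv i⟩)
        fun x hx hx' => (key ⟨x, hx⟩ hx').1 (h1 ⟨x, hx⟩ hx')
    · intro h1 x hx
      exact (key x hx).2 (h1 x.1 hx)

private theorem hull_ext (h : IsHb X A) (x y : X)
    (hxy : ∀ z : X, z.1 ∈ x.1 ↔ z.1 ∈ y.1) : x = y :=
  Subtype.ext (h.ext x.1 x.2 y.1 y.2 fun z hz => hxy ⟨z, hz⟩)

/-- a key with parameters in `X` as a key -/
private def kv (k : Key X) : Key ZFSet.{0} := ⟨k.φ, k.a.1, k.l.map Subtype.val⟩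

private theorem kv_env (k : Key X) (i : ℕ) : (kv k).env i = (k.env i).1 := by
  have h : (k.a.1 :: k.l.map Subtype.val) = (k.a :: k.l).map Subtype.val := rfl
  simp only [kv, Key.env]
  rw [h, List.getD_map]

private theorem kv_ok {D : ZFSet.{0} → Prop} {k : Key X} :
    (k.ok fun x : X => D x.1) ↔ (kv k).ok D := by
  simp only [Key.ok, kv]
  refine and_congr Iff.rfl ?_
  constructor
  · intro h y hy
    obtain ⟨x, hx, rfl⟩ := List.mem_map.1 hy
    exact h x hx
  · intro h y hy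
    exact h _ (List.mem_map.2 ⟨y, hy, rfl⟩)

private theorem env_mem {S : Type*} {D : S → Prop} {k : Key S} (hk : k.ok D) (i : ℕ) :
    D (k.env i) := by
  simp only [Key.env]
  by_cases hi : i < (k.a :: k.l).length
  · rw [List.getD_eq_getElem _ _ hi]
    have := List.getElem_mem hi
    rcases List.mem_cons.1 this with h | h
    · rw [h]; exact hk.1
    · exact hk.2 _ h
  · rw [List.getD_eq_default _ _ (not_lt.1 hi)]
    exact hk.1

private theorem lift_list : ∀ l : List ZFSet.{0}, (∀ y ∈ l, y ∈ X) →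
    ∃ l' : List X, l'.map Subtype.val = l
  | [], _ => ⟨[], rfl⟩
  | a :: l, h => by
    obtain ⟨l', hl'⟩ := lift_list l fun y hy => h y (List.mem_cons_of_mem _ hy)
    exact ⟨⟨a, h a List.mem_cons_self⟩ :: l', by rw [List.map_cons, hl']⟩

private theorem exists_lift {k : Key ZFSet.{0}} (h : ∀ y ∈ k.l, y ∈ X) (h' : k.a ∈ X) :
    ∃ k' : Key X, kv k' = k := by
  obtain ⟨l', hl'⟩ := lift_list k.l h
  exact ⟨⟨k.φ, ⟨k.a, h'⟩, l'⟩, Key.ext rfl rfl hl'⟩

private theorem kv_ext (h : IsHb X A) {α : Ordinal.{0}}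
    (hα : α ∈ A) {k : Key X} (hk : k.ok fun x : X => x.1 ∈ U F0 α) (z : X) :
    k.ext' F0 (fun x y => x.1 ∈ y.1) (fun x y => Lt F0 x.1 y.1) (fun x => x.1 ∈ U F0 α) z ↔
      (kv k).ext' F0 (· ∈ ·) (Lt F0) (· ∈ U F0 α) z.1 := by
  simp only [Key.ext']
  refine and_congr_right fun hz => ?_
  rw [hb_tv h hα _ _ (fun i => by
    cases i with
    | zero => exact hz
    | succ i => exact env_mem hk i), cns_val]
  have : (fun i => (k.env i).1) = (kv k).env := by
    funext i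
    exact (kv_env k i).symm
  rw [this]
  rfl

private theorem exists_set (h : IsHb X A) {α : Ordinal.{0}}
    (hα : α ∈ A) {k : Key X} (hk : k.ok fun x : X => x.1 ∈ U F0 α) :
    ∃ y : X, (kv k).dfs F0 (· ∈ ·) (Lt F0) (· ∈ U F0 α) y.1 ∧ y.1 ∈ U F0 (α + 1) := by
  obtain ⟨y, hy⟩ := exists_Df F0 α (kv k)
  have hok : (kv k).ok (· ∈ U F0 α) := kv_ok.1 hk
  have hyU : y ∈ U F0 (α + 1) := (U_succ F0).2 ⟨kv k, hok, hy⟩
  have hy' : (kv k).dfs F0 (· ∈ ·) (Lt F0) (· ∈ U F0 α) y := by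
    intro z
    rw [hy z]
    simp only [Key.ext']
    refine and_congr_right fun hz => ?_
    exact lsat_congr (fun a b _ hb => (Lt_iff F0 hb).symm) _ _ fun i => by
      cases i with
      | zero => exact hz
      | succ i => exact env_mem hok i
  have hyX : y ∈ X := h.set α hα (kv k)
    ⟨⟨k.a.2, hok.1⟩, fun b hb => ⟨by
      obtain ⟨x, -, rfl⟩ := List.mem_map.1 hb
      exact x.2, hok.2 b hb⟩⟩ y hy'
  exact ⟨⟨y, hyX⟩, hy', hyU⟩

private theorem kv_dfs (h : IsHb X A) {α : Ordinal.{0}}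
    (hα : α ∈ A) {k : Key X} (hk : k.ok fun x : X => x.1 ∈ U F0 α) {x : X} :
    k.dfs F0 (fun x y => x.1 ∈ y.1) (fun x y => Lt F0 x.1 y.1) (fun x => x.1 ∈ U F0 α) x ↔
      (kv k).dfs F0 (· ∈ ·) (Lt F0) (· ∈ U F0 α) x.1 := by
  constructor
  · intro h1
    obtain ⟨y, hy, -⟩ := exists_set h hα hk
    have h2 : x = y := hull_ext h x y fun z =>
      (h1 z).trans ((kv_ext h hα hk z).trans (hy z.1).symm)
    rw [h2]
    exact hy
  · intro h1 z
    exact (h1 z.1).trans (kv_ext h hα hk z).symm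

private theorem lex_val : ∀ l l' : List X, (List.Lex (fun x y : X => Lt F0 x.1 y.1) l l' ↔
    List.Lex (Lt F0) (l.map Subtype.val) (l'.map Subtype.val))
  | [], [] => by simp
  | [], b :: l' => by simp
  | a :: l, [] => by simp
  | a :: l, b :: l' => by
    have ih := lex_val l l'
    simp only [List.map_cons]
    constructor
    · intro hh
      cases hh with
      | cons hh => exact List.Lex.cons (ih.1 hh)
      | rel hh => exact List.Lex.rel hh
    · intro hh
      rw [List.cons_lex_cons_iff] at hh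
      rcases hh with hh | hh
      · exact List.Lex.rel hh
      · have h1 := Subtype.ext hh.1
        subst h1
        exact List.Lex.cons (ih.2 hh.2)

private theorem kv_klt {k k' : Key X} :
    klt (fun x y : X => Lt F0 x.1 y.1) k k' ↔ klt (Lt F0) (kv k) (kv k') := by
  simp only [klt, kv]
  refine or_congr Iff.rfl (and_congr Iff.rfl ?_)
  have h1 : (k.a.1 :: k.l.map Subtype.val) = (k.a :: k.l).map Subtype.val := rfl
  have h2 : (k'.a.1 :: k'.l.map Subtype.val) = (k'.a :: k'.l).map Subtype.val := rfl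
  rw [h1, h2, List.shortlex_def, List.shortlex_def, List.length_map, List.length_map, lex_val]

theorem coh_hb (h : IsHb X A) :
    Coh F0 (S := X) (I := A) (fun x y => x.1 ∈ y.1) (fun x y => Lt F0 x.1 y.1)
      (fun i j => i.1 < j.1)
      (fun i x => x.1 ∈ U F0 i.1) := by
  have hzero : ∀ i : A, (∀ j : A, ¬ j.1 < i.1) → i.1 = 0 := by
    intro i hi
    by_contra hne
    exact hi ⟨0, h.zero⟩ (pos_iff_ne_zero.2 hne)
  have hsuc : ∀ j i : A, Suc (fun i j : A => i.1 < j.1) j i → i.1 = j.1 + 1 := by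
    rintro j i ⟨h1, h2⟩
    have h3 : j.1 + 1 ≤ i.1 := Order.add_one_le_iff.2 h1
    rcases h3.eq_or_lt with h4 | h4
    · exact h4.symm
    · rcases h2 ⟨j.1 + 1, h.succ j.1 j.2⟩ h4 with h5 | h5
      · have h6 : j.1 + 1 = j.1 := congrArg Subtype.val h5
        exact absurd h6 (lt_add_one j.1).ne'
      · have h6 : j.1 + 1 < j.1 := h5
        exact absurd h6 (not_lt.2 (lt_add_one j.1).le)
  refine ⟨hull_ext h, fun i j k => lt_trans, fun i => lt_irrefl _, fun i j => ?_,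
    ⟨⟨∅, h.emp⟩, fun z => ZFSet.notMem_empty z.1⟩, fun x => ?_, fun i hi x => ?_,
    fun j i hji x => ?_, fun j i hji k hk => ?_, fun i hi hi' x => ?_, fun i hi x y hx hy => ?_,
    fun j i hji x y hx hy => ?_⟩
  · rcases lt_trichotomy i.1 j.1 with h1 | h1 | h1
    · exact Or.inl h1
    · exact Or.inr (Or.inl (Subtype.ext h1))
    · exact Or.inr (Or.inr h1)
  · obtain ⟨α, hα, hx, -⟩ := h.stage x.1 x.2
    exact ⟨⟨α, hα⟩, hx⟩
  · rw [hzero i hi, U_zero]
    constructor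
    · intro h1 z
      rw [h1]
      exact ZFSet.notMem_empty z.1
    · intro h1
      have h2 : x = ⟨∅, h.emp⟩ := hull_ext h x ⟨∅, h.emp⟩ fun z =>
        ⟨fun h3 => absurd h3 (h1 z), fun h3 => absurd h3 (ZFSet.notMem_empty z.1)⟩
      exact congrArg Subtype.val h2
  · rw [hsuc j i hji]
    constructor
    · intro h1
      obtain ⟨k, hk1, hk2, -⟩ := h.key j.1 j.2 x.1 x.2 ((U_succ F0).1 h1)
      obtain ⟨k', hk'⟩ := exists_lift (fun y hy => (hk1.2 y hy).1) hk1.1.1
      subst hk'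
      have hk3 : k'.ok fun x : X => x.1 ∈ U F0 j.1 :=
        kv_ok.2 ⟨hk1.1.2, fun y hy => (hk1.2 y hy).2⟩
      exact ⟨k', hk3, (kv_dfs h j.2 hk3).2 hk2⟩
    · rintro ⟨k, hk, hx⟩
      obtain ⟨y, hy, hy'⟩ := exists_set h j.2 hk
      have h2 := (kv_dfs h j.2 hk).1 hx
      have h3 : x.1 = y.1 := ZFSet.ext fun z => (h2 z).trans (hy z).symm
      rw [h3]
      exact hy'
  · obtain ⟨y, hy, hy'⟩ := exists_set h j.2 hk
    exact ⟨y, (kv_dfs h j.2 hk).2 hy⟩
  · have hlim : Order.IsSuccLimit i.1 := by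
      obtain ⟨j, hj⟩ := hi
      refine ⟨fun hm => absurd (hm (le_of_lt hj)) (not_le.2 hj),
        Order.isSuccPrelimit_of_succ_ne fun β hβ => ?_⟩
      rw [Order.succ_eq_add_one] at hβ
      have hβA : β ∈ A := h.pred β (hβ ▸ i.2)
      refine hi' ⟨β, hβA⟩ ⟨?_, fun k hk => ?_⟩
      · change β < i.1
        rw [← hβ]
        exact lt_add_one β
      · have hk' : k.1 < β + 1 := by
          rw [hβ]
          exact hk
        rcases (Order.lt_add_one_iff.1 hk').eq_or_lt with h1 | h1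
        · exact Or.inl (Subtype.ext h1)
        · exact Or.inr h1
    constructor
    · intro h1
      obtain ⟨β, hβ, h2⟩ := (U_lim F0 hlim).1 h1
      obtain ⟨α, hα, hx, hα'⟩ := h.stage x.1 x.2
      refine ⟨⟨α, hα⟩, ?_, hx⟩
      have h3 : α ≤ β := by
        by_contra hc
        exact hα' β (not_le.1 hc) h2
      exact h3.trans_lt hβ
    · rintro ⟨j, hj, h1⟩
      exact U_mono F0 (le_of_lt hj) h1
  · rw [hzero i hi, U_zero] at hx hy
    rw [hx, hy]
    exact Lt_irr F0 _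
  · rw [hsuc j i hji] at hx hy
    have hdx := (U_succ F0).1 hx
    have hdy := (U_succ F0).1 hy
    refine (Lt_succ F0 hx hy).trans ?_
    refine or_congr Iff.rfl (or_congr Iff.rfl (and_congr Iff.rfl (and_congr Iff.rfl ?_)))
    rw [lessU_iff]
    obtain ⟨kx, hx1, hx2, hx3⟩ := h.key j.1 j.2 x.1 x.2 hdx
    obtain ⟨ky, hy1, hy2, hy3⟩ := h.key j.1 j.2 y.1 y.2 hdy
    obtain ⟨kx', hkx⟩ := exists_lift (fun y hy => (hx1.2 y hy).1) hx1.1.1
    obtain ⟨ky', hky⟩ := exists_lift (fun y hy => (hy1.2 y hy).1) hy1.1.1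
    subst hkx hky
    have hox : (kv kx').ok (· ∈ U F0 j.1) := ⟨hx1.1.2, fun y hy => (hx1.2 y hy).2⟩
    have hoy : (kv ky').ok (· ∈ U F0 j.1) := ⟨hy1.1.2, fun y hy => (hy1.2 y hy).2⟩
    have htr : ∀ x y z : ZFSet.{0}, x ∈ U F0 j.1 → y ∈ U F0 j.1 → z ∈ U F0 j.1 →
        Lt F0 x y → Lt F0 y z → Lt F0 x z := fun x y z _ _ _ h1 h2 => Lt_tr F0 h1 h2
    constructor
    · rintro ⟨k, hk, hkx, hkl⟩
      refine ⟨kx', kv_ok.2 hox, (kv_dfs h j.2 (kv_ok.2 hox)).2 hx2, fun k' hk' hk'y => ?_⟩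
      have h1 := hkl (kv k') (kv_ok.1 hk') ((kv_dfs h j.2 hk').1 hk'y)
      rw [kv_klt]
      rcases hx3 k hk hkx with h2 | h2
      · rw [h2]
        exact h1
      · exact klt_tr htr _ _ _ hox hk (kv_ok.1 hk') h2 h1
    · rintro ⟨k, hk, hkx, hkl⟩
      refine ⟨kv k, kv_ok.1 hk, (kv_dfs h j.2 hk).1 hkx, fun k' hk' hk'y => ?_⟩
      have h1 := hkl ky' (kv_ok.2 hoy) ((kv_dfs h j.2 (kv_ok.2 hoy)).2 hy2)
      rw [kv_klt] at h1
      rcases hy3 k' hk' hk'y with h2 | h2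
      · rw [← h2]
        exact h1
      · exact klt_tr htr _ _ _ (kv_ok.1 hk) hoy hk' h1 h2

end LBB
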