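import Pool.Agent.LBB.ISat

/-! # Components and least witnesses are internal

(problem MP_328cd5_lc, black box L; architect helper69; internal, model `L δ`)

PROOFS. `M = L δ`, `Ω` a limit.
* `if_fs`: `IF.ofP` with the graph `(∃ b : L Ω, cd (y, b) = cd x) ∨ ((¬ ∃ p : L Ω × L Ω, cd p = cd x) ∧ y = ∅)` (`IP.cdeq`, `cd_prod`; the components of a pair in `L Ω` are in `L Ω`: `U_trans`). `if_sn` similar.
* `if_pj`: `pj x i = fs (sn^[i] x)` by induction on `i`; `IF.natRec` (`WCal/Nat.lean`). `bd_dF`: strong induction on `n` (`bd`: `LGr/Trn.lean`; `Nat.unpair_left_le`, `n / 7 < n`).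
* `if_sk`: `IF.ofP` with the graph of `sk`: let `D = {a : L Ω | a ∈ fs x}` (internal in `x`), `v = (List.range (n + 1)).map (pj (sn x))` (`IF.rangeMap`, `if_pj`) and `W y := y ∈ fs x ∧ sl (· ∈ vs D) n (y :: v)` (internal in `(n, x, y)`: `ip_sl` composed). By `lsat_bd`, `bd_dF` `W y` iff `y ∈ fs x ∧ us (fs x) (dF n) (cns y (pj (sn x)))`
  (`List.getD` of the list at `i < n + 2`). The graph: `(W y ∧ ∀ z : L Ω, W z → y = z ∨ lL y z) ∨ ((∀ z, ¬ W z) ∧ y = ∅)` (`lea_spec`, `lea_eq`, `lea_none`; all elements of `fs x` are in `L Ω`). -/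

namespace LBB

open STP LGr WCal WM

theorem bd_dF (n : ℕ) : bd (dF n) ≤ n + 1 := by
  induction n using Nat.strong_induction_on with
  | _ n ih =>
    have h1 := Nat.unpair_left_le (n / 7)
    have h2 := Nat.unpair_right_le (n / 7)
    have h3 := Nat.unpair_right_le (Nat.unpair (n / 7)).1
    have h4 := Nat.unpair_left_le (Nat.unpair (n / 7)).2
    have h5 := Nat.unpair_right_le (Nat.unpair (n / 7)).2
    rw [dF]
    split_ifs with c0 c1 c2 c3 c4 c5 c6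
    · change max _ _ + 1 ≤ n + 1
      omega
    · change max _ _ + 1 ≤ n + 1
      omega
    · change max _ _ + 1 ≤ n + 1
      omega
    · change max _ (max _ _) + 1 ≤ n + 1
      omega
    · exact Nat.zero_le _
    · have a1 := ih (Nat.unpair (n / 7)).1 (by omega)
      have a2 := ih (Nat.unpair (n / 7)).2 (by omega)
      change max (bd (dF _)) (bd (dF _)) ≤ n + 1
      omega
    · have a1 := ih (n / 7) (by omega)
      change bd (dF _) ≤ n + 1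
      omega
    · exact Nat.zero_le _

variable {δ : Ordinal.{0}} [hG : GM δ] {Ω : Ordinal.{0}} [hΩ : Fact (Ω < δ)]

private theorem cdp {y b x : L Ω} :
    cd (L δ) ((y, b) : L Ω × L Ω) = cd (L δ) x ↔ ZFSet.pair y.1 b.1 = x.1 := by
  constructor
  · intro h
    have h1 := congrArg Subtype.val h
    rw [cd_prod] at h1
    exact h1
  · intro h
    apply Subtype.ext
    rw [cd_prod]
    exact h

omit hG hΩ in
private theorem comp_mem {x a b : ZFSet.{0}} (hx : x ∈ L Ω) (h : x = ZFSet.pair a b) :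
    a ∈ L Ω ∧ b ∈ L Ω := by
  have h1 : ({a, b} : ZFSet.{0}) ∈ x := by
    rw [h]
    unfold ZFSet.pair
    rw [ZFSet.mem_pair]
    exact Or.inr rfl
  have h2 := U_trans F0 hx h1
  exact ⟨U_trans F0 h2 (ZFSet.mem_pair.2 (Or.inl rfl)),
    U_trans F0 h2 (ZFSet.mem_pair.2 (Or.inr rfl))⟩

theorem if_fs (hm : ∀ x : L Ω, fs x.1 ∈ L Ω) : IF (L δ) (fun x : L Ω => (⟨fs x.1, hm x⟩ : L Ω)) := by
  refine IF.ofP (Q := fun (x y : L Ω) =>
    (∃ b : L Ω, cd (L δ) ((y, b) : L Ω × L Ω) = cd (L δ) x) ∨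
      ((¬ ∃ p : L Ω × L Ω, cd (L δ) p = cd (L δ) x) ∧ y = ⟨∅, empty_mem_U F0 Ω⟩)) ?_ ?_
  · refine IP.or (IP.ex (IP.cdeq (IF.pair (IF.snd.comp IF.fst) IF.snd) (IF.fst.comp IF.fst)))
      (IP.and (IP.not (IP.ex (IP.cdeq IF.snd (IF.fst.comp IF.fst)))) (IP.eq IF.snd (IF.const _)))
  · intro x y
    constructor
    · rintro (⟨b, hb⟩ | ⟨h1, rfl⟩)
      · rw [cdp] at hb
        apply Subtype.ext
        change fs x.1 = y.1
        rw [← hb, fs_pair]
      · apply Subtype.ext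
        change fs x.1 = ∅
        unfold fs
        rw [dif_neg]
        rintro ⟨a, b, hab⟩
        obtain ⟨ha, hb⟩ := comp_mem x.2 hab
        exact h1 ⟨(⟨a, ha⟩, ⟨b, hb⟩), cdp.2 hab.symm⟩
    · rintro rfl
      by_cases h : ∃ a b, x.1 = ZFSet.pair a b
      · obtain ⟨a, b, hab⟩ := h
        obtain ⟨ha, hb⟩ := comp_mem x.2 hab
        refine Or.inl ⟨⟨b, hb⟩, cdp.2 ?_⟩
        change ZFSet.pair (fs x.1) b = x.1
        rw [hab, fs_pair]
      · refine Or.inr ⟨?_, ?_⟩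
        · rintro ⟨⟨a, b⟩, hab⟩
          exact h ⟨a.1, b.1, (cdp.1 hab).symm⟩
        · apply Subtype.ext
          change fs x.1 = ∅
          unfold fs
          rw [dif_neg h]

theorem if_sn (hm : ∀ x : L Ω, sn x.1 ∈ L Ω) : IF (L δ) (fun x : L Ω => (⟨sn x.1, hm x⟩ : L Ω)) := by
  refine IF.ofP (Q := fun (x y : L Ω) =>
    (∃ b : L Ω, cd (L δ) ((b, y) : L Ω × L Ω) = cd (L δ) x) ∨
      ((¬ ∃ p : L Ω × L Ω, cd (L δ) p = cd (L δ) x) ∧ y = ⟨∅, empty_mem_U F0 Ω⟩)) ?_ ?_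
  · refine IP.or (IP.ex (IP.cdeq (IF.pair IF.snd (IF.snd.comp IF.fst)) (IF.fst.comp IF.fst)))
      (IP.and (IP.not (IP.ex (IP.cdeq IF.snd (IF.fst.comp IF.fst)))) (IP.eq IF.snd (IF.const _)))
  · intro x y
    have hno : (¬ ∃ b a, x.1 = ZFSet.pair a b) → sn x.1 = ∅ := by
      intro h
      unfold sn
      rw [dif_neg h]
    constructor
    · rintro (⟨b, hb⟩ | ⟨h1, rfl⟩)
      · rw [cdp] at hb
        apply Subtype.ext
        change sn x.1 = y.1
        rw [← hb, sn_pair]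
      · apply Subtype.ext
        change sn x.1 = ∅
        apply hno
        rintro ⟨b, a, hab⟩
        obtain ⟨ha, hb⟩ := comp_mem x.2 hab
        exact h1 ⟨(⟨a, ha⟩, ⟨b, hb⟩), cdp.2 hab.symm⟩
    · rintro rfl
      by_cases h : ∃ b a, x.1 = ZFSet.pair a b
      · obtain ⟨b, a, hab⟩ := h
        obtain ⟨ha, hb⟩ := comp_mem x.2 hab
        refine Or.inl ⟨⟨a, ha⟩, cdp.2 ?_⟩
        change ZFSet.pair a (sn x.1) = x.1
        rw [hab, sn_pair]
      · refine Or.inr ⟨?_, ?_⟩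
        · rintro ⟨⟨a, b⟩, hab⟩
          exact h ⟨b.1, a.1, (cdp.1 hab).symm⟩
        · apply Subtype.ext
          change sn x.1 = ∅
          exact hno h

omit hG hΩ in
private theorem fs_L (h : Order.IsSuccLimit Ω) (x : L Ω) : fs x.1 ∈ L Ω := by
  obtain ⟨k, hk⟩ := exists_fs
  rw [← hk]
  exact B_mem h k x.2

omit hG hΩ in
private theorem sn_L (h : Order.IsSuccLimit Ω) (x : L Ω) : sn x.1 ∈ L Ω := by
  obtain ⟨k, hk⟩ := exists_sn
  rw [← hk]
  exact B_mem h k x.2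

omit hG hΩ in
private theorem pj_L (h : Order.IsSuccLimit Ω) (x : ZFSet.{0}) (hx : x ∈ L Ω) (i : ℕ) :
    pj x i ∈ L Ω := by
  induction i generalizing x with
  | zero => exact fs_L h ⟨x, hx⟩
  | succ i ih => exact ih (sn x) (sn_L h ⟨x, hx⟩)

theorem if_pj (h : Order.IsSuccLimit Ω) (hm : ∀ p : L Ω × ℕ, pj p.1.1 p.2 ∈ L Ω) :
    IF (L δ) (fun p : L Ω × ℕ => (⟨pj p.1.1 p.2, hm p⟩ : L Ω)) := by
  have h1 : IF (L δ) (fun p : L Ω × ℕ =>
      (Nat.rec p.1 (fun _ y => (⟨sn y.1, sn_L h y⟩ : L Ω)) p.2 : L Ω)) :=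
    IF.natRec (N := L δ) (b := fun x : L Ω => x)
      (g := fun (_ : L Ω) (_ : ℕ) (y : L Ω) => (⟨sn y.1, sn_L h y⟩ : L Ω)) IF.id
      ((if_sn (sn_L h)).comp (IF.snd.comp IF.snd))
  refine IF.congr ?_ ((if_fs (δ := δ) (fs_L h)).comp h1)
  have key : ∀ (n : ℕ) (x : L Ω),
      (Nat.rec (⟨sn x.1, sn_L h x⟩ : L Ω) (fun _ y => (⟨sn y.1, sn_L h y⟩ : L Ω)) n : L Ω) =
        (⟨sn (Nat.rec x (fun _ y => (⟨sn y.1, sn_L h y⟩ : L Ω)) n : L Ω).1,
          sn_L h _⟩ : L Ω) := by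
    intro n x
    induction n with
    | zero => rfl
    | succ n ih =>
      apply Subtype.ext
      change sn _ = sn (sn _)
      rw [ih]
  have key2 : ∀ (n : ℕ) (x : L Ω),
      fs (Nat.rec x (fun _ y => (⟨sn y.1, sn_L h y⟩ : L Ω)) n : L Ω).1 = pj x.1 n := by
    intro n
    induction n with
    | zero => exact fun x => rfl
    | succ n ih =>
      intro x
      rw [pj_succ]
      have h2 := ih ⟨sn x.1, sn_L h x⟩
      rw [key n x] at h2
      exact h2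
  rintro ⟨x, n⟩
  exact Subtype.ext (key2 n x)

theorem if_sk (h : Order.IsSuccLimit Ω) (hm : ∀ p : ℕ × L Ω, sk (dF p.1) p.2.1 ∈ L Ω) :
    IF (L δ) (fun p : ℕ × L Ω => (⟨sk (dF p.1) p.2.1, hm p⟩ : L Ω)) := by
  have hpj : ∀ p : L Ω × ℕ, pj p.1.1 p.2 ∈ L Ω := fun p => pj_L h p.1.1 p.1.2 p.2
  have e1 : IP (L δ) (fun p : L Ω × L Ω => p.2.1 ∈ fs p.1.1) :=
    IP.comp (P := fun q : L Ω × L Ω => q.1.1 ∈ q.2.1) ip_memL
      (IF.pair IF.snd ((if_fs (fs_L h)).comp IF.fst))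
  obtain ⟨D, e2, hD⟩ : ∃ D : L Ω → St (L δ) (L Ω), IF (L δ) D ∧
      ∀ x a, a ∈ D x ↔ a.1 ∈ fs x.1 :=
    ⟨_, IF.compr (P := fun (x a : L Ω) => a.1 ∈ fs x.1) e1, fun _ _ => Iff.rfl⟩
  have e3 : IF (L δ) (fun c : ℕ × L Ω => (List.range (c.1 + 1)).map
      (fun i => (⟨pj (sn c.2.1) i, hpj (⟨sn c.2.1, sn_L h c.2⟩, i)⟩ : L Ω))) :=
    IF.rangeMap (x := fun (c : ℕ × L Ω) (i : ℕ) =>
      (⟨pj (sn c.2.1) i, hpj (⟨sn c.2.1, sn_L h c.2⟩, i)⟩ : L Ω))
      ((if_pj h hpj).comp (IF.pair ((if_sn (sn_L h)).comp (IF.snd.comp IF.fst)) IF.snd))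
      (IF.succ IF.fst)
  obtain ⟨W, hWdef⟩ : ∃ W : (ℕ × L Ω) → L Ω → Prop, W = fun c y => y.1 ∈ fs c.2.1 ∧
      sl (· ∈ vs (D c.2)) c.1
        ((y :: (List.range (c.1 + 1)).map
          (fun i => (⟨pj (sn c.2.1) i, hpj (⟨sn c.2.1, sn_L h c.2⟩, i)⟩ : L Ω))).map
            Subtype.val) := ⟨_, rfl⟩
  have hW : IP (L δ) (fun p : (ℕ × L Ω) × L Ω => W p.1 p.2) := by
    rw [hWdef]
    exact IP.and (IP.comp (P := fun q : L Ω × L Ω => q.2.1 ∈ fs q.1.1) e1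
        (IF.pair (IF.snd.comp IF.fst) IF.snd))
      (IP.comp (P := fun p : St (L δ) (L Ω) × ℕ × List (L Ω) =>
        sl (· ∈ vs p.1) p.2.1 (p.2.2.map Subtype.val)) ip_sl
        (IF.pair (e2.comp (IF.snd.comp IF.fst)) (IF.pair (IF.fst.comp IF.fst)
          (IF.cons IF.snd (e3.comp IF.fst)))))
  have hWP : ∀ (n : ℕ) (x y : L Ω), W (n, x) y ↔
      (y.1 ∈ fs x.1 ∧ us (fs x.1) (dF n) (cns y.1 (pj (sn x.1)))) := by
    intro n x y
    rw [hWdef]
    refine and_congr_right fun _ => ?_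
    unfold sl us
    have h1 : (· ∈ vs (D x)) = (· ∈ fs x.1) := by
      funext z
      apply propext
      constructor
      · rintro ⟨a, ha, rfl⟩
        exact (hD x a).1 ha
      · intro hz
        exact ⟨⟨z, U_trans F0 (fs_L h x) hz⟩, (hD x _).2 hz, rfl⟩
    change lsat F0 _ _ (· ∈ vs (D x)) _ _ ↔ _
    rw [h1]
    refine lsat_bd (dF n) fun i hi => ?_
    have h2 := bd_dF n
    rcases i with _ | i
    · rfl
    · have h3 : i < n + 1 := by omega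
      change (((y :: (List.range (n + 1)).map (fun i => (⟨pj (sn x.1) i,
        hpj (⟨sn x.1, sn_L h x⟩, i)⟩ : L Ω))).map Subtype.val).getD (i + 1) ∅) = pj (sn x.1) i
      simp [List.getD, h3]
  refine IF.ofP (Q := fun (c : ℕ × L Ω) (y : L Ω) =>
    (W c y ∧ ∀ z : L Ω, W c z → y = z ∨ lL y.1 z.1) ∨
      ((∀ z, ¬ W c z) ∧ y = ⟨∅, empty_mem_U F0 Ω⟩)) ?_ ?_
  · refine IP.or (IP.and hW (IP.all (IP.imp ?_ (IP.or (IP.eq (IF.snd.comp IF.fst) IF.snd) ?_))))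
      (IP.and (IP.all (IP.not ?_)) (IP.eq IF.snd (IF.const _)))
    · exact IP.comp (P := fun p : (ℕ × L Ω) × L Ω => W p.1 p.2) hW
        (IF.pair (IF.fst.comp IF.fst) IF.snd)
    · exact IP.comp (P := fun p : L Ω × L Ω => lL p.1.1 p.2.1) ip_lL
        (IF.pair (IF.snd.comp IF.fst) IF.snd)
    · exact IP.comp (P := fun p : (ℕ × L Ω) × L Ω => W p.1 p.2) hW
        (IF.pair (IF.fst.comp IF.fst) IF.snd)
  · rintro ⟨n, x⟩ y
    have hP : ∀ z, (z ∈ fs x.1 ∧ us (fs x.1) (dF n) (cns z (pj (sn x.1)))) → z ∈ L Ω :=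
      fun z hz => U_trans F0 (fs_L h x) hz.1
    constructor
    · rintro (⟨h1, h2⟩ | ⟨h1, rfl⟩)
      · apply Subtype.ext
        refine lea_eq (τ := Ω) hP ((hWP n x y).1 h1) fun z hz => ?_
        rcases h2 ⟨z, hP z hz⟩ ((hWP n x _).2 hz) with h3 | h3
        · exact Or.inl (congrArg Subtype.val h3)
        · exact Or.inr h3
      · apply Subtype.ext
        exact lea_none fun z hz => h1 ⟨z, hP z hz⟩ ((hWP n x _).2 hz)
    · rintro rfl
      by_cases hex : ∃ z, z ∈ fs x.1 ∧ us (fs x.1) (dF n) (cns z (pj (sn x.1)))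
      · obtain ⟨h1, h2⟩ := lea_spec (τ := Ω) (P := fun z => z ∈ fs x.1 ∧
          us (fs x.1) (dF n) (cns z (pj (sn x.1)))) hP hex
        refine Or.inl ⟨(hWP n x _).2 h1, fun z hz => ?_⟩
        rcases h2 z.1 ((hWP n x z).1 hz) with h3 | h3
        · exact Or.inl (Subtype.ext h3)
        · exact Or.inr h3
      · refine Or.inr ⟨fun z hz => hex ⟨z.1, (hWP n x z).1 hz⟩, ?_⟩
        apply Subtype.ext
        exact lea_none fun z hz => hex ⟨z, hz⟩

end LBB
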