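import Pool.Agent.LBB.ILev
import Pool.Agent.LBB.ISk

/-! # The family `B` is internal

(problem MP_328cd5_lc, black box L; architect helper69; internal, model `L δ`)

PROOF. `M = L δ`. First the equations for `B n x` (unfold `dT` with `dT.eq_def`, `ev`): `n % 8 = 0`: `x`; `1`: `fs x`; `2`: `sn x`; `3`: `(st x).toZFSet`; `4`: `lv x`; `5`: `sk (dF (n / 8)) x`; `6`: `B u1 (B u2 x)`; `7`: `pair (B u1 x) (B u2 x)` with `(u1, u2) = unpair (n / 8)`.
`wfRec` for `<` on `ℕ` with values in `St M (L Ω × L Ω)`: `F n` = the graph of `B n` on `L Ω`: `G n S` = the set of all `(x, y)` with `n % 8 = 0 ∧ y = x`, or `n % 8 = 1 ∧ y = fs x`, or …, or `n % 8 = 6 ∧ ∃ T T' z, (u1, T) ∈ S ∧ (u2, T') ∈ S ∧ (x, z) ∈ T' ∧ (z, y) ∈ T`, or `n % 8 = 7 ∧ ∃ T T' z z', (u1, T) ∈ S ∧ (u2, T') ∈ S ∧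
(x, z) ∈ T ∧ (x, z') ∈ T' ∧ y = pair z z'` (`if_fs`, `if_sn`, `if_st` with `if_ord`, `if_lv`, `if_sk`, `if_pairL`; memberships from `B_mem` for the corresponding terms), strong induction (`B_mem`). -/

namespace LBB

open STP LGr WCal WM

private theorem ib_lt1 {n : ℕ} (h : n % 8 ≠ 0) : (Nat.unpair (n / 8)).1 < n := by
  have h0 : 0 < n := by omega
  exact (Nat.unpair_left_le _).trans_lt (Nat.div_lt_self h0 (by norm_num))

private theorem ib_lt2 {n : ℕ} (h : n % 8 ≠ 0) : (Nat.unpair (n / 8)).2 < n := by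
  have h0 : 0 < n := by omega
  exact (Nat.unpair_right_le _).trans_lt (Nat.div_lt_self h0 (by norm_num))

section

universe u v

variable {N : Type u} [WM N] {X : Type v} [WTy N X]

private theorem ib_rec {f1 f2 f3 f4 : X → X} {f5 : ℕ → X → X} {f7 : X → X → X}
    (h1 : IF N f1) (h2 : IF N f2) (h3 : IF N f3) (h4 : IF N f4)
    (h5 : IF N (fun p : ℕ × X => f5 p.1 p.2)) (h7 : IF N (fun p : X × X => f7 p.1 p.2))
    (Bf : ℕ → X → X)
    (e0 : ∀ n x, n % 8 = 0 → Bf n x = x)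
    (e1 : ∀ n x, n % 8 = 1 → Bf n x = f1 x)
    (e2 : ∀ n x, n % 8 = 2 → Bf n x = f2 x)
    (e3 : ∀ n x, n % 8 = 3 → Bf n x = f3 x)
    (e4 : ∀ n x, n % 8 = 4 → Bf n x = f4 x)
    (e5 : ∀ n x, n % 8 = 5 → Bf n x = f5 (n / 8) x)
    (e6 : ∀ n x, n % 8 = 6 → Bf n x = Bf (Nat.unpair (n / 8)).1 (Bf (Nat.unpair (n / 8)).2 x))
    (e7 : ∀ n x, n % 8 = 7 →
      Bf n x = f7 (Bf (Nat.unpair (n / 8)).1 x) (Bf (Nat.unpair (n / 8)).2 x)) :
    IF N (fun p : ℕ × X => Bf p.1 p.2) := by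
  have hP : IP N (fun q : (ℕ × St N (ℕ × St N (X × X))) × (X × X) =>
      (q.1.1 % 8 = 0 ∧ q.2.1 = q.2.2) ∨ (q.1.1 % 8 = 1 ∧ f1 q.2.1 = q.2.2) ∨
      (q.1.1 % 8 = 2 ∧ f2 q.2.1 = q.2.2) ∨ (q.1.1 % 8 = 3 ∧ f3 q.2.1 = q.2.2) ∨
      (q.1.1 % 8 = 4 ∧ f4 q.2.1 = q.2.2) ∨ (q.1.1 % 8 = 5 ∧ f5 (q.1.1 / 8) q.2.1 = q.2.2) ∨
      (q.1.1 % 8 = 6 ∧ ∃ T : St N (X × X), ∃ T' : St N (X × X), ∃ z : X,
        ((Nat.unpair (q.1.1 / 8)).1, T) ∈ q.1.2 ∧ ((Nat.unpair (q.1.1 / 8)).2, T') ∈ q.1.2 ∧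
        (q.2.1, z) ∈ T' ∧ (z, q.2.2) ∈ T) ∨
      (q.1.1 % 8 = 7 ∧ ∃ T : St N (X × X), ∃ T' : St N (X × X), ∃ z : X, ∃ z' : X,
        ((Nat.unpair (q.1.1 / 8)).1, T) ∈ q.1.2 ∧ ((Nat.unpair (q.1.1 / 8)).2, T') ∈ q.1.2 ∧
        (q.2.1, z) ∈ T ∧ (q.2.1, z') ∈ T' ∧ f7 z z' = q.2.2)) := by
    have a8 : ∀ c : ℕ, IP N (fun q : (ℕ × St N (ℕ × St N (X × X))) × (X × X) =>
        q.1.1 % 8 = c) := fun c =>
      IP.eq (IF.mod (IF.fst.comp IF.fst) (IF.const 8)) (IF.const c)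
    have b1 : IF N (fun q : (ℕ × St N (ℕ × St N (X × X))) × (X × X) => q.2.1) :=
      IF.fst.comp IF.snd
    have b2 : IF N (fun q : (ℕ × St N (ℕ × St N (X × X))) × (X × X) => q.2.2) :=
      IF.snd.comp IF.snd
    have b3 : IF N (fun q : (ℕ × St N (ℕ × St N (X × X))) × (X × X) => q.1.1 / 8) :=
      IF.div (IF.fst.comp IF.fst) (IF.const 8)
    have b4 : IF N (fun q : (ℕ × St N (ℕ × St N (X × X))) × (X × X) => q.1.2) :=
      IF.snd.comp IF.fst
    refine IP.or ((a8 0).and (IP.eq b1 b2)) <| IP.or ((a8 1).and (IP.eq (h1.comp b1) b2)) <|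
      IP.or ((a8 2).and (IP.eq (h2.comp b1) b2)) <| IP.or ((a8 3).and (IP.eq (h3.comp b1) b2)) <|
      IP.or ((a8 4).and (IP.eq (h4.comp b1) b2)) <|
      IP.or ((a8 5).and (IP.eq (h5.comp2 b3 b1) b2)) <|
      IP.or ((a8 6).and (IP.ex (IP.ex (IP.ex ?_))))
        ((a8 7).and (IP.ex (IP.ex (IP.ex (IP.ex ?_)))))
    · have c : IF N (fun r : ((((ℕ × St N (ℕ × St N (X × X))) × (X × X)) × St N (X × X)) ×
          St N (X × X)) × X => r.1.1.1) := IF.fst.comp (IF.fst.comp IF.fst)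
      have cT : IF N (fun r : ((((ℕ × St N (ℕ × St N (X × X))) × (X × X)) × St N (X × X)) ×
          St N (X × X)) × X => r.1.1.2) := IF.snd.comp (IF.fst.comp IF.fst)
      have cT' : IF N (fun r : ((((ℕ × St N (ℕ × St N (X × X))) × (X × X)) × St N (X × X)) ×
          St N (X × X)) × X => r.1.2) := IF.snd.comp IF.fst
      exact (IP.mem ((IF.unpair1 (b3.comp c)).pair cT) (b4.comp c)).and <|
        (IP.mem ((IF.unpair2 (b3.comp c)).pair cT') (b4.comp c)).and <|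
        (IP.mem ((b1.comp c).pair IF.snd) cT').and (IP.mem (IF.snd.pair (b2.comp c)) cT)
    · have c : IF N (fun r : (((((ℕ × St N (ℕ × St N (X × X))) × (X × X)) × St N (X × X)) ×
          St N (X × X)) × X) × X => r.1.1.1.1) := IF.fst.comp (IF.fst.comp (IF.fst.comp IF.fst))
      have cT : IF N (fun r : (((((ℕ × St N (ℕ × St N (X × X))) × (X × X)) × St N (X × X)) ×
          St N (X × X)) × X) × X => r.1.1.1.2) := IF.snd.comp (IF.fst.comp (IF.fst.comp IF.fst))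
      have cT' : IF N (fun r : (((((ℕ × St N (ℕ × St N (X × X))) × (X × X)) × St N (X × X)) ×
          St N (X × X)) × X) × X => r.1.1.2) := IF.snd.comp (IF.fst.comp IF.fst)
      have cz : IF N (fun r : (((((ℕ × St N (ℕ × St N (X × X))) × (X × X)) × St N (X × X)) ×
          St N (X × X)) × X) × X => r.1.2) := IF.snd.comp IF.fst
      exact (IP.mem ((IF.unpair1 (b3.comp c)).pair cT) (b4.comp c)).and <|
        (IP.mem ((IF.unpair2 (b3.comp c)).pair cT') (b4.comp c)).and <|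
        (IP.mem ((b1.comp c).pair cz) cT).and <| (IP.mem ((b1.comp c).pair IF.snd) cT').and <|
        IP.eq (h7.comp2 cz IF.snd) (b2.comp c)
  obtain ⟨G, hG, hGm⟩ : ∃ G : ℕ → St N (ℕ × St N (X × X)) → St N (X × X),
      IF N (fun p : ℕ × St N (ℕ × St N (X × X)) => G p.1 p.2) ∧
      ∀ n S (p : X × X), p ∈ G n S ↔
      ((n % 8 = 0 ∧ p.1 = p.2) ∨ (n % 8 = 1 ∧ f1 p.1 = p.2) ∨
      (n % 8 = 2 ∧ f2 p.1 = p.2) ∨ (n % 8 = 3 ∧ f3 p.1 = p.2) ∨
      (n % 8 = 4 ∧ f4 p.1 = p.2) ∨ (n % 8 = 5 ∧ f5 (n / 8) p.1 = p.2) ∨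
      (n % 8 = 6 ∧ ∃ T : St N (X × X), ∃ T' : St N (X × X), ∃ z : X,
        ((Nat.unpair (n / 8)).1, T) ∈ S ∧ ((Nat.unpair (n / 8)).2, T') ∈ S ∧
        (p.1, z) ∈ T' ∧ (z, p.2) ∈ T) ∨
      (n % 8 = 7 ∧ ∃ T : St N (X × X), ∃ T' : St N (X × X), ∃ z : X, ∃ z' : X,
        ((Nat.unpair (n / 8)).1, T) ∈ S ∧ ((Nat.unpair (n / 8)).2, T') ∈ S ∧
        (p.1, z) ∈ T ∧ (p.1, z') ∈ T' ∧ f7 z z' = p.2)) := by
    refine ⟨fun n S => ⟨{p | _}, hP.sec (n, S)⟩, ?_, fun n S p => Iff.rfl⟩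
    exact IF.compr hP
  obtain ⟨F, hF, hFG⟩ := wfRec (N := N) (r := fun a b : ℕ => a < b)
    (Nat.lt_wfRel.wf) (IP.lt IF.fst IF.snd) hG
  have key : ∀ n (p : X × X), p ∈ F n ↔ Bf n p.1 = p.2 := by
    intro n
    induction n using Nat.strong_induction_on with
    | _ n ih =>
      intro p
      have hS : IP N (fun q : ℕ × St N (X × X) => q.1 < n ∧ F q.1 = q.2) :=
        (IP.lt IF.fst (IF.const n)).and (IP.eq (hF.comp IF.fst) IF.snd)
      rw [hFG n ⟨{q | q.1 < n ∧ F q.1 = q.2}, hS⟩ (fun q => Iff.rfl), hGm]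
      have hm : ∀ (m : ℕ) (T : St N (X × X)), m < n →
          ((m, T) ∈ (⟨{q | q.1 < n ∧ F q.1 = q.2}, hS⟩ : St N (ℕ × St N (X × X))) ↔
            T = F m) := by
        intro m T hmn
        constructor
        · rintro ⟨-, h⟩
          exact h.symm
        · rintro rfl
          exact ⟨hmn, rfl⟩
      have h8 : n % 8 < 8 := Nat.mod_lt _ (by norm_num)
      have hc : n % 8 = 0 ∨ n % 8 = 1 ∨ n % 8 = 2 ∨ n % 8 = 3 ∨ n % 8 = 4 ∨ n % 8 = 5 ∨
          n % 8 = 6 ∨ n % 8 = 7 := by omega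
      rcases hc with hc | hc | hc | hc | hc | hc | hc | hc
      · rw [e0 n _ hc]
        simp [hc]
      · rw [e1 n _ hc]
        simp [hc]
      · rw [e2 n _ hc]
        simp [hc]
      · rw [e3 n _ hc]
        simp [hc]
      · rw [e4 n _ hc]
        simp [hc]
      · rw [e5 n _ hc]
        simp [hc]
      · have l1 : (Nat.unpair (n / 8)).1 < n := ib_lt1 (by omega)
        have l2 : (Nat.unpair (n / 8)).2 < n := ib_lt2 (by omega)
        rw [e6 n _ hc]
        simp only [hc, hm _ _ l1, hm _ _ l2]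
        constructor
        · intro h
          rcases h with h | h | h | h | h | h | h | h
          · exact absurd h.1 (by norm_num)
          · exact absurd h.1 (by norm_num)
          · exact absurd h.1 (by norm_num)
          · exact absurd h.1 (by norm_num)
          · exact absurd h.1 (by norm_num)
          · exact absurd h.1 (by norm_num)
          · obtain ⟨-, T, T', z, rfl, rfl, hz1, hz2⟩ := h
            have k1 : Bf (Nat.unpair (n / 8)).2 p.1 = z := (ih _ l2 (p.1, z)).1 hz1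
            have k2 : Bf (Nat.unpair (n / 8)).1 z = p.2 := (ih _ l1 (z, p.2)).1 hz2
            rw [k1, k2]
          · exact absurd h.1 (by norm_num)
        · intro h
          refine Or.inr (Or.inr (Or.inr (Or.inr (Or.inr (Or.inr (Or.inl ⟨trivial, F _, F _,
            Bf (Nat.unpair (n / 8)).2 p.1, rfl, rfl, ?_, ?_⟩))))))
          · exact (ih _ l2 (p.1, _)).2 rfl
          · exact (ih _ l1 (_, p.2)).2 h
      · have l1 : (Nat.unpair (n / 8)).1 < n := ib_lt1 (by omega)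
        have l2 : (Nat.unpair (n / 8)).2 < n := ib_lt2 (by omega)
        rw [e7 n _ hc]
        simp only [hc, hm _ _ l1, hm _ _ l2]
        constructor
        · intro h
          rcases h with h | h | h | h | h | h | h | h
          · exact absurd h.1 (by norm_num)
          · exact absurd h.1 (by norm_num)
          · exact absurd h.1 (by norm_num)
          · exact absurd h.1 (by norm_num)
          · exact absurd h.1 (by norm_num)
          · exact absurd h.1 (by norm_num)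
          · exact absurd h.1 (by norm_num)
          · obtain ⟨-, T, T', z, z', rfl, rfl, hz1, hz2, hz3⟩ := h
            have k1 : Bf (Nat.unpair (n / 8)).1 p.1 = z := (ih _ l1 (p.1, z)).1 hz1
            have k2 : Bf (Nat.unpair (n / 8)).2 p.1 = z' := (ih _ l2 (p.1, z')).1 hz2
            rw [k1, k2, hz3]
        · intro h
          refine Or.inr (Or.inr (Or.inr (Or.inr (Or.inr (Or.inr (Or.inr ⟨trivial, F _, F _,
            Bf (Nat.unpair (n / 8)).1 p.1, Bf (Nat.unpair (n / 8)).2 p.1, rfl, rfl,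
            ?_, ?_, h⟩))))))
          · exact (ih _ l1 (p.1, _)).2 rfl
          · exact (ih _ l2 (p.1, _)).2 rfl
  refine IF.ofP (Q := fun (p : ℕ × X) (y : X) => (p.2, y) ∈ F p.1) ?_ ?_
  · exact IP.mem (IF.pair (IF.snd.comp IF.fst) IF.snd) (hF.comp (IF.fst.comp IF.fst))
  · intro p y
    exact key p.1 (p.2, y)

end

variable {δ : Ordinal.{0}} [hG : GM δ] {Ω : Ordinal.{0}} [hΩ : Fact (Ω < δ)]

theorem if_B (h : Order.IsSuccLimit Ω) :
    IF (L δ) (fun p : ℕ × L Ω => (⟨B p.1 p.2.1, B_mem h p.1 p.2.2⟩ : L Ω)) := by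
  have m1 : ∀ x : L Ω, fs x.1 ∈ L Ω := by
    intro x
    obtain ⟨k, hk⟩ := exists_fs
    rw [← hk]
    exact B_mem h k x.2
  have m2 : ∀ x : L Ω, sn x.1 ∈ L Ω := by
    intro x
    obtain ⟨k, hk⟩ := exists_sn
    rw [← hk]
    exact B_mem h k x.2
  have m4 : ∀ x : L Ω, lv x.1 ∈ L Ω := by
    intro x
    obtain ⟨k, hk⟩ := exists_lv
    rw [← hk]
    exact B_mem h k x.2
  have m5 : ∀ p : ℕ × L Ω, sk (dF p.1) p.2.1 ∈ L Ω := by
    intro p
    obtain ⟨k, hk⟩ := exists_sk (dF p.1)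
    rw [← hk]
    exact B_mem h k p.2.2
  have m3 : ∀ α : Set.Iio Ω, α.1.toZFSet ∈ L Ω := fun α => (ord_mem_L h).2 α.2
  have i3 : IF (L δ) (fun x : L Ω => (⟨(st x.1).toZFSet, m3 ⟨st x.1, st_lt h x.2⟩⟩ : L Ω)) :=
    (if_ord m3).comp (if_st h)
  refine ib_rec (N := L δ) (X := L Ω) (if_fs m1) (if_sn m2) i3 (if_lv h m4)
    (f5 := fun n x => (⟨sk (dF n) x.1, m5 (n, x)⟩ : L Ω))
    (f7 := fun x y => (⟨ZFSet.pair x.1 y.1, pair_mem h x.2 y.2⟩ : L Ω))
    (if_sk h m5) (if_pairL h) (fun n x => (⟨B n x.1, B_mem h n x.2⟩ : L Ω))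
    ?_ ?_ ?_ ?_ ?_ ?_ ?_ ?_
  · intro n x hn
    apply Subtype.ext
    change B n x.1 = x.1
    unfold B
    rw [dT, if_pos hn]
    rfl
  · intro n x hn
    apply Subtype.ext
    change B n x.1 = fs x.1
    unfold B
    rw [dT, if_neg (by omega), if_pos hn]
    rfl
  · intro n x hn
    apply Subtype.ext
    change B n x.1 = sn x.1
    unfold B
    rw [dT, if_neg (by omega), if_neg (by omega), if_pos hn]
    rfl
  · intro n x hn
    apply Subtype.ext
    change B n x.1 = (st x.1).toZFSet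
    unfold B
    rw [dT, if_neg (by omega), if_neg (by omega), if_neg (by omega), if_pos hn]
    rfl
  · intro n x hn
    apply Subtype.ext
    change B n x.1 = lv x.1
    unfold B
    rw [dT, if_neg (by omega), if_neg (by omega), if_neg (by omega), if_neg (by omega), if_pos hn]
    rfl
  · intro n x hn
    apply Subtype.ext
    change B n x.1 = sk (dF (n / 8)) x.1
    unfold B
    rw [dT, if_neg (by omega), if_neg (by omega), if_neg (by omega), if_neg (by omega),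
      if_neg (by omega), if_pos hn]
    rfl
  · intro n x hn
    apply Subtype.ext
    change B n x.1 = B (Nat.unpair (n / 8)).1 (B (Nat.unpair (n / 8)).2 x.1)
    unfold B
    rw [dT, if_neg (by omega), if_neg (by omega), if_neg (by omega), if_neg (by omega),
      if_neg (by omega), if_neg (by omega), dif_pos hn]
    rfl
  · intro n x hn
    apply Subtype.ext
    change B n x.1 = ZFSet.pair (B (Nat.unpair (n / 8)).1 x.1) (B (Nat.unpair (n / 8)).2 x.1)
    unfold B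
    rw [dT, if_neg (by omega), if_neg (by omega), if_neg (by omega), if_neg (by omega),
      if_neg (by omega), if_neg (by omega), dif_neg (by omega), dif_pos hn]
    rfl

end LBB
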