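import Pool.Agent.LBB.Hb
import Pool.Agent.LBB.IB

/-! # Hulls

(problem MP_328cd5_lc, black box L; architect helper69)

`tl l`: the tuple `(a0, (a1, … (ak, ∅)))` of a list. `hul s`: the hull of the family `s`: all values `B n (tl l)`, `l` a list of members of the family.

PROOFS.
* `exists_tl1`, `exists_tl2`: for lists `l`, `l'` the tuples `tl l`, `tl l'` are obtained from `tl (l ++ l')` by functions of the family which depend only on the lengths: `tl l'` by `l.length` times `sn`; `tl l` = `pair (fs x) (pair (fs (sn x)) …)`, closed by `∅` (= `sk .bot x`, `lea_none`); induction on the list (`exists_comp`, `exists_pair`, `exists_sn`, `exists_fs`, `exists_sk`, `exists_id`).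
* `cls_hul`: nonempty: `B 0 (tl [])`. Pairs: `pair (B m (tl l)) (B n (tl l')) = B k (tl (l ++ l'))`. `B`: `exists_comp`.
* `mem_hul`: `B n (tl [x]) = fs _ = x`. `hul_min`: `∅ ∈ X` (`Cls.emp`), so `tl l ∈ X` by induction.
* `gen`: `X = L τ`: show `L α ⊆ X` for all `α ≤ τ` by induction on `α`: `α = 0`: `Cls.emp`; limit: `U_lim`; `α + 1` (`α < τ`): every `x ∈ L (α + 1)` is defined by a key with parameters in `L α ⊆ X`: `IsHb.set` (`Cls.isHb`, `α ∈ od X`).
* `if_tl`: `IF.listRec` (`WCal/FinC.lean`) with `if_pairL`. `if_hul`: composition with `if_B`. `exists_hul`: `IP.ex` over `ℕ × List ι`.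
* `exists_sur`: the hull of the family of all ordinals below `Ω` is `L Ω` (`gen`). -/

universe v

namespace LBB

open STP LGr WCal WM

/-- the tuple of a list -/
noncomputable def tl : List ZFSet.{0} → ZFSet.{0}
  | [] => ∅
  | a :: l => ZFSet.pair a (tl l)

/-- the hull of a family -/
def hul {ι : Type v} (s : ι → ZFSet.{0}) : Set ZFSet.{0} := {x | ∃ (n : ℕ) (l : List ι), B n (tl (l.map s)) = x}

theorem exists_tl1 (k : ℕ) : ∃ n, ∀ l l' : List ZFSet.{0}, l.length = k → B n (tl (l ++ l')) = tl l := by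
  induction k with
  | zero =>
    obtain ⟨n, hn⟩ := exists_sk .bot
    refine ⟨n, fun l l' hl => ?_⟩
    obtain rfl := List.length_eq_zero_iff.1 hl
    rw [hn]
    exact lea_none fun y hy => hy.2
  | succ k ih =>
    obtain ⟨n, hn⟩ := ih
    obtain ⟨m1, h1⟩ := exists_fs
    obtain ⟨m2, h2⟩ := exists_sn
    obtain ⟨m3, h3⟩ := exists_comp n m2
    obtain ⟨m4, h4⟩ := exists_pair m1 m3
    refine ⟨m4, fun l l' hl => ?_⟩
    cases l with
    | nil => exact absurd hl (by simp)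
    | cons a l =>
      have hl' : l.length = k := by simpa using hl
      rw [List.cons_append]
      change B m4 (ZFSet.pair a (tl (l ++ l'))) = ZFSet.pair a (tl l)
      rw [h4, h1, h3, h2, fs_pair, sn_pair, hn l l' hl']

theorem exists_tl2 (k : ℕ) : ∃ n, ∀ l l' : List ZFSet.{0}, l.length = k → B n (tl (l ++ l')) = tl l' := by
  induction k with
  | zero =>
    obtain ⟨n, hn⟩ := exists_id
    refine ⟨n, fun l l' hl => ?_⟩
    obtain rfl := List.length_eq_zero_iff.1 hl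
    rw [hn]
    rfl
  | succ k ih =>
    obtain ⟨n, hn⟩ := ih
    obtain ⟨m2, h2⟩ := exists_sn
    obtain ⟨m3, h3⟩ := exists_comp n m2
    refine ⟨m3, fun l l' hl => ?_⟩
    cases l with
    | nil => exact absurd hl (by simp)
    | cons a l =>
      have hl' : l.length = k := by simpa using hl
      rw [List.cons_append]
      change B m3 (ZFSet.pair a (tl (l ++ l'))) = tl l'
      rw [h3, h2, sn_pair, hn l l' hl']

private theorem tl_cls {X : Set ZFSet.{0}} (h : Cls X) {l : List ZFSet.{0}} (hl : ∀ x ∈ l, x ∈ X) :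
    tl l ∈ X := by
  induction l with
  | nil => exact h.emp
  | cons a l ih =>
    exact h.pr a (hl a List.mem_cons_self) _ (ih fun x hx => hl x (List.mem_cons_of_mem _ hx))

theorem tl_mem {τ : Ordinal.{0}} (hτ : Order.IsSuccLimit τ) {l : List ZFSet.{0}} (h : ∀ x ∈ l, x ∈ L τ) : tl l ∈ L τ := by
  exact tl_cls (cls_L hτ) h

section

variable {ι : Type v} (s : ι → ZFSet.{0})

theorem cls_hul : Cls (hul s) := by
  refine ⟨⟨_, 0, [], rfl⟩, ?_, ?_⟩
  · rintro _ ⟨m, l, rfl⟩ _ ⟨n, l', rfl⟩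
    obtain ⟨n1, h1⟩ := exists_tl1 l.length
    obtain ⟨n2, h2⟩ := exists_tl2 l.length
    obtain ⟨m1, h3⟩ := exists_comp m n1
    obtain ⟨m2, h4⟩ := exists_comp n n2
    obtain ⟨k, h5⟩ := exists_pair m1 m2
    refine ⟨k, l ++ l', ?_⟩
    rw [List.map_append, h5, h3, h4, h1 _ _ (List.length_map _), h2 _ _ (List.length_map _)]
  · rintro n _ ⟨m, l, rfl⟩
    obtain ⟨k, h⟩ := exists_comp n m
    exact ⟨k, l, h _⟩

theorem mem_hul (i : ι) : s i ∈ hul s := by
  obtain ⟨n, hn⟩ := exists_fs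
  refine ⟨n, [i], ?_⟩
  rw [hn]
  exact fs_pair _ _

variable {s}

theorem hul_min {X : Set ZFSet.{0}} (h : Cls X) (hs : ∀ i, s i ∈ X) : hul s ⊆ X := by
  rintro _ ⟨n, l, rfl⟩
  refine h.B n _ (tl_cls h fun x hx => ?_)
  obtain ⟨i, -, rfl⟩ := List.mem_map.1 hx
  exact hs i

theorem hul_sub {τ : Ordinal.{0}} (hτ : Order.IsSuccLimit τ) (hs : ∀ i, s i ∈ L τ) : hul s ⊆ L τ :=
  hul_min (cls_L hτ) hs

end

/-- a closed subset of `L τ` which contains all ordinals below `τ` is `L τ` -/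
theorem gen {X : Set ZFSet.{0}} {τ : Ordinal.{0}} (h : Cls X) (hτ : Order.IsSuccLimit τ) (hs : X ⊆ L τ)
    (ho : ∀ α < τ, α.toZFSet ∈ X) : X = L τ := by
  have hb := h.isHb hτ hs
  have key : ∀ α : Ordinal.{0}, α ≤ τ → L α ⊆ X := by
    intro α
    induction α using WellFoundedLT.induction with
    | ind α ih =>
      intro hα x hx
      rcases (mem_U F0).1 hx with h1 | ⟨β, hβ, h1⟩
      · rw [h1]
        exact h.emp
      · obtain ⟨k, hk, hd⟩ := (DfU_iff F0).1 h1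
        have h2 : β < τ := hβ.trans_le hα
        have h3 := ih β hβ h2.le
        exact hb.set β (ho β h2) k ⟨⟨h3 hk.1, hk.1⟩, fun y hy => ⟨h3 (hk.2 y hy), hk.2 y hy⟩⟩ x hd
  exact Set.Subset.antisymm hs (key τ le_rfl)

variable {δ : Ordinal.{0}} [hG : GM δ] {Ω : Ordinal.{0}} [hΩ : Fact (Ω < δ)] {ι : Type v} [WTy (L δ) ι]

theorem if_tl (h : Order.IsSuccLimit Ω) (hm : ∀ l : List (L Ω), tl (l.map Subtype.val) ∈ L Ω) :
    IF (L δ) (fun l : List (L Ω) => (⟨tl (l.map Subtype.val), hm l⟩ : L Ω)) := by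
  have h1 := IF.listRec (N := L δ) (γ := List (L Ω)) (α := L Ω) (β := L Ω)
    (b := fun _ => (⟨∅, empty_mem_U F0 Ω⟩ : L Ω))
    (g := fun _ a _ y => (⟨ZFSet.pair a.1 y.1, pair_mem h a.2 y.2⟩ : L Ω)) (l := fun l => l)
    (IF.const _) (IF.comp (if_pairL h) (IF.pair (IF.fst.comp IF.snd)
      (IF.snd.comp (IF.snd.comp IF.snd)))) IF.id
  refine IF.congr (fun l => Subtype.ext ?_) h1
  change (List.rec (motive := fun _ => L Ω) (⟨∅, empty_mem_U F0 Ω⟩ : L Ω)
    (fun a _ y => (⟨ZFSet.pair a.1 y.1, pair_mem h a.2 y.2⟩ : L Ω)) l).1 = tl (l.map Subtype.val)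
  clear h1
  induction l with
  | nil => rfl
  | cons a l ih =>
    change ZFSet.pair a.1 _ = ZFSet.pair a.1 (tl (l.map Subtype.val))
    rw [ih]

theorem if_hul (h : Order.IsSuccLimit Ω) {s : ι → L Ω} (hs : IF (L δ) s)
    (hm : ∀ p : ℕ × List ι, B p.1 (tl (p.2.map fun i => (s i).1)) ∈ L Ω) :
    IF (L δ) (fun p : ℕ × List ι => (⟨B p.1 (tl (p.2.map fun i => (s i).1)), hm p⟩ : L Ω)) := by
  have hm' : ∀ l : List (L Ω), tl (l.map Subtype.val) ∈ L Ω := fun l => by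
    refine tl_mem h fun x hx => ?_
    obtain ⟨y, -, rfl⟩ := List.mem_map.1 hx
    exact y.2
  have h1 : IF (L δ) (fun p : ℕ × List ι => p.2.map (fun i => s i)) :=
    IF.map (f := fun _ i => s i) (l := fun p : ℕ × List ι => p.2) (hs.comp IF.snd) IF.snd
  have h2 : IF (L δ) (fun p : ℕ × List ι =>
      (⟨tl ((p.2.map (fun i => s i)).map Subtype.val), hm' _⟩ : L Ω)) := (if_tl h hm').comp h1
  have h3 := (if_B (δ := δ) h).comp (IF.pair (IF.fst (N := L δ) (α := ℕ) (β := List ι)) h2)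
  refine IF.congr (fun p => Subtype.ext ?_) h3
  change B p.1 (tl ((p.2.map (fun i => s i)).map Subtype.val)) = _
  rw [List.map_map]
  rfl

theorem exists_hul (h : Order.IsSuccLimit Ω) {s : ι → L Ω} (hs : IF (L δ) s) :
    ∃ H : St (L δ) (L Ω), vs H = hul (fun i => (s i).1) := by
  have hm : ∀ p : ℕ × List ι, B p.1 (tl (p.2.map fun i => (s i).1)) ∈ L Ω := fun p => by
    refine B_mem h _ (tl_mem h fun x hx => ?_)
    obtain ⟨y, -, rfl⟩ := List.mem_map.1 hx
    exact (s y).2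
  have h1 := if_hul h hs hm
  refine ⟨⟨{x | ∃ p : ℕ × List ι, (⟨B p.1 (tl (p.2.map fun i => (s i).1)), hm p⟩ : L Ω) = x},
    IP.ex (P := fun (x : L Ω) (p : ℕ × List ι) =>
      (⟨B p.1 (tl (p.2.map fun i => (s i).1)), hm p⟩ : L Ω) = x)
      (IP.eq (h1.comp IF.snd) IF.fst)⟩, ?_⟩
  ext x
  constructor
  · rintro ⟨a, ⟨p, rfl⟩, rfl⟩
    exact ⟨p.1, p.2, rfl⟩
  · rintro ⟨n, l, rfl⟩
    exact ⟨⟨_, hm (n, l)⟩, ⟨(n, l), rfl⟩, rfl⟩

/-- the size of `L Ω` -/
theorem exists_sur (h : Order.IsSuccLimit Ω) :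
    ∃ e : ℕ × List (Set.Iio Ω) → L Ω, IF (L δ) e ∧ Function.Surjective e := by
  have ho : ∀ x : Set.Iio Ω, x.1.toZFSet ∈ L Ω := fun x => (ord_mem_L h).2 x.2
  have hs : IF (L δ) (fun x : Set.Iio Ω => (⟨x.1.toZFSet, ho x⟩ : L Ω)) := if_ord ho
  have hm : ∀ p : ℕ × List (Set.Iio Ω), B p.1 (tl (p.2.map fun i =>
      ((fun x : Set.Iio Ω => (⟨x.1.toZFSet, ho x⟩ : L Ω)) i).1)) ∈ L Ω := fun p => by
    refine B_mem h _ (tl_mem h fun x hx => ?_)
    obtain ⟨y, -, rfl⟩ := List.mem_map.1 hx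
    exact ho y
  refine ⟨_, if_hul h hs hm, fun y => ?_⟩
  have h1 : hul (fun x : Set.Iio Ω => x.1.toZFSet) = L Ω :=
    gen (cls_hul _) h (hul_sub h ho) fun α hα => mem_hul (fun x : Set.Iio Ω => x.1.toZFSet) ⟨α, hα⟩
  have h2 : y.1 ∈ hul (fun x : Set.Iio Ω => x.1.toZFSet) := h1.symm.subset y.2
  obtain ⟨n, l, hl⟩ := h2
  exact ⟨(n, l), Subtype.ext hl⟩

end LBB
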