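import Pool.Agent.LBB.ISat
import Pool.Agent.LBB.CndC

/-! # Collapses of internal sets are internal

(problem MP_328cd5_lc, black box L; architect helper69; internal, model `L δ`)

PROOF of `if_cnd`. `exists_mos` (`WCal/Rec.lean`) for the type `Sb S` and `r x y := x.v.1 ∈ y.v.1`
(internal: `ip_memL` composed with `IF.val`; minimal elements of internal sets: `ZFSet.mem_wf`)
gives `c : Sb S → L δ` with `E z (c a) ↔ ∃ b, r b a ∧ z = c b` and a set `g` of the model with the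
elements `op (cd a) (c a)`. By `∈`-induction on `a.v.1`: `(c a).1 = π a.v.1` (`Cnd.mos`,
`ZFSet.ext`, transitivity of `L δ`). So the graph `{(a, y) | π a.v.1 = y.1}` is internal with the
set `g`: `E (cd (a, y)) g ↔ ∃ b, op (cd a) (cd y) = op (cd b) (c b) ↔ cd y = c a` (`op_inj`,
`cd_inj`). -/

namespace LBB

open STP LGr WCal WM

variable {δ : Ordinal.{0}} [hG : GM δ] {Ω : Ordinal.{0}} [hΩ : Fact (Ω < δ)]

theorem vs_sub (S : St (L δ) (L Ω)) : vs S ⊆ L Ω := by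
  rintro x ⟨a, -, rfl⟩
  exact a.2

theorem mem_vs {S : St (L δ) (L Ω)} {a : L Ω} : a.1 ∈ vs S ↔ a ∈ S := by
  constructor
  · rintro ⟨b, hb, h⟩
    rwa [← Subtype.ext h]
  · intro h
    exact ⟨a, h, rfl⟩

theorem if_cnd {S : St (L δ) (L Ω)} {τ : Ordinal.{0}} {π : ZFSet.{0} → ZFSet.{0}}
    (hc : Cnd (vs S) τ π) (hm : ∀ x : Sb S, π x.v.1 ∈ L Ω) :
    IF (L δ) (fun x : Sb S => (⟨π x.v.1, hm x⟩ : L Ω)) := by
  have hr : IP (L δ) (fun p : Sb S × Sb S => p.1.v.1 ∈ p.2.v.1) :=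
    IP.comp2 (P := fun x y : L Ω => x.1 ∈ y.1) ip_memL (IF.val.comp IF.fst)
      (IF.val.comp IF.snd)
  have hwf : WellFounded (InvImage (fun x y : ZFSet.{0} => x ∈ y) fun a : Sb S => a.v.1) :=
    InvImage.wf _ ZFSet.mem_wf
  obtain ⟨c, hcE, g, hg⟩ := exists_mos (r := fun x y : Sb S => x.v.1 ∈ y.v.1) hr fun T hT => by
    obtain ⟨a, ha, hmin⟩ := hwf.has_min {a | a ∈ T} hT
    exact ⟨a, ha, fun b hb => hmin b hb⟩
  have key : ∀ a : Sb S, (c a).1 = π a.v.1 := by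
    intro a
    induction a using hwf.induction with
    | _ a ih =>
      refine ZFSet.ext fun z => ?_
      rw [hc.mos a.v.1 (mem_vs.2 a.h)]
      constructor
      · intro hz
        have h1 : E (⟨z, U_trans F0 (c a).2 hz⟩ : L δ) (c a) := hz
        obtain ⟨b, hb, hzb⟩ := (hcE a _).1 h1
        have h2 : z = (c b).1 := congrArg Subtype.val hzb
        exact ⟨b.v.1, mem_vs.2 b.h, hb, by rw [h2, ih b hb]⟩
      · rintro ⟨y, ⟨a', ha', rfl⟩, hya, rfl⟩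
        have h1 := ih ⟨a', ha'⟩ hya
        have h2 : E (c ⟨a', ha'⟩) (c a) := (hcE a _).2 ⟨⟨a', ha'⟩, hya, rfl⟩
        have h3 : (c ⟨a', ha'⟩).1 ∈ (c a).1 := h2
        rw [h1] at h3
        exact h3
  refine ⟨g, fun p => ?_⟩
  obtain ⟨a, y⟩ := p
  rw [hg]
  constructor
  · intro h
    have h1 : π a.v.1 = y.1 := congrArg Subtype.val h
    refine ⟨a, ?_⟩
    have h2 : cd (L δ) y = c a := Subtype.ext (by rw [cd_L, key a, h1])
    have h3 : cd (L δ) ((a, y) : Sb S × L Ω) = op (cd (L δ) a) (cd (L δ) y) := rfl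
    rw [h3, h2]
  · rintro ⟨b, hb⟩
    have h3 : cd (L δ) ((a, y) : Sb S × L Ω) = op (cd (L δ) a) (cd (L δ) y) := rfl
    rw [h3] at hb
    obtain ⟨h4, h5⟩ := op_inj.1 hb
    have h6 : a = b := cd_inj.1 h4
    subst h6
    refine Subtype.ext ?_
    have h7 := congrArg Subtype.val h5
    rw [cd_L, key a] at h7
    exact h7.symm

/-- internal condensation -/
theorem icond (hl : Order.IsSuccLimit Ω) {S : St (L δ) (L Ω)} (h : Cls (vs S)) :
    ∃ τ ≤ Ω, ∃ π : ZFSet.{0} → ZFSet.{0}, Cnd (vs S) τ π ∧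
      ∃ hm : ∀ x : Sb S, π x.v.1 ∈ L Ω, IF (L δ) (fun x : Sb S => (⟨π x.v.1, hm x⟩ : L Ω)) := by
  obtain ⟨τ, hτ, π, hc⟩ := condensation h hl (vs_sub S)
  have hm : ∀ x : Sb S, π x.v.1 ∈ L Ω := fun x => U_mono F0 hτ (hc.maps _ (mem_vs.2 x.h))
  exact ⟨τ, hτ, π, hc, hm, if_cnd hc hm⟩

end LBB
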