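import Pool.Agent.LBB.ISat

/-! # The levels are internal

(problem MP_328cd5_lc, black box L; architect helper69; internal, model `L δ`)

PROOFS.
* `DfU_list`: `DfU_iff`, `Df`. From a key `⟨φ, a, l⟩`: `n = enc φ` (`dF_enc`), the list `(List.range (bd φ)).map k.env` (`lsat_bd`: satisfaction depends only on the variables below `bd φ`, see `LGr/Trn.lean`). Conversely from `n`, `l` the key with the parameters `(List.range (bd (dF n) + 1)).map (fun i => l.getD i ∅)`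
  (all in `L β`: `empty_mem_U`).
* `ip_lev`: first for `Ω' = max a Ω` in place of `Ω` (`Fact (Ω' < δ)`), then `IP.comp` with the inclusion (`if_incl`). For `Ω'`: `wfRec` (`WCal/Rec.lean`) for `<` on `Set.Iio a` (`ip_ltO`), values in `St M (L Ω')`: `F α = {x : L Ω' | x ∈ L α}`. `G α S = {x | x = ∅ ∨ ∃ β T, (β, T) ∈ S ∧ β < α ∧ ∃ n l, (∀ y ∈ l, y ∈ T) ∧ ∀ z, z ∈ x ↔ z ∈ T ∧
  sl (· ∈ vs T) n (z :: l)}` with `l : List (L Ω')`; `mem_U`, `DfU_list`, `U_mono`; in the induction `vs (F β) = L β` since `L β ⊆ L Ω'` (`β < a ≤ Ω'`). Since elements of `L β` are in `L Ω'` the quantifier over native lists of elements of `L β` becomes one over `List (L Ω')` (lift of a list: `List.attach` or induction).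
* `if_st`: `IF.ofP`, `Q x α := x ∈ L α ∧ ∀ β < α, x ∉ L β`. `if_lz`: graph `∀ z : L Ω, z ∈ y ↔ z ∈ L α`. `if_lv`: graph `(∃ α : Set.Iio Ω, cd α = cd x ∧ lz α = y) ∨ ((¬ ∃ α : Set.Iio Ω, cd α = cd x) ∧ y = ∅)` (`ip_cdeq`, `lv_ord`, `ord_mem_L`). -/

namespace LBB

open STP LGr WCal WM

private theorem env_mem' {D : ZFSet.{0} → Prop} {k : Key ZFSet.{0}} (hk : k.ok D) (i : ℕ) : D (k.env i) := by
  unfold Key.env
  rw [List.getD_eq_getElem?_getD]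
  rcases h : (k.a :: k.l)[i]? with _ | y
  · exact hk.1
  · have h1 : y ∈ k.a :: k.l := List.mem_of_getElem? h
    rcases List.mem_cons.1 h1 with h2 | h2
    · rw [h2]
      exact hk.1
    · exact hk.2 y h2

private theorem getD_map {f : ℕ → ZFSet.{0}} {m j : ℕ} (hj : j < m) (d : ZFSet.{0}) :
    ((List.range m).map f).getD j d = f j := by
  rw [List.getD_eq_getElem?_getD, List.getElem?_map, List.getElem?_range hj]
  rfl

theorem DfU_list {β : Ordinal.{0}} {x : ZFSet.{0}} : DfU F0 β x ↔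
    ∃ (n : ℕ) (l : List ZFSet.{0}), (∀ y ∈ l, y ∈ L β) ∧ ∀ z, z ∈ x ↔ z ∈ L β ∧ sl (· ∈ L β) n (z :: l) := by
  rw [DfU_iff]
  constructor
  · rintro ⟨k, hk, hx⟩
    refine ⟨enc k.φ, (List.range (bd k.φ)).map k.env, ?_, fun z => ?_⟩
    · intro y hy
      obtain ⟨i, -, rfl⟩ := List.mem_map.1 hy
      exact env_mem' hk i
    · refine (hx z).trans (and_congr_right fun _ => ?_)
      unfold sl
      rw [dF_enc]
      refine lsat_bd k.φ fun i hi => ?_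
      cases i with
      | zero => rfl
      | succ j => exact (getD_map (f := k.env) (by omega) ∅).symm
  · rintro ⟨n, l, hl, hx⟩
    have hD : ∀ i, l.getD i ∅ ∈ L β := by
      intro i
      rw [List.getD_eq_getElem?_getD]
      rcases h : l[i]? with _ | y
      · exact empty_mem_U F0 β
      · exact hl y (List.mem_of_getElem? h)
    refine ⟨⟨dF n, l.getD 0 ∅, (List.range (bd (dF n))).map fun i => l.getD (i + 1) ∅⟩, ⟨hD 0, ?_⟩,
      fun z => ?_⟩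
    · intro y hy
      obtain ⟨i, -, rfl⟩ := List.mem_map.1 hy
      exact hD _
    · refine (hx z).trans (and_congr_right fun _ => ?_)
      unfold sl
      refine lsat_bd (dF n) fun i hi => ?_
      cases i with
      | zero => rfl
      | succ j =>
        cases j with
        | zero => rfl
        | succ j => exact (getD_map (f := fun i => l.getD (i + 1) ∅) (by omega) _).symm

variable {δ : Ordinal.{0}} [hG : GM δ] {Ω a : Ordinal.{0}} [hΩ : Fact (Ω < δ)] [ha : Fact (a < δ)]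

/-- definability over an internal set -/
private def lvQ (T : St (L δ) (L Ω)) (x : L Ω) (c : ℕ × List (L Ω)) : Prop :=
  (∀ y : L Ω, y ∈ c.2 → y ∈ T) ∧
    ∀ z : L Ω, z.1 ∈ x.1 ↔ (z ∈ T ∧ sl (· ∈ vs T) c.1 ((z :: c.2).map Subtype.val))

private theorem ip_lvQ {γ : Type*} [WTy (L δ) γ] {T : γ → St (L δ) (L Ω)} {x : γ → L Ω}
    {c : γ → ℕ × List (L Ω)} (hT : IF (L δ) T) (hx : IF (L δ) x) (hc : IF (L δ) c) :
    IP (L δ) (fun g => lvQ (T g) (x g) (c g)) := by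
  refine IP.and (IP.all (P := fun (g : γ) (y : L Ω) => y ∈ (c g).2 → y ∈ T g) ?_)
    (IP.all (P := fun (g : γ) (z : L Ω) => z.1 ∈ (x g).1 ↔
      (z ∈ T g ∧ sl (· ∈ vs (T g)) (c g).1 ((z :: (c g).2).map Subtype.val))) ?_)
  · exact IP.imp (IP.memList IF.snd (IF.snd' (hc.comp IF.fst))) (IP.mem IF.snd (hT.comp IF.fst))
  · refine IP.iff (IP.comp2 (P := fun (z x : L Ω) => z.1 ∈ x.1) ip_memL IF.snd (hx.comp IF.fst))
      (IP.and (IP.mem IF.snd (hT.comp IF.fst)) ?_)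
    exact IP.comp3 (h := fun (S : St (L δ) (L Ω)) (n : ℕ) (l : List (L Ω)) =>
      sl (· ∈ vs S) n (l.map Subtype.val)) ip_sl (hT.comp IF.fst) (IF.fst' (hc.comp IF.fst))
      (IF.cons IF.snd (IF.snd' (hc.comp IF.fst)))

/-- one step of the recursion -/
private def lvP (p : Set.Iio a × St (L δ) (Set.Iio a × St (L δ) (L Ω))) (x : L Ω) : Prop :=
  x = ⟨∅, empty_mem_U F0 Ω⟩ ∨ ∃ q : Set.Iio a × St (L δ) (L Ω), q ∈ p.2 ∧
    ∃ c : ℕ × List (L Ω), lvQ q.2 x c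

private theorem ip_lvP :
    IP (L δ) (fun r : (Set.Iio a × St (L δ) (Set.Iio a × St (L δ) (L Ω))) × L Ω => lvP r.1 r.2) := by
  refine IP.or (IP.eq IF.snd (IF.const _)) (IP.ex (P := fun (r : (Set.Iio a ×
    St (L δ) (Set.Iio a × St (L δ) (L Ω))) × L Ω) (q : Set.Iio a × St (L δ) (L Ω)) =>
      q ∈ r.1.2 ∧ ∃ c : ℕ × List (L Ω), lvQ q.2 r.2 c) ?_)
  refine IP.and (IP.mem IF.snd (IF.snd' (IF.fst' IF.fst))) (IP.ex (P := fun (s : ((Set.Iio a ×
    St (L δ) (Set.Iio a × St (L δ) (L Ω))) × L Ω) × (Set.Iio a × St (L δ) (L Ω)))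
      (c : ℕ × List (L Ω)) => lvQ s.2.2 s.1.2 c) ?_)
  exact ip_lvQ (IF.snd' (IF.snd' IF.fst)) (IF.snd' (IF.fst' IF.fst)) IF.snd

private theorem exists_lift (l : List ZFSet.{0}) (h : ∀ y ∈ l, y ∈ L Ω) :
    ∃ l' : List (L Ω), l'.map Subtype.val = l := by
  induction l with
  | nil => exact ⟨[], rfl⟩
  | cons y l ih =>
    obtain ⟨l', hl'⟩ := ih fun z hz => h z (List.mem_cons_of_mem _ hz)
    exact ⟨⟨y, h y List.mem_cons_self⟩ :: l', by rw [List.map_cons, hl']⟩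

private theorem lvQ_iff {T : St (L δ) (L Ω)} {β : Ordinal.{0}} (hβ : β ≤ Ω)
    (hT : ∀ y : L Ω, y ∈ T ↔ y.1 ∈ L β) (x : L Ω) :
    (∃ c : ℕ × List (L Ω), lvQ T x c) ↔ DfU F0 β x.1 := by
  have hvs : (fun z => z ∈ vs T) = fun z => z ∈ L β := by
    funext z
    refine propext ⟨?_, fun hz => ⟨⟨z, U_mono F0 hβ hz⟩, (hT _).2 hz, rfl⟩⟩
    rintro ⟨y, hy, rfl⟩
    exact (hT y).1 hy
  rw [DfU_list]
  constructor
  · rintro ⟨⟨n, l⟩, hl, hx⟩
    refine ⟨n, l.map Subtype.val, ?_, fun z => ?_⟩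
    · intro y hy
      obtain ⟨y', hy', rfl⟩ := List.mem_map.1 hy
      exact (hT y').1 (hl y' hy')
    · rw [← hvs]
      constructor
      · intro hz
        have h1 := (hx ⟨z, U_trans F0 x.2 hz⟩).1 hz
        exact ⟨(hT _).1 h1.1, h1.2⟩
      · rintro ⟨h1, h2⟩
        exact (hx ⟨z, U_mono F0 hβ h1⟩).2 ⟨(hT _).2 h1, h2⟩
  · rintro ⟨n, l, hl, hx⟩
    obtain ⟨l', rfl⟩ := exists_lift (Ω := Ω) l fun y hy => U_mono F0 hβ (hl y hy)
    refine ⟨⟨n, l'⟩, ?_, fun z => ?_⟩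
    · intro y hy
      exact (hT y).2 (hl y.1 (List.mem_map.2 ⟨y, hy, rfl⟩))
    · rw [hvs]
      refine (hx z.1).trans (and_congr (hT z).symm Iff.rfl)

private theorem ip_lev' (haΩ : a ≤ Ω) : IP (L δ) (fun p : Set.Iio a × L Ω => p.2.1 ∈ L p.1.1) := by
  obtain ⟨F, hF, hrec⟩ := wfRec (N := L δ) (α := Set.Iio a) (β := St (L δ) (L Ω))
    (r := fun x y => x.1 < y.1) (InvImage.wf Subtype.val wellFounded_lt) ip_ltO
    (G := fun α S => ⟨{x | lvP (α, S) x}, ip_lvP.sec (α, S)⟩)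
    (IF.compr (P := fun (p : Set.Iio a × St (L δ) (Set.Iio a × St (L δ) (L Ω))) (x : L Ω) => lvP p x)
      ip_lvP)
  have key : ∀ α : Ordinal.{0}, ∀ h : α < a, ∀ x : L Ω, x ∈ F ⟨α, h⟩ ↔ x.1 ∈ L α := by
    intro α
    induction α using WellFoundedLT.induction with
    | ind α ih =>
      intro h x
      have hS : IP (L δ) (fun q : Set.Iio a × St (L δ) (L Ω) => q.1.1 < α ∧ F q.1 = q.2) :=
        IP.and (IP.comp2 (P := fun (x y : Set.Iio a) => x.1 < y.1) ip_ltO IF.fst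
          (IF.const ⟨α, h⟩)) (IP.eq (hF.comp IF.fst) IF.snd)
      have h1 := hrec ⟨α, h⟩ ⟨{q | q.1.1 < α ∧ F q.1 = q.2}, hS⟩ fun q => Iff.rfl
      rw [h1, mem_U]
      refine or_congr ⟨fun h2 => congrArg Subtype.val h2, fun h2 => Subtype.ext h2⟩ ?_
      constructor
      · rintro ⟨q, ⟨hq1, hq2⟩, hc⟩
        refine ⟨q.1.1, hq1, (lvQ_iff ((le_of_lt q.1.2).trans haΩ) (fun y => ?_) x).1 hc⟩
        rw [← hq2]
        exact ih q.1.1 hq1 q.1.2 y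
      · rintro ⟨β, hβ, hD⟩
        refine ⟨(⟨β, hβ.trans h⟩, F ⟨β, hβ.trans h⟩), ⟨hβ, rfl⟩, ?_⟩
        exact (lvQ_iff ((hβ.trans h).le.trans haΩ) (ih β hβ (hβ.trans h)) x).2 hD
  exact IP.congr (fun p => key p.1.1 p.1.2 p.2) (IP.mem IF.snd (hF.comp IF.fst))

theorem ip_lev : IP (L δ) (fun p : Set.Iio a × L Ω => p.2.1 ∈ L p.1.1) := by
  have hf : Fact (max a Ω < δ) := ⟨max_lt ha.out hΩ.out⟩
  have h1 : IP (L δ) (fun p : Set.Iio a × L (max a Ω) => p.2.1 ∈ L p.1.1) := ip_lev' (le_max_left _ _)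
  exact IP.comp2 (P := fun (α : Set.Iio a) (x : L (max a Ω)) => x.1 ∈ L α.1) h1 IF.fst
    ((if_incl (δ := δ) (Ω := Ω) (Ω' := max a Ω) (le_max_right _ _)).comp IF.snd)

theorem if_st (h : Order.IsSuccLimit Ω) : IF (L δ) (fun x : L Ω => (⟨st x.1, st_lt h x.2⟩ : Set.Iio Ω)) := by
  refine IF.ofP (Q := fun (x : L Ω) (α : Set.Iio Ω) => x.1 ∈ L α.1 ∧
    ∀ β : Set.Iio Ω, β.1 < α.1 → ¬ x.1 ∈ L β.1) ?_ ?_
  · refine IP.and (IP.comp2 (P := fun (α : Set.Iio Ω) (x : L Ω) => x.1 ∈ L α.1) ip_lev IF.snd IF.fst)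
      (IP.all (P := fun (p : L Ω × Set.Iio Ω) (β : Set.Iio Ω) => β.1 < p.2.1 → ¬ p.1.1 ∈ L β.1) ?_)
    exact IP.imp (IP.comp2 (P := fun (x y : Set.Iio Ω) => x.1 < y.1) ip_ltO IF.snd (IF.snd' IF.fst))
      (IP.not (IP.comp2 (P := fun (α : Set.Iio Ω) (x : L Ω) => x.1 ∈ L α.1) ip_lev IF.snd
        (IF.fst' IF.fst)))
  · intro x α
    constructor
    · rintro ⟨h1, h2⟩
      refine Subtype.ext (le_antisymm (st_le h1) ?_)
      by_contra h3
      exact h2 ⟨st x.1, st_lt h x.2⟩ (not_le.1 h3) (st_mem h1)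
    · rintro rfl
      exact ⟨st_mem x.2, fun β hβ h1 => absurd (st_le h1) (not_le.2 hβ)⟩

theorem if_lz (h : ∀ x : Set.Iio a, lz x.1 ∈ L Ω) : IF (L δ) (fun x : Set.Iio a => (⟨lz x.1, h x⟩ : L Ω)) := by
  refine IF.ofP (Q := fun (x : Set.Iio a) (y : L Ω) => ∀ z : L Ω, z.1 ∈ y.1 ↔ z.1 ∈ L x.1) ?_ ?_
  · refine IP.all (P := fun (p : Set.Iio a × L Ω) (z : L Ω) => z.1 ∈ p.2.1 ↔ z.1 ∈ L p.1.1) ?_
    exact IP.iff (IP.comp2 (P := fun (z x : L Ω) => z.1 ∈ x.1) ip_memL IF.snd (IF.snd' IF.fst))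
      (IP.comp2 (P := fun (α : Set.Iio a) (x : L Ω) => x.1 ∈ L α.1) ip_lev (IF.fst' IF.fst) IF.snd)
  · intro x y
    constructor
    · intro h1
      refine Subtype.ext (ZFSet.ext fun z => ?_)
      show z ∈ lz x.1 ↔ z ∈ y.1
      rw [mem_lz]
      constructor
      · intro hz
        exact (h1 ⟨z, U_trans F0 (h x) (mem_lz.2 hz)⟩).2 hz
      · intro hz
        exact (h1 ⟨z, U_trans F0 y.2 hz⟩).1 hz
    · rintro rfl z
      exact mem_lz

theorem if_lv (h : Order.IsSuccLimit Ω) (hm : ∀ x : L Ω, lv x.1 ∈ L Ω) :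
    IF (L δ) (fun x : L Ω => (⟨lv x.1, hm x⟩ : L Ω)) := by
  have hz : ∀ α : Set.Iio Ω, lz α.1 ∈ L Ω := by
    intro α
    refine U_mono F0 ?_ (uz_mem F0 α.1)
    rw [← Order.succ_eq_add_one]
    exact (h.succ_lt α.2).le
  have hcd : ∀ (α : Set.Iio Ω) (x : L Ω), cd (L δ) α = cd (L δ) x ↔ α.1.toZFSet = x.1 := fun α x =>
    ⟨fun h1 => congrArg Subtype.val h1, fun h1 => Subtype.ext h1⟩
  refine IF.ofP (Q := fun (x y : L Ω) =>
    (∃ α : Set.Iio Ω, cd (L δ) α = cd (L δ) x ∧ (⟨lz α.1, hz α⟩ : L Ω) = y) ∨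
      ((¬ ∃ α : Set.Iio Ω, cd (L δ) α = cd (L δ) x) ∧ (⟨∅, empty_mem_U F0 Ω⟩ : L Ω) = y)) ?_ ?_
  · refine IP.or (IP.ex (P := fun (p : L Ω × L Ω) (α : Set.Iio Ω) => cd (L δ) α = cd (L δ) p.1 ∧
      (⟨lz α.1, hz α⟩ : L Ω) = p.2) ?_) (IP.and (IP.not (IP.ex (P := fun (p : L Ω × L Ω)
        (α : Set.Iio Ω) => cd (L δ) α = cd (L δ) p.1) ?_)) (IP.eq (IF.const _) IF.snd))
    · exact IP.and (IP.cdeq IF.snd (IF.fst' IF.fst)) (IP.eq ((if_lz hz).comp IF.snd) (IF.snd' IF.fst))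
    · exact IP.cdeq IF.snd (IF.fst' IF.fst)
  · intro x y
    by_cases h1 : ∃ α : Set.Iio Ω, cd (L δ) α = cd (L δ) x
    · obtain ⟨α, hα⟩ := h1
      have h2 : (⟨lv x.1, hm x⟩ : L Ω) = ⟨lz α.1, hz α⟩ := by
        refine Subtype.ext ?_
        show lv x.1 = lz α.1
        rw [← (hcd α x).1 hα, lv_ord]
      constructor
      · rintro (⟨β, hβ, hy⟩ | ⟨h3, -⟩)
        · have h4 : α = β := Subtype.ext (Ordinal.toZFSet_injective
            (((hcd α x).1 hα).trans ((hcd β x).1 hβ).symm))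
          subst h4
          exact h2.trans hy
        · exact absurd ⟨α, hα⟩ h3
      · intro hy
        exact Or.inl ⟨α, hα, h2.symm.trans hy⟩
    · have h2 : (⟨lv x.1, hm x⟩ : L Ω) = ⟨∅, empty_mem_U F0 Ω⟩ := by
        refine Subtype.ext ?_
        show lv x.1 = ∅
        unfold lv
        rw [if_neg]
        rintro ⟨α, hα⟩
        have h3 : α < Ω := (ord_mem_L h).1 (hα ▸ x.2)
        exact h1 ⟨⟨α, h3⟩, (hcd _ _).2 hα.symm⟩
      constructor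
      · rintro (⟨β, hβ, -⟩ | ⟨-, hy⟩)
        · exact absurd ⟨β, hβ⟩ h1
        · exact h2.trans hy
      · intro hy
        exact Or.inr ⟨h1, h2.symm.trans hy⟩

end LBB
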