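import Pool.Agent.LBB.Typ

/-! # Satisfaction in subsets of levels is internal

(problem MP_328cd5_lc, black box L; architect helper69; internal, model `L δ`)

`vs S`: the elements of an internal set `S` of elements of `L Ω`. `sl D n l`: satisfaction of the formula number `n` in `(D, ∈, lL)`, the assignment is given by the list `l`, all further variables have the value `∅`.

PROOFS.
* `sl_mem … sl_all`: unfold `dF` (`dF.eq_def`), `lsat`; `cns x (fun i => l.getD i ∅) = fun i => (x :: l).getD i ∅`. `tp` is false since `F0` is false. (`sl_eq` is the disjunction, use what is convenient.)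
* `ip_sl`: `wfRec` (`WCal/Rec.lean`) for `<` on `ℕ` with values in `St M (St M (L Ω) × List (L Ω))` (`M = L δ`): `F n = {(D, l) | sl (· ∈ vs D) n (l.map Subtype.val)}` (`G n S` = the set of all `(D, l)` with: `n % 7 = 0` and `l[(n/7).1] ∈ l[(n/7).2]`, or …, or `n % 7 = 5` and
  `(∀ T, ((n/7).1, T) ∈ S → (D, l) ∈ T) → ∀ T, ((n/7).2, T) ∈ S → (D, l) ∈ T`, or `n % 7 = 6` and `∀ a ∈ D, ∀ T, (n/7, T) ∈ S → (D, a :: l) ∈ T`), strong induction on `n`. Element `i` of the list with default `∅`: `(l[i]?).getD ⟨∅, _⟩` (`IF.getElem?`, `IF.optElim`), `ip_memL`, `ip_lL`. For `IF G`: `IF.compr`. -/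

namespace LBB

open STP LGr WCal WM

/-- satisfaction in `D`, the assignment is a list -/
def sl (D : ZFSet.{0} → Prop) (n : ℕ) (l : List ZFSet.{0}) : Prop :=
  lsat F0 (· ∈ ·) lL D (dF n) (fun i => l.getD i ∅)

theorem sl_mem {D : ZFSet.{0} → Prop} {n : ℕ} {l : List ZFSet.{0}} (h : n % 7 = 0) :
    sl D n l ↔ l.getD (Nat.unpair (n / 7)).1 ∅ ∈ l.getD (Nat.unpair (n / 7)).2 ∅ := by
  unfold sl
  rw [dF, if_pos h]
  rfl

theorem sl_eq {D : ZFSet.{0} → Prop} {n : ℕ} {l : List ZFSet.{0}} (h : n % 7 = 1) :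
    sl D n l ↔ l.getD (Nat.unpair (n / 7)).1 ∅ = l.getD (Nat.unpair (n / 7)).2 ∅ := by
  unfold sl
  rw [dF, if_neg (by omega), if_pos h]
  rfl

theorem sl_lt {D : ZFSet.{0} → Prop} {n : ℕ} {l : List ZFSet.{0}} (h : n % 7 = 2) :
    sl D n l ↔ lL (l.getD (Nat.unpair (n / 7)).1 ∅) (l.getD (Nat.unpair (n / 7)).2 ∅) := by
  unfold sl
  rw [dF, if_neg (by omega), if_neg (by omega), if_pos h]
  rfl

theorem sl_no {D : ZFSet.{0} → Prop} {n : ℕ} {l : List ZFSet.{0}} (h : n % 7 = 3 ∨ n % 7 = 4) : ¬ sl D n l := by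
  unfold sl
  rcases h with h | h
  · rw [dF, if_neg (by omega), if_neg (by omega), if_neg (by omega), if_pos h]
    rintro ⟨a, b, c, -, -, -, h1⟩
    exact h1
  · rw [dF, if_neg (by omega), if_neg (by omega), if_neg (by omega), if_neg (by omega), if_pos h]
    exact fun h1 => h1

theorem sl_imp {D : ZFSet.{0} → Prop} {n : ℕ} {l : List ZFSet.{0}} (h : n % 7 = 5) :
    sl D n l ↔ (sl D (Nat.unpair (n / 7)).1 l → sl D (Nat.unpair (n / 7)).2 l) := by
  unfold sl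
  rw [dF, if_neg (by omega), if_neg (by omega), if_neg (by omega), if_neg (by omega),
    if_neg (by omega), dif_pos h]
  rfl

private theorem is_cns (x : ZFSet.{0}) (l : List ZFSet.{0}) :
    cns x (fun i => l.getD i ∅) = fun i => (x :: l).getD i ∅ := by
  funext i
  cases i with
  | zero => rfl
  | succ i => rfl

theorem sl_all {D : ZFSet.{0} → Prop} {n : ℕ} {l : List ZFSet.{0}} (h : n % 7 = 6) :
    sl D n l ↔ ∀ x, D x → sl D (n / 7) (x :: l) := by
  unfold sl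
  rw [dF, if_neg (by omega), if_neg (by omega), if_neg (by omega), if_neg (by omega),
    if_neg (by omega), dif_neg (by omega), dif_pos h]
  refine forall_congr' fun x => imp_congr_right fun _ => ?_
  rw [is_cns]

variable {δ : Ordinal.{0}} [hG : GM δ] {Ω : Ordinal.{0}} [hΩ : Fact (Ω < δ)]

/-- the elements of an internal set -/
def vs (S : St (L δ) (L Ω)) : Set ZFSet.{0} := {x | ∃ a, a ∈ S ∧ a.1 = x}

private theorem is_le : Ω ≤ Ω + 1 := by
  rw [← Order.succ_eq_add_one]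
  exact Order.le_succ Ω

private theorem is_emp : (∅ : ZFSet.{0}) ∈ L (Ω + 1) := by
  have h1 := toZFSet_mem_U F0 (0 : Ordinal.{0})
  rw [Ordinal.toZFSet_zero] at h1
  refine U_mono F0 ?_ h1
  rw [← Order.succ_eq_add_one, ← Order.succ_eq_add_one]
  exact Order.succ_le_succ zero_le

/-- element `i` of a list, with default `∅` -/
private noncomputable def el (l : List (L Ω)) (i : ℕ) : L (Ω + 1) :=
  (l[i]?).elim ⟨∅, is_emp⟩ (fun x => ⟨x.1, U_mono F0 is_le x.2⟩)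

private theorem el_val (l : List (L Ω)) (i : ℕ) : (el l i).1 = (l.map Subtype.val).getD i ∅ := by
  rw [List.getD_eq_getElem?_getD, List.getElem?_map]
  unfold el
  cases l[i]? <;> rfl

private theorem if_el [Fact (Ω + 1 < δ)] {γ : Type*} [WTy (L δ) γ] {l : γ → List (L Ω)}
    {i : γ → ℕ} (hl : IF (L δ) l) (hi : IF (L δ) i) : IF (L δ) (fun c => el (l c) (i c)) :=
  IF.optElim (b := fun _ => (⟨∅, is_emp⟩ : L (Ω + 1)))
    (g := fun _ (x : L Ω) => (⟨x.1, U_mono F0 is_le x.2⟩ : L (Ω + 1)))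
    (IF.getElem? hl hi) (IF.const _) ((if_incl is_le).comp IF.snd)

/-- the step of the recursion -/
private def Qs (n : ℕ) (S : St (L δ) (ℕ × St (L δ) (St (L δ) (L Ω) × List (L Ω))))
    (q : St (L δ) (L Ω) × List (L Ω)) : Prop :=
  (n % 7 = 0 ∧ (el q.2 (Nat.unpair (n / 7)).1).1 ∈ (el q.2 (Nat.unpair (n / 7)).2).1) ∨
  (n % 7 = 1 ∧ el q.2 (Nat.unpair (n / 7)).1 = el q.2 (Nat.unpair (n / 7)).2) ∨
  (n % 7 = 2 ∧ lL (el q.2 (Nat.unpair (n / 7)).1).1 (el q.2 (Nat.unpair (n / 7)).2).1) ∨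
  (n % 7 = 5 ∧ ((∀ T, ((Nat.unpair (n / 7)).1, T) ∈ S → q ∈ T) →
    ∀ T, ((Nat.unpair (n / 7)).2, T) ∈ S → q ∈ T)) ∨
  (n % 7 = 6 ∧ ∀ a, a ∈ q.1 → ∀ T, (n / 7, T) ∈ S → (q.1, a :: q.2) ∈ T)

private theorem ip_Qs [Fact (Ω + 1 < δ)] :
    IP (L δ) (fun p : (ℕ × St (L δ) (ℕ × St (L δ) (St (L δ) (L Ω) × List (L Ω)))) ×
      (St (L δ) (L Ω) × List (L Ω)) => Qs p.1.1 p.1.2 p.2) := by
  have hn : IF (L δ) (fun p : (ℕ × St (L δ) (ℕ × St (L δ) (St (L δ) (L Ω) × List (L Ω)))) ×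
      (St (L δ) (L Ω) × List (L Ω)) => p.1.1) := IF.fst.comp IF.fst
  have hS : IF (L δ) (fun p : (ℕ × St (L δ) (ℕ × St (L δ) (St (L δ) (L Ω) × List (L Ω)))) ×
      (St (L δ) (L Ω) × List (L Ω)) => p.1.2) := IF.snd.comp IF.fst
  have hq : IF (L δ) (fun p : (ℕ × St (L δ) (ℕ × St (L δ) (St (L δ) (L Ω) × List (L Ω)))) ×
      (St (L δ) (L Ω) × List (L Ω)) => p.2) := IF.snd
  have hD : IF (L δ) (fun p : (ℕ × St (L δ) (ℕ × St (L δ) (St (L δ) (L Ω) × List (L Ω)))) ×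
      (St (L δ) (L Ω) × List (L Ω)) => p.2.1) := IF.fst.comp IF.snd
  have hl : IF (L δ) (fun p : (ℕ × St (L δ) (ℕ × St (L δ) (St (L δ) (L Ω) × List (L Ω)))) ×
      (St (L δ) (L Ω) × List (L Ω)) => p.2.2) := IF.snd.comp IF.snd
  have hd := IF.div hn (IF.const 7)
  have h1 := IF.unpair1 hd
  have h2 := IF.unpair2 hd
  have hm := IF.mod hn (IF.const 7)
  refine IP.or (IP.and (IP.eq hm (IF.const 0)) ?_) (IP.or (IP.and (IP.eq hm (IF.const 1)) ?_)
    (IP.or (IP.and (IP.eq hm (IF.const 2)) ?_) (IP.or (IP.and (IP.eq hm (IF.const 5)) ?_)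
    (IP.and (IP.eq hm (IF.const 6)) ?_))))
  · exact IP.comp2 (P := fun x y : L (Ω + 1) => x.1 ∈ y.1) ip_memL (if_el hl h1) (if_el hl h2)
  · exact IP.eq (if_el hl h1) (if_el hl h2)
  · exact IP.comp2 (P := fun x y : L (Ω + 1) => lL x.1 y.1) ip_lL (if_el hl h1) (if_el hl h2)
  · refine IP.imp (IP.all (IP.imp (IP.mem (IF.pair (h1.comp IF.fst) IF.snd) (hS.comp IF.fst))
      (IP.mem (hq.comp IF.fst) IF.snd))) (IP.all (IP.imp (IP.mem (IF.pair (h2.comp IF.fst) IF.snd)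
      (hS.comp IF.fst)) (IP.mem (hq.comp IF.fst) IF.snd)))
  · refine IP.all (IP.imp (IP.mem IF.snd (hD.comp IF.fst)) (IP.all (IP.imp
      (IP.mem (IF.pair (hd.comp (IF.fst.comp IF.fst)) IF.snd) (hS.comp (IF.fst.comp IF.fst)))
      (IP.mem (IF.pair (hD.comp (IF.fst.comp IF.fst)) (IF.cons (IF.snd.comp IF.fst)
        (hl.comp (IF.fst.comp IF.fst)))) IF.snd))))

theorem ip_sl : IP (L δ) (fun p : St (L δ) (L Ω) × ℕ × List (L Ω) =>
    sl (· ∈ vs p.1) p.2.1 (p.2.2.map Subtype.val)) := by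
  have : Fact (Ω + 1 < δ) := ⟨by
    rw [← Order.succ_eq_add_one]
    exact hG.lim.succ_lt hΩ.out⟩
  obtain ⟨F, hF, hrec⟩ := wfRec (N := L δ) (α := ℕ)
    (β := St (L δ) (St (L δ) (L Ω) × List (L Ω))) (r := fun m n => m < n)
    (Nat.lt_wfRel.wf) (IP.lt IF.fst IF.snd)
    (G := fun n S => ⟨{q | Qs n S q}, (ip_Qs (δ := δ) (Ω := Ω)).sec (n, S)⟩)
    (IF.compr (ip_Qs (δ := δ) (Ω := Ω)))
  have key : ∀ n, ∀ q : St (L δ) (L Ω) × List (L Ω),
      q ∈ F n ↔ sl (· ∈ vs q.1) n (q.2.map Subtype.val) := by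
    intro n
    induction n using Nat.strong_induction_on with
    | _ n ih =>
      intro q
      obtain ⟨S, hS⟩ : ∃ S : St (L δ) (ℕ × St (L δ) (St (L δ) (L Ω) × List (L Ω))),
          ∀ z, z ∈ S ↔ z.1 < n ∧ F z.1 = z.2 :=
        ⟨⟨{z | z.1 < n ∧ F z.1 = z.2}, IP.and (IP.lt IF.fst (IF.const n))
          (IP.eq (hF.comp IF.fst) IF.snd)⟩, fun z => Iff.rfl⟩
      have h1 : q ∈ F n ↔ Qs n S q := by
        rw [hrec n S hS]
        exact Iff.rfl
      have hlt : ∀ m, m < n → ∀ q' : St (L δ) (L Ω) × List (L Ω),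
          (∀ T, (m, T) ∈ S → q' ∈ T) ↔ sl (· ∈ vs q'.1) m (q'.2.map Subtype.val) := by
        intro m hm q'
        rw [← ih m hm q']
        constructor
        · intro h2
          exact h2 (F m) ((hS _).2 ⟨hm, rfl⟩)
        · intro h2 T hT
          have h3 : F m = T := ((hS _).1 hT).2
          rw [← h3]
          exact h2
      rw [h1]
      have h7 : n % 7 < 7 := Nat.mod_lt _ (by norm_num)
      rcases (show n % 7 = 0 ∨ n % 7 = 1 ∨ n % 7 = 2 ∨ (n % 7 = 3 ∨ n % 7 = 4) ∨ n % 7 = 5 ∨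
        n % 7 = 6 by omega) with h | h | h | h | h | h
      · rw [sl_mem h, ← el_val, ← el_val]
        constructor
        · rintro (⟨h2, h3⟩ | ⟨h2, h3⟩ | ⟨h2, h3⟩ | ⟨h2, h3⟩ | ⟨h2, h3⟩)
          · exact h3
          all_goals omega
        · exact fun h3 => Or.inl ⟨h, h3⟩
      · rw [sl_eq h, ← el_val, ← el_val]
        constructor
        · rintro (⟨h2, h3⟩ | ⟨h2, h3⟩ | ⟨h2, h3⟩ | ⟨h2, h3⟩ | ⟨h2, h3⟩)
          · omega
          · exact congrArg Subtype.val h3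
          all_goals omega
        · exact fun h3 => Or.inr (Or.inl ⟨h, Subtype.ext h3⟩)
      · rw [sl_lt h, ← el_val, ← el_val]
        constructor
        · rintro (⟨h2, h3⟩ | ⟨h2, h3⟩ | ⟨h2, h3⟩ | ⟨h2, h3⟩ | ⟨h2, h3⟩)
          · omega
          · omega
          · exact h3
          all_goals omega
        · exact fun h3 => Or.inr (Or.inr (Or.inl ⟨h, h3⟩))
      · refine iff_of_false ?_ (sl_no h)
        rintro (⟨h2, h3⟩ | ⟨h2, h3⟩ | ⟨h2, h3⟩ | ⟨h2, h3⟩ | ⟨h2, h3⟩) <;> omega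
      · have h0 : 0 < n := by omega
        have hd : n / 7 < n := Nat.div_lt_self h0 (by norm_num)
        have l1 := hlt _ ((Nat.unpair_left_le (n / 7)).trans_lt hd) q
        have l2 := hlt _ ((Nat.unpair_right_le (n / 7)).trans_lt hd) q
        rw [sl_imp h, ← l1, ← l2]
        constructor
        · rintro (⟨h2, h3⟩ | ⟨h2, h3⟩ | ⟨h2, h3⟩ | ⟨h2, h3⟩ | ⟨h2, h3⟩)
          · omega
          · omega
          · omega
          · exact h3
          · omega
        · exact fun h3 => Or.inr (Or.inr (Or.inr (Or.inl ⟨h, h3⟩)))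
      · have h0 : 0 < n := by omega
        have hd : n / 7 < n := Nat.div_lt_self h0 (by norm_num)
        rw [sl_all h]
        constructor
        · rintro (⟨h2, h3⟩ | ⟨h2, h3⟩ | ⟨h2, h3⟩ | ⟨h2, h3⟩ | ⟨h2, h3⟩)
          · omega
          · omega
          · omega
          · omega
          · rintro x ⟨a, ha, rfl⟩
            exact (hlt _ hd (q.1, a :: q.2)).1 (h3 a ha)
        · intro h3
          refine Or.inr (Or.inr (Or.inr (Or.inr ⟨h, fun a ha => ?_⟩)))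
          exact (hlt _ hd (q.1, a :: q.2)).2 (h3 a.1 ⟨a, ha, rfl⟩)
  refine IP.congr (P := fun p : St (L δ) (L Ω) × ℕ × List (L Ω) => (p.1, p.2.2) ∈ F p.2.1)
    (fun p => key p.2.1 (p.1, p.2.2)) ?_
  exact IP.mem (IF.pair IF.fst (IF.snd.comp IF.snd)) (hF.comp (IF.fst.comp IF.snd))

end LBB
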