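import Pool.Agent.STP.FLang

/-! # Mahlo cardinals in structures for the language of set theory

(problem MP_328cd5_lc, black box L, Mahlo transfer; architect helper69; no sorry in this file)

`RegE E c`: every function from an element of `c` to `c` is bounded in `c`. `MahE E k`: `k` is an ordinal with `ω ∈ k`, `RegE`, and every closed unbounded subset of `k` has an element `c` with `ω ∈ c`, `RegE E c`. `fMah k`: the formula.
`IsMahlo κ` (native cardinal): `κ` is weakly Mahlo. -/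

universe v

namespace LBB

open STP Fml

section

variable {N : Type v} (E : N → N → Prop)

/-- every function from an element of `c` to `c` is bounded -/
def RegE (c : N) : Prop := ∀ a, E a c → ∀ f, (∀ x y z, E x a → Val E f x y → Val E f x z → y = z) →
  ∃ b, E b c ∧ ∀ x y, E x a → E y c → Val E f x y → E y b

/-- `C` is closed and unbounded in `k` -/
def ClbE (k C : N) : Prop := (∀ x, E x C → E x k) ∧ (∀ x, E x k → ∃ y, E y C ∧ E x y) ∧
  ∀ y, E y k → (∃ x, E x y) → (∀ x, E x y → ∃ z, E z C ∧ E x z ∧ E z y) → E y C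

/-- `k` is a Mahlo cardinal -/
def MahE (k : N) : Prop := IsOrd E k ∧ (∃ w, E w k ∧ IsOm E w) ∧ RegE E k ∧
  ∀ C, ClbE E k C → ∃ c, E c C ∧ (∃ w, E w c ∧ IsOm E w) ∧ RegE E c

end

/-- `RegE` -/
def fReg (c : ℕ) : Fml :=
  .all (.imp (.mem 0 (c + 1)) (.all (.imp (.all (.all (.all (.imp (.mem 2 4) (.imp (fVal 3 2 1)
    (.imp (fVal 3 2 0) (.eq 1 0))))))) (ex (an (.mem 0 (c + 3)) (.all (.all (.imp (.mem 1 4)
      (.imp (.mem 0 (c + 5)) (.imp (fVal 3 1 0) (.mem 0 2))))))))))) 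

/-- `ClbE` -/
def fClb (k C : ℕ) : Fml :=
  an (.all (.imp (.mem 0 (C + 1)) (.mem 0 (k + 1))))
    (an (.all (.imp (.mem 0 (k + 1)) (ex (an (.mem 0 (C + 2)) (.mem 1 0)))))
      (.all (.imp (.mem 0 (k + 1)) (.imp (ex (.mem 0 1)) (.imp (.all (.imp (.mem 0 1)
        (ex (an (.mem 0 (C + 3)) (an (.mem 1 0) (.mem 0 2)))))) (.mem 0 (C + 1)))))))

/-- `MahE` -/
def fMah (k : ℕ) : Fml :=
  an (fOrd k) (an (ex (an (.mem 0 (k + 1)) (fOm 0))) (an (fReg k) (.all (.imp (fClb (k + 1) 0)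
    (ex (an (.mem 0 1) (an (ex (an (.mem 0 1) (fOm 0))) (fReg 0))))))))

section

variable {N : Type v} {E : N → N → Prop} {v : ℕ → N}

@[simp] theorem sat_fReg {c : ℕ} : sat E (fReg c) v ↔ RegE E (v c) := by
  simp [fReg, RegE]

@[simp] theorem sat_fClb {k C : ℕ} : sat E (fClb k C) v ↔ ClbE E (v k) (v C) := by
  simp [fClb, ClbE]

@[simp] theorem sat_fMah {k : ℕ} : sat E (fMah k) v ↔ MahE E (v k) := by
  simp [fMah, MahE]

end

/-- every function from a smaller ordinal to `c` is bounded -/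
def RegO (c : Ordinal.{0}) : Prop := ∀ a < c, ∀ f : Ordinal.{0} → Ordinal.{0}, (∀ x < a, f x < c) →
  ∃ b < c, ∀ x < a, f x < b

/-- `C` is closed and unbounded in `k` -/
def ClbO (k : Ordinal.{0}) (C : Set Ordinal.{0}) : Prop := (∀ x ∈ C, x < k) ∧ (∀ x < k, ∃ y ∈ C, x < y) ∧
  ∀ y < k, y ≠ 0 → (∀ x < y, ∃ z ∈ C, x < z ∧ z < y) → y ∈ C

/-- ordinal version of Mahlo cardinals -/
def MahO (k : Ordinal.{0}) : Prop := Ordinal.omega0 < k ∧ RegO k ∧
  ∀ C, ClbO k C → ∃ c ∈ C, Ordinal.omega0 < c ∧ RegO c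

/-- `κ` is a (weakly) Mahlo cardinal: regular, uncountable, and every closed unbounded subset has an element which is a
regular cardinal -/
def IsMahlo (κ : Cardinal.{0}) : Prop := κ.IsRegular ∧ Cardinal.aleph0 < κ ∧
  ∀ C : Set Ordinal.{0}, ClbO κ.ord C → ∃ μ : Cardinal.{0}, μ.IsRegular ∧ μ.ord ∈ C

end LBB
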