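import Pool.Agent.LBB.MDef
import Pool.Agent.LGr.Tht
import Pool.Agent.LGr.OrdL

/-! # Mahlo cardinals in transitive models

(problem MP_328cd5_lc, black box L, Mahlo transfer; architect helper69)

PROOFS. `W` is a transitive model (`CPY.Mod W`), `Em W x y` is `x.1 ∈ y.1`; the instance `instWMSet` (`WCal/Tm.lean`) makes `W` a `WM` with `WM.E = Em W`.
* `val_iff`: `Val E f x y = ∃ p, E p f ∧ IsOP E p x y`; `isOP_iff`, `op_val`. `isOm_val`: `WCal.isOm_iff`, `om_val`, `LGr.zn_eq` (`LGr/Rows.lean`), `Ordinal.mem_toZFSet_iff`. `isOrd_val`: compare `LGr.isOrd_iff` (`LGr/Tht.lean`; `ZU.Ord`), transitivity of `W`.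
* `IsMahlo.mahO`: `RegO κ.ord`: the sup of `a < κ.ord` many ordinals below `κ.ord` is below `κ.ord` (Mathlib: `Cardinal.IsRegular`, `Ordinal.cof`, `Ordinal.iSup_lt_ord` or `Ordinal.lsub_lt_ord`), for regular cardinals `μ` the same. A club `C` of `κ.ord`: apply `IsMahlo` to `{c ∈ C | ω < c}` (a club since `ω < κ.ord`: `κ.ord` is a limit).
* `RegO.regE`: let `a ∈ c` and `f` be given, `a.1 = α.toZFSet` with `α < c`. Native function: `g x` = the ordinal `y < c` with `pair x.toZFSet y.toZFSet ∈ f.1` if there is one, else `0` (`0 < c`). It has a bound `b < c`; for `x ∈ a`, `y ∈ c` with `Val f x y`: `y = g x < b`.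
* `MahO.mahE`: `IsOrd`: `isOrd_val`. `ω ∈ k`: `isOm_val` (`ω.toZFSet ∈ W` by transitivity). A club `C` of the model gives the native club `{x | x.toZFSet ∈ C.1}`. -/

namespace LBB

open STP LGr WCal WM

private theorem regO_ord {κ : Cardinal.{0}} (h : κ.IsRegular) : RegO κ.ord := by
  intro a ha f hf
  refine ⟨Ordinal.blsub a (fun x _ => f x), ?_, fun x hx => ?_⟩
  · exact Cardinal.blsub_lt_ord_of_isRegular h (Cardinal.lt_ord.1 ha) fun x hx => hf x hx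
  · exact Ordinal.lt_blsub (fun x (_ : x < a) => f x) x hx

theorem IsMahlo.mahO {κ : Cardinal.{0}} (h : IsMahlo κ) : MahO κ.ord := by
  obtain ⟨h1, h2, h3⟩ := h
  have hω : Ordinal.omega0 < κ.ord := by
    rw [← Cardinal.ord_aleph0]
    exact Cardinal.ord_lt_ord.2 h2
  refine ⟨hω, regO_ord h1, fun C hC => ?_⟩
  obtain ⟨μ, hμ, hμC⟩ := h3 {c | c ∈ C ∧ Ordinal.omega0 < c} ⟨fun x hx => hC.1 x hx.1,
    fun x hx => by
      obtain ⟨y, hy, hxy⟩ := hC.2.1 (max x Ordinal.omega0) (max_lt hx hω)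
      exact ⟨y, ⟨hy, (le_max_right _ _).trans_lt hxy⟩, (le_max_left _ _).trans_lt hxy⟩,
    fun y hy hy0 hyl => by
      refine ⟨hC.2.2 y hy hy0 fun x hx => ?_, ?_⟩
      · obtain ⟨z, hz, h4, h5⟩ := hyl x hx
        exact ⟨z, hz.1, h4, h5⟩
      · obtain ⟨z, hz, h4, h5⟩ := hyl 0 (pos_iff_ne_zero.2 hy0)
        exact hz.2.trans h5⟩
  exact ⟨μ.ord, hμC.1, hμC.2, regO_ord hμ⟩

variable {W : Set ZFSet.{0}} [hW : Fact (CPY.Mod W)]

theorem val_iff {f x y : W} : Val (CPY.Em W) f x y ↔ ZFSet.pair x.1 y.1 ∈ f.1 := by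
  constructor
  · rintro ⟨p, hp, h⟩
    have h1 : p = op x y := (isOP_iff (N := W)).1 h
    have h2 : p.1 ∈ f.1 := hp
    rwa [h1, op_val] at h2
  · intro h
    have h1 : (op x y).1 ∈ f.1 := by rwa [op_val]
    exact ⟨op x y, h1, isOP_op (N := W) x y⟩

theorem isOrd_val {x : W} : IsOrd (CPY.Em W) x ↔ ∃ α : Ordinal.{0}, x.1 = α.toZFSet := by
  exact LGr.isOrd_iff

private theorem om_toZ : (om W).1 = Ordinal.omega0.toZFSet := by
  apply ZFSet.ext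
  intro z
  rw [om_val, Ordinal.mem_toZFSet_iff]
  constructor
  · rintro ⟨n, rfl⟩
    exact ⟨n, Ordinal.natCast_lt_omega0 n, (zn_eq n).symm⟩
  · rintro ⟨a, ha, rfl⟩
    obtain ⟨n, rfl⟩ := Ordinal.lt_omega0.1 ha
    exact ⟨n, (zn_eq n).symm⟩

theorem isOm_val {x : W} : IsOm (CPY.Em W) x ↔ x.1 = Ordinal.omega0.toZFSet := by
  have h1 : IsOm (CPY.Em W) x ↔ x = om W := isOm_iff (N := W)
  rw [h1, ← om_toZ (W := W), Subtype.ext_iff]

theorem RegO.regE {c : Ordinal.{0}} (h : RegO c) (hc : c.toZFSet ∈ W) : RegE (CPY.Em W) ⟨c.toZFSet, hc⟩ := by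
  classical
  intro a ha f hf
  have ha' : a.1 ∈ c.toZFSet := ha
  obtain ⟨α, hα, hαa⟩ := Ordinal.mem_toZFSet_iff.1 ha'
  have key : ∀ x : Ordinal.{0}, ∃ y : Ordinal.{0}, y < c ∧
      ((∃ y' < c, ZFSet.pair x.toZFSet y'.toZFSet ∈ f.1) → ZFSet.pair x.toZFSet y.toZFSet ∈ f.1) := by
    intro x
    by_cases hx : ∃ y' < c, ZFSet.pair x.toZFSet y'.toZFSet ∈ f.1
    · obtain ⟨y', hy', h1⟩ := hx
      exact ⟨y', hy', fun _ => h1⟩
    · exact ⟨0, zero_le.trans_lt hα, fun h1 => absurd h1 hx⟩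
  choose g hg1 hg2 using key
  obtain ⟨b, hb, hgb⟩ := h α hα g fun x _ => hg1 x
  have hbc : b.toZFSet ∈ c.toZFSet := Ordinal.toZFSet_mem_toZFSet_iff.2 hb
  refine ⟨⟨b.toZFSet, hW.out.trans _ hc _ hbc⟩, hbc, fun x y hx hy hxy => ?_⟩
  have hx' : x.1 ∈ α.toZFSet := by
    rw [hαa]
    exact hx
  have hy' : y.1 ∈ c.toZFSet := hy
  obtain ⟨ξ, hξ, hξx⟩ := Ordinal.mem_toZFSet_iff.1 hx'
  obtain ⟨η, hη, hηy⟩ := Ordinal.mem_toZFSet_iff.1 hy'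
  have h1 := val_iff.1 hxy
  rw [← hξx, ← hηy] at h1
  have h2 := hg2 ξ ⟨η, hη, h1⟩
  have hgc : (g ξ).toZFSet ∈ c.toZFSet := Ordinal.toZFSet_mem_toZFSet_iff.2 (hg1 ξ)
  have h3 : Val (CPY.Em W) f x ⟨(g ξ).toZFSet, hW.out.trans _ hc _ hgc⟩ := by
    rw [val_iff, ← hξx]
    exact h2
  have h4 := hf x y _ hx hxy h3
  have h5 : y.1 = (g ξ).toZFSet := congrArg Subtype.val h4
  change y.1 ∈ b.toZFSet
  rw [h5]
  exact Ordinal.toZFSet_mem_toZFSet_iff.2 (hgb ξ hξ)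

theorem MahO.mahE {k : Ordinal.{0}} (h : MahO k) (hk : k.toZFSet ∈ W) : MahE (CPY.Em W) ⟨k.toZFSet, hk⟩ := by
  obtain ⟨h1, h2, h3⟩ := h
  have hmem : ∀ {a b : Ordinal.{0}}, b.toZFSet ∈ W → a < b → a.toZFSet ∈ W := fun hb hab =>
    hW.out.trans _ hb _ (Ordinal.toZFSet_mem_toZFSet_iff.2 hab)
  refine ⟨isOrd_val.2 ⟨k, rfl⟩, ⟨⟨Ordinal.omega0.toZFSet, hmem hk h1⟩,
    Ordinal.toZFSet_mem_toZFSet_iff.2 h1, isOm_val.2 rfl⟩, h2.regE hk, fun C hC => ?_⟩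
  obtain ⟨c, hc1, hc2, hc3⟩ := h3 {x | x.toZFSet ∈ C.1} ⟨fun x hx => by
      have hx' : x.toZFSet ∈ C.1 := hx
      have h4 : x.toZFSet ∈ k.toZFSet := hC.1 ⟨x.toZFSet, hW.out.trans _ C.2 _ hx'⟩ hx'
      exact Ordinal.toZFSet_mem_toZFSet_iff.1 h4,
    fun x hx => by
      obtain ⟨y, hy, hxy⟩ := hC.2.1 ⟨x.toZFSet, hmem hk hx⟩ (Ordinal.toZFSet_mem_toZFSet_iff.2 hx)
      have hyk : y.1 ∈ k.toZFSet := hC.1 y hy
      obtain ⟨η, hη, hηy⟩ := Ordinal.mem_toZFSet_iff.1 hyk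
      refine ⟨η, ?_, ?_⟩
      · have h4 : y.1 ∈ C.1 := hy
        rw [← hηy] at h4
        exact h4
      · have h4 : x.toZFSet ∈ y.1 := hxy
        rw [← hηy] at h4
        exact Ordinal.toZFSet_mem_toZFSet_iff.1 h4,
    fun y hy hy0 hyl => by
      have h4 := hC.2.2 ⟨y.toZFSet, hmem hk hy⟩ (Ordinal.toZFSet_mem_toZFSet_iff.2 hy)
        ⟨⟨(0 : Ordinal.{0}).toZFSet, hmem (hmem hk hy) (pos_iff_ne_zero.2 hy0)⟩,
          Ordinal.toZFSet_mem_toZFSet_iff.2 (pos_iff_ne_zero.2 hy0)⟩ fun x hx => by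
          have hx' : x.1 ∈ y.toZFSet := hx
          obtain ⟨ξ, hξ, hξx⟩ := Ordinal.mem_toZFSet_iff.1 hx'
          obtain ⟨z, hz, hxz, hzy⟩ := hyl ξ hξ
          refine ⟨⟨z.toZFSet, hmem (hmem hk hy) hzy⟩, hz, ?_,
            Ordinal.toZFSet_mem_toZFSet_iff.2 hzy⟩
          change x.1 ∈ z.toZFSet
          rw [← hξx]
          exact Ordinal.toZFSet_mem_toZFSet_iff.2 hxz
      exact h4⟩
  have hcC : c.toZFSet ∈ C.1 := hc1
  have hcW : c.toZFSet ∈ W := hW.out.trans _ C.2 _ hcC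
  exact ⟨⟨c.toZFSet, hcW⟩, hcC, ⟨⟨Ordinal.omega0.toZFSet, hmem hcW hc2⟩,
    Ordinal.toZFSet_mem_toZFSet_iff.2 hc2, isOm_val.2 rfl⟩, hc3.regE hcW⟩

end LBB
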