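import Pool.Agent.LBB.MahL
import Pool.Agent.LBB.GmS
import Pool.Agent.LBB.Typ

/-! # The least Mahlo cardinal of the model

(problem MP_328cd5_lc, black box L, Mahlo transfer; architect helper69; model `L δ`)

`K = Set.Iio κ`, notions of `COD/Defs.lean` (`COD.Cd`, `COD.Reg`, `COD.InE`, `COD.Club`).

PROOFS. `E = CPY.Em (L δ)`, an ordinal `c < δ` is also the element `oz c` of the model.
* `cd_of`: if `RegE (oz c)`, `ω ≤ c.1` then `COD.Cd c`: `Iio c` is infinite (the natural numbers); if `f : K → K` is internal with `∀ x < c, ∃ y < b, f y = x`, `b < c`: apply `RegE` to `a = oz b` and the set of the model `F = {(x, y) | x, y : K, f x = y}` (`exists_sub` for the type `K × K`; `cd_prod`, `cd_Iio`): there is `b' < c` above all values `f y < c`, `y < b`; contradiction for `x = b'`.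
* `reg_iff`: `→`: `ω ≤ c`: `Iio c` is infinite. `RegE`: let `a ∈ oz c`, `a = oz b`, and `f` a set of the model, functional on `a`. The total function `F : K → K`, `F x = y` if `pair x y ∈ f`, `y < c`, and `x < b`, else `⊥`, is internal (`IF.ofP`, `ip_set`-like: `IP.iff_mem`, `cd_prod`); `COD.Reg` gives a bound. `←`: `cd_of`; for `F : Fn K K` the set `{(x, y) | F x = y}` as above.
* `mahM_of`. `reg`: `RegE (oz κ)` with the set of `F`. `ma`: `D : St K` gives the set `C` of the model (`exists_sub`), `ClbE`; the element `c` is `oz l`, `l < κ`, `ω < l` (`isOm_val`), `reg_iff`. `unb`: `ma` for `{x | a < x}` and `COD.Reg → COD.Cd`. `nm`: let `COD.InE l`. `RegE (oz l)` (`reg_iff`), `ω < l` (`l` is an infinite cardinal and `l ≠ nx ⊥`; `ω` is the least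
  infinite ordinal, `nx ⊥ = ω`: `ω < κ` and `COD.Cd ω`). By `hmin` `MahE (oz l)` fails, so there is `C` with `ClbE (oz l) C` without an element `c` with `ω ∈ c`, `RegE c`. `D = {x : K | x ∈ C, ω < x}` is a club of `l`; if `COD.Reg c` for some `c ∈ D` then `RegE (oz c)` (`reg_iff`), contradiction. -/

namespace LBB

open STP LGr WCal WM

variable {δ κ : Ordinal.{0}} [hG : GM δ] [hκ : Fact (κ < δ)] [h0 : Fact (0 < κ)]

noncomputable instance instKTy : COD.KTy (L δ) (Set.Iio κ) where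
  toLinearOrder := inferInstance
  wf := (inferInstance : WellFoundedLT (Set.Iio κ)).wf
  toOrderBot := { bot := ⟨0, h0.out⟩, bot_le := fun x => zero_le (α := Ordinal.{0}) }
  ip_lt := ip_ltO

/-- an ordinal as an element of the model -/
noncomputable def oz (δ : Ordinal.{0}) [hG : GM δ] (c : Ordinal.{0}) (h : c < δ) : L δ := ⟨c.toZFSet, (ord_mem_L hG.lim).2 h⟩

omit h0 in
private theorem em_cd {x y : Set.Iio κ} :
    CPY.Em (L δ) (cd (L δ) x) (cd (L δ) y) ↔ x < y := Ordinal.toZFSet_mem_toZFSet_iff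

omit h0 in
private theorem em_cd_oz {x : Set.Iio κ} {c : Ordinal.{0}} {hc : c < δ} :
    CPY.Em (L δ) (cd (L δ) x) (oz δ c hc) ↔ x.1 < c := Ordinal.toZFSet_mem_toZFSet_iff

omit h0 in
private theorem em_oz_cd {x : Set.Iio κ} {c : Ordinal.{0}} {hc : c < δ} :
    CPY.Em (L δ) (oz δ c hc) (cd (L δ) x) ↔ c < x.1 := Ordinal.toZFSet_mem_toZFSet_iff

private theorem oz_em {b c : Ordinal.{0}} {hb : b < δ} {hc : c < δ} :
    CPY.Em (L δ) (oz δ b hb) (oz δ c hc) ↔ b < c := Ordinal.toZFSet_mem_toZFSet_iff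

private theorem em_oz {x : L δ} {c : Ordinal.{0}} {h : c < δ} :
    CPY.Em (L δ) x (oz δ c h) ↔ ∃ a, ∃ h' : a < c, x = oz δ a (lt_trans h' h) := by
  constructor
  · intro hx
    obtain ⟨a, ha, hx'⟩ := Ordinal.mem_toZFSet_iff.1 (show x.1 ∈ c.toZFSet from hx)
    exact ⟨a, ha, Subtype.ext hx'.symm⟩
  · rintro ⟨a, ha, rfl⟩
    exact Ordinal.toZFSet_mem_toZFSet_iff.2 ha

omit h0 in
private theorem em_oz' {x : L δ} {c : Ordinal.{0}} {h : c < δ} (hck : c ≤ κ)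
    (hx : CPY.Em (L δ) x (oz δ c h)) : ∃ a : Set.Iio κ, a.1 < c ∧ x = cd (L δ) a := by
  obtain ⟨a, ha, rfl⟩ := em_oz.1 hx
  exact ⟨⟨a, lt_of_lt_of_le ha hck⟩, ha, rfl⟩

omit h0 in
private theorem set_fn (F : Fn (L δ) (Set.Iio κ) (Set.Iio κ)) : ∃ f : L δ,
    ∀ u v : L δ, Val (CPY.Em (L δ)) f u v ↔
      ∃ x : Set.Iio κ, u = cd (L δ) x ∧ v = cd (L δ) (F x) := by
  refine ⟨cd (L δ) F, fun u v => ?_⟩
  rw [val_iff]
  have h1 : ZFSet.pair u.1 v.1 ∈ (cd (L δ) F).1 ↔ E (op u v) (cd (L δ) F) := by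
    rw [← op_val]
    exact Iff.rfl
  rw [h1, cd_fn]
  constructor
  · rintro ⟨a, ha⟩
    obtain ⟨h2, h3⟩ := op_inj.1 ha
    exact ⟨a, h2, h3⟩
  · rintro ⟨a, rfl, rfl⟩
    exact ⟨a, rfl⟩

/-- the typed form of the regularity of `c ≤ κ` -/
private theorem regE_typed {c : Ordinal.{0}} (hc : c < δ) (hck : c ≤ κ) :
    RegE (CPY.Em (L δ)) (oz δ c hc) ↔ ∀ b < c, ∀ F : Fn (L δ) (Set.Iio κ) (Set.Iio κ),
      (∀ x : Set.Iio κ, x.1 < b → (F x).1 < c) →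
        ∃ d < c, ∀ x : Set.Iio κ, x.1 < b → (F x).1 < d := by
  constructor
  · intro h b hb F hF
    obtain ⟨f, hf⟩ := set_fn F
    obtain ⟨b', hb', h1⟩ := h (oz δ b (lt_trans hb hc)) (oz_em.2 hb) f (by
      intro x y z hx hy hz
      obtain ⟨x1, e1, e2⟩ := (hf x y).1 hy
      obtain ⟨x2, e3, e4⟩ := (hf x z).1 hz
      have e5 : x1 = x2 := cd_inj.1 (e1.symm.trans e3)
      rw [e2, e4, e5])
    obtain ⟨d, hd, rfl⟩ := em_oz.1 hb'
    refine ⟨d, hd, fun x hx => ?_⟩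
    exact em_cd_oz.1 (h1 (cd (L δ) x) (cd (L δ) (F x)) (em_cd_oz.2 hx) (em_cd_oz.2 (hF x hx))
      ((hf _ _).2 ⟨x, rfl, rfl⟩))
  · intro h a ha f hf
    obtain ⟨b, hb, rfl⟩ := em_oz.1 ha
    let P : Set.Iio κ → Set.Iio κ → Prop := fun x y =>
      (cd (L δ) (x, y)).1 ∈ f.1 ∧ (cd (L δ) y).1 ∈ c.toZFSet ∧ (cd (L δ) x).1 ∈ b.toZFSet
    have hP : IP (L δ) (fun p : Set.Iio κ × Set.Iio κ => P p.1 p.2) := by
      have i1 : IP (L δ) (fun p : Set.Iio κ × Set.Iio κ => (cd (L δ) p).1 ∈ f.1) :=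
        IP.iff_mem.2 ⟨f.1, f.2, fun _ => Iff.rfl⟩
      have i2 : IP (L δ) (fun y : Set.Iio κ => (cd (L δ) y).1 ∈ c.toZFSet) :=
        IP.iff_mem.2 ⟨c.toZFSet, (oz δ c hc).2, fun _ => Iff.rfl⟩
      have i3 : IP (L δ) (fun y : Set.Iio κ => (cd (L δ) y).1 ∈ b.toZFSet) :=
        IP.iff_mem.2 ⟨b.toZFSet, (oz δ b (lt_trans hb hc)).2, fun _ => Iff.rfl⟩
      exact i1.and ((i2.comp IF.snd).and (i3.comp IF.fst))
    have hPv : ∀ x y, P x y → Val (CPY.Em (L δ)) f (cd (L δ) x) (cd (L δ) y) := by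
      intro x y hxy
      have e : (cd (L δ) (x, y)).1 = ZFSet.pair (cd (L δ) x).1 (cd (L δ) y).1 :=
        cd_prod (δ := δ) (x, y)
      rw [val_iff, ← e]
      exact hxy.1
    have hPu : ∀ x y z, P x y → P x z → y = z := by
      intro x y z hy hz
      exact cd_inj.1 (hf _ _ _ hy.2.2 (hPv _ _ hy) (hPv _ _ hz))
    let Q : Set.Iio κ → Set.Iio κ → Prop := fun x y => P x y ∨ ((∀ z, ¬ P x z) ∧ y = ⊥)
    have hQ : IP (L δ) (fun p : Set.Iio κ × Set.Iio κ => Q p.1 p.2) := by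
      have i4 : IP (L δ) (fun x : Set.Iio κ => ∀ z, ¬ P x z) :=
        IP.all (P := fun (x z : Set.Iio κ) => ¬ P x z) hP.not
      exact hP.or ((i4.comp IF.fst).and (IP.eq IF.snd (IF.const ⊥)))
    have hQu : ∀ x, ∃! y, Q x y := by
      intro x
      by_cases h2 : ∃ y, P x y
      · obtain ⟨y, hy⟩ := h2
        refine ⟨y, Or.inl hy, fun z hz => ?_⟩
        rcases hz with hz | hz
        · exact hPu _ _ _ hz hy
        · exact absurd hy (hz.1 y)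
      · refine ⟨⊥, Or.inr ⟨fun z hz => h2 ⟨z, hz⟩, rfl⟩, fun z hz => ?_⟩
        rcases hz with hz | hz
        · exact absurd ⟨z, hz⟩ h2
        · exact hz.2
    have hF : ∀ x, Q x ((hQu x).choose) := fun x => (hQu x).choose_spec.1
    have hF' : ∀ x y, P x y → (hQu x).choose = y := fun x y hxy =>
      ((hQu x).choose_spec.2 y (Or.inl hxy)).symm
    obtain ⟨d, hd, h1⟩ := h b hb ⟨fun x => (hQu x).choose, IF.unique hQ hQu⟩ (by
      intro x hx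
      change ((hQu x).choose).1 < c
      rcases hF x with h2 | h2
      · exact Ordinal.toZFSet_mem_toZFSet_iff.1 h2.2.1
      · rw [h2.2]
        exact lt_of_le_of_lt zero_le hb)
    refine ⟨oz δ d (lt_trans hd hc), oz_em.2 hd, fun x y hx hy hxy => ?_⟩
    obtain ⟨x', hx', rfl⟩ := em_oz' (hb.le.trans hck) hx
    obtain ⟨y', hy', rfl⟩ := em_oz' hck hy
    have h2 : P x' y' := by
      refine ⟨?_, hy, hx⟩
      have e : (cd (L δ) (x', y')).1 = ZFSet.pair (cd (L δ) x').1 (cd (L δ) y').1 :=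
        cd_prod (δ := δ) (x', y')
      rw [val_iff, ← e] at hxy
      exact hxy
    have h3 : ((hQu x').choose).1 < d := h1 x' hx'
    rw [hF' _ _ h2] at h3
    exact em_cd_oz.2 h3

theorem cd_of (c : Set.Iio κ) (h : Ordinal.omega0 ≤ c.1) (hr : RegE (CPY.Em (L δ)) (oz δ c.1 (lt_trans c.2 hκ.out))) :
    COD.Cd (L δ) c := by
  classical
  have h1 := (regE_typed _ c.2.le).1 hr
  constructor
  · refine Set.infinite_of_injective_forall_mem (α := ℕ)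
      (f := fun n => (⟨(n : Ordinal.{0}),
        lt_trans (lt_of_lt_of_le (Ordinal.natCast_lt_omega0 n) h) c.2⟩ : Set.Iio κ)) ?_ ?_
    · intro m n hmn
      have e : (m : Ordinal.{0}) = n := congrArg Subtype.val hmn
      exact_mod_cast e
    · intro n
      exact lt_of_lt_of_le (Ordinal.natCast_lt_omega0 n) h
  · rintro b hb ⟨f, hf, h2⟩
    have i1 : IP (L δ) (fun x : Set.Iio κ => f x < c) := COD.ip_ltK hf (IF.const c)
    obtain ⟨g, hg, hg1⟩ : ∃ g : Set.Iio κ → Set.Iio κ, IF (L δ) g ∧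
        ∀ x, (f x < c → g x = f x) ∧ (¬ f x < c → g x = ⊥) :=
      ⟨_, IF.ite i1 hf (IF.const ⊥), fun x => ⟨fun h => if_pos h, fun h => if_neg h⟩⟩
    have hbot : (⊥ : Set.Iio κ).1 < c.1 :=
      lt_of_le_of_lt (show (0 : Ordinal.{0}) ≤ b.1 from zero_le) hb
    obtain ⟨d, hd, h3⟩ := h1 b.1 hb ⟨g, hg⟩ (by
      intro x hx
      change (g x).1 < c.1
      by_cases h4 : f x < c
      · rw [(hg1 x).1 h4]
        exact h4
      · rw [(hg1 x).2 h4]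
        exact hbot)
    obtain ⟨y, hy, h4⟩ := h2 ⟨d, lt_trans hd c.2⟩ hd
    have h5 : (g y).1 < d := h3 y hy
    have h6 : f y < c := by
      rw [h4]
      exact hd
    rw [(hg1 y).1 h6, h4] at h5
    exact lt_irrefl _ h5

private theorem bot_lt' {x : Set.Iio κ} (h : x ≠ ⊥) : ⊥ < x := by
  have h1 : (0 : Ordinal.{0}) < x.1 := by
    rw [pos_iff_ne_zero]
    exact fun e => h (Subtype.ext e)
  exact h1

omit h0 in
private theorem om_le_of_inf {c : Set.Iio κ} (h : (Set.Iio c).Infinite) :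
    Ordinal.omega0 ≤ c.1 := by
  by_contra hcon
  rw [not_le, Ordinal.lt_omega0] at hcon
  obtain ⟨n, hn⟩ := hcon
  refine h ?_
  have h1 : (Set.Iio c.1).Finite := by
    refine ((Set.finite_Iio n).image (fun m : ℕ => (m : Ordinal.{0}))).subset ?_
    intro x hx
    have hx' : x < n := by
      rw [← hn]
      exact hx
    obtain ⟨m, hm⟩ := Ordinal.lt_omega0.1 (hx'.trans (Ordinal.natCast_lt_omega0 n))
    refine ⟨m, ?_, hm.symm⟩
    rw [hm] at hx'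
    exact_mod_cast hx'
  exact (h1.preimage Subtype.val_injective.injOn).subset fun x hx => hx

theorem reg_iff (c : Set.Iio κ) : COD.Reg (L δ) c ↔
    Ordinal.omega0 ≤ c.1 ∧ RegE (CPY.Em (L δ)) (oz δ c.1 (lt_trans c.2 hκ.out)) := by
  constructor
  · rintro ⟨h1, h2⟩
    refine ⟨om_le_of_inf h1.1, (regE_typed _ c.2.le).2 fun b hb F hF => ?_⟩
    obtain ⟨d, hd, h3⟩ := h2 ⟨b, lt_trans hb c.2⟩ hb F fun x hx => hF x hx
    exact ⟨d.1, hd, fun x hx => h3 x hx⟩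
  · rintro ⟨h1, h2⟩
    refine ⟨cd_of c h1 h2, fun b hb F hF => ?_⟩
    obtain ⟨d, hd, h3⟩ := (regE_typed _ c.2.le).1 h2 b.1 hb F fun x hx => hF x hx
    exact ⟨⟨d, lt_trans hd c.2⟩, hd, fun x hx => h3 x hx⟩

variable (δ κ) in
/-- `κ` is the least Mahlo cardinal of the model -/
structure MahM : Prop where
  om : Ordinal.omega0 < κ
  unb : ∀ a : Set.Iio κ, ∃ b : Set.Iio κ, a < b ∧ COD.Cd (L δ) b
  reg : ∀ (b : Set.Iio κ) (F : Fn (L δ) (Set.Iio κ) (Set.Iio κ)), ∃ c : Set.Iio κ, ∀ x, x < b → F x < c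
  ma : ∀ D : St (L δ) (Set.Iio κ), (∀ x, ∃ y, y ∈ D ∧ x < y) →
    (∀ y : Set.Iio κ, y ≠ ⊥ → (∀ x, x < y → ∃ z, z ∈ D ∧ x < z ∧ z < y) → y ∈ D) →
      ∃ l, l ∈ D ∧ Ordinal.omega0 < l.1 ∧ COD.Reg (L δ) l
  nm : ∀ l : Set.Iio κ, COD.InE (L δ) l → ∃ D : St (L δ) (Set.Iio κ), COD.Club (L δ) l D ∧
    ∀ c, c ∈ D → ¬ COD.Reg (L δ) c

theorem mahM_of (hm : MahE (CPY.Em (L δ)) (oz δ κ hκ.out))
    (hmin : ∀ (k : Ordinal.{0}) (h : k < κ), ¬ MahE (CPY.Em (L δ)) (oz δ k (lt_trans h hκ.out))) : MahM δ κ := by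
  have hom : Ordinal.omega0 < κ := by
    obtain ⟨w, hw, hw'⟩ := hm.2.1
    have h1 := isOm_val.1 hw'
    have h2 : w.1 ∈ κ.toZFSet := hw
    rw [h1] at h2
    exact Ordinal.toZFSet_mem_toZFSet_iff.1 h2
  have hreg : ∀ (b : Set.Iio κ) (F : Fn (L δ) (Set.Iio κ) (Set.Iio κ)),
      ∃ c : Set.Iio κ, ∀ x, x < b → F x < c := by
    intro b F
    obtain ⟨d, hd, h1⟩ := (regE_typed hκ.out le_rfl).1 hm.2.2.1 b.1 b.2 F fun x _ => (F x).2
    exact ⟨⟨d, hd⟩, fun x hx => h1 x hx⟩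
  have isom : ∀ h : Ordinal.omega0 < δ, IsOm (CPY.Em (L δ)) (oz δ Ordinal.omega0 h) :=
    fun h => isOm_val.2 rfl
  have homd : Ordinal.omega0 < δ := lt_trans hom hκ.out
  have hma : ∀ D : St (L δ) (Set.Iio κ), (∀ x, ∃ y, y ∈ D ∧ x < y) →
      (∀ y : Set.Iio κ, y ≠ ⊥ → (∀ x, x < y → ∃ z, z ∈ D ∧ x < z ∧ z < y) → y ∈ D) →
        ∃ l, l ∈ D ∧ Ordinal.omega0 < l.1 ∧ COD.Reg (L δ) l := by
    intro D h1 h2
    have hD : ∀ z : L δ, CPY.Em (L δ) z (cd (L δ) D) ↔ ∃ a, a ∈ D ∧ cd (L δ) a = z :=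
      cd_st (L δ) D
    have hcl : ClbE (CPY.Em (L δ)) (oz δ κ hκ.out) (cd (L δ) D) := by
      refine ⟨fun x hx => ?_, fun x hx => ?_, fun y hy hy0 hy' => ?_⟩
      · obtain ⟨a, -, rfl⟩ := (hD x).1 hx
        exact em_cd_oz.2 a.2
      · obtain ⟨x', -, rfl⟩ := em_oz' le_rfl hx
        obtain ⟨y, hy, hxy⟩ := h1 x'
        exact ⟨cd (L δ) y, (hD _).2 ⟨y, hy, rfl⟩, em_cd.2 hxy⟩
      · obtain ⟨y', -, rfl⟩ := em_oz' le_rfl hy
        refine (hD _).2 ⟨y', h2 y' ?_ fun x hx => ?_, rfl⟩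
        · rintro rfl
          obtain ⟨x, hx⟩ := hy0
          have h3 : x.1 ∈ (0 : Ordinal.{0}).toZFSet := hx
          rw [Ordinal.toZFSet_zero] at h3
          exact ZFSet.notMem_empty _ h3
        · obtain ⟨z, hz, hxz, hzy⟩ := hy' (cd (L δ) x) (em_cd.2 hx)
          obtain ⟨z', hz', rfl⟩ := (hD z).1 hz
          exact ⟨z', hz', em_cd.1 hxz, em_cd.1 hzy⟩
    obtain ⟨c, hc, ⟨w, hw, hw'⟩, hcr⟩ := hm.2.2.2 (cd (L δ) D) hcl
    obtain ⟨l, hl, rfl⟩ := (hD c).1 hc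
    have h3 := isOm_val.1 hw'
    have h4 : w.1 ∈ l.1.toZFSet := hw
    rw [h3] at h4
    have h5 : Ordinal.omega0 < l.1 := Ordinal.toZFSet_mem_toZFSet_iff.1 h4
    exact ⟨l, hl, h5, (reg_iff l).2 ⟨h5.le, hcr⟩⟩
  have hlim : ∀ x : Set.Iio κ, ∃ y, x < y := by
    intro x
    obtain ⟨c, hc⟩ := hreg ⟨1, lt_trans Ordinal.one_lt_omega0 hom⟩ ⟨fun _ => x, IF.const x⟩
    exact ⟨c, hc ⊥ (show (0 : Ordinal.{0}) < 1 from zero_lt_one)⟩
  refine ⟨hom, fun a => ?_, hreg, hma, fun l hl => ?_⟩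
  · obtain ⟨l, hl, -, hr⟩ := hma ⟨{x | a < x}, COD.ip_ltK (IF.const a) IF.id⟩ (fun x => by
      obtain ⟨y, hy⟩ := hlim (max a x)
      exact ⟨y, (le_max_left a x).trans_lt hy, (le_max_right a x).trans_lt hy⟩) (fun y hy h1 => by
      obtain ⟨z, hz, -, hzy⟩ := h1 ⊥ (bot_lt' hy)
      exact lt_trans (show a < z from hz) hzy)
    exact ⟨l, hl, hr.1⟩
  · obtain ⟨⟨hl1, hl2⟩, hl3⟩ := hl
    obtain ⟨hle, hlr⟩ := (reg_iff l).1 hl3
    have hlt : Ordinal.omega0 < l.1 := by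
      refine lt_of_le_of_ne hle fun he => ?_
      have hbl : (⊥ : Set.Iio κ) < l := by
        change (0 : Ordinal.{0}) < l.1
        rw [← he]
        exact Ordinal.omega0_pos
      have hne : {b : Set.Iio κ | ⊥ < b ∧ COD.Cd (L δ) b}.Nonempty := ⟨l, hbl, hl1⟩
      refine hl2 ⊥ (Or.inl rfl) ?_
      unfold COD.nx
      rw [dif_pos hne]
      refine le_antisymm ?_ (not_lt.1 ((wellFounded_lt (α := Set.Iio κ)).not_lt_min _
        (Set.mem_ofPred.2 ⟨hbl, hl1⟩)))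
      have h3 := (wellFounded_lt (α := Set.Iio κ)).min_mem _ hne
      have h4 := om_le_of_inf (Set.mem_ofPred.1 h3).2.1
      change l.1 ≤ ((wellFounded_lt (α := Set.Iio κ)).min _ hne).1
      rw [← he]
      exact h4
    have h1 := hmin l.1 l.2
    have h2 : ¬ ∀ C, ClbE (CPY.Em (L δ)) (oz δ l.1 (lt_trans l.2 hκ.out)) C →
        ∃ c, CPY.Em (L δ) c C ∧ (∃ w, CPY.Em (L δ) w c ∧ IsOm (CPY.Em (L δ)) w) ∧
          RegE (CPY.Em (L δ)) c := fun h3 =>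
      h1 ⟨isOrd_val.2 ⟨l.1, rfl⟩, ⟨_, oz_em.2 hlt, isom homd⟩, hlr, h3⟩
    push Not at h2
    obtain ⟨C, ⟨hC1, hC2, hC3⟩, hC4⟩ := h2
    have iC : IP (L δ) (fun x : Set.Iio κ => (cd (L δ) x).1 ∈ C.1) :=
      IP.iff_mem.2 ⟨C.1, C.2, fun _ => Iff.rfl⟩
    have iO : IP (L δ) (fun x : Set.Iio κ => (⟨Ordinal.omega0, hom⟩ : Set.Iio κ) < x) :=
      COD.ip_ltK (IF.const _) IF.id
    refine ⟨⟨{x | (cd (L δ) x).1 ∈ C.1 ∧ (⟨Ordinal.omega0, hom⟩ : Set.Iio κ) < x},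
      iC.and iO⟩, ⟨fun x hx => ?_, fun y hy hy0 h3 => ?_⟩, fun c hc hr => ?_⟩
    · obtain ⟨y, hy, hxy⟩ := hC2 (cd (L δ) (max x ⟨Ordinal.omega0, hom⟩))
        (em_cd_oz.2 (max_lt (show x.1 < l.1 from hx) hlt))
      obtain ⟨y', hy', rfl⟩ := em_oz' l.2.le (hC1 y hy)
      have h4 := em_cd.1 hxy
      exact ⟨y', ⟨hy, (le_max_right _ _).trans_lt h4⟩, (le_max_left _ _).trans_lt h4, hy'⟩
    · refine ⟨hC3 (cd (L δ) y) (em_cd_oz.2 hy) ⟨cd (L δ) (⊥ : Set.Iio κ),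
        em_cd.2 (bot_lt' hy0)⟩ fun x hx => ?_, ?_⟩
      · obtain ⟨x', hx', rfl⟩ := em_oz' (h := lt_trans y.2 hκ.out) y.2.le hx
        obtain ⟨z, hz, hxz, hzy⟩ := h3 x' hx'
        exact ⟨cd (L δ) z, hz.1, em_cd.2 hxz, em_cd.2 hzy⟩
      · obtain ⟨z, hz, -, hzy⟩ := h3 ⊥ (bot_lt' hy0)
        exact lt_trans hz.2 hzy
    · exact hC4 (cd (L δ) c) hc.1 ⟨_, em_oz_cd.2 hc.2, isom homd⟩ ((reg_iff c).1 hr).2

/-- if there is a Mahlo cardinal then there is a countable model `L δ` with a least Mahlo cardinal `κ` -/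
theorem exists_model (h : ∃ κ : Cardinal.{0}, IsMahlo κ) :
    ∃ (δ κ : Ordinal.{0}) (_ : GM δ) (_ : Fact (κ < δ)) (_ : Fact (0 < κ)), MahM δ κ := by
  obtain ⟨κ0, hκ0⟩ := h
  have hm0 : Fact (CPY.Mod (Lc F0)) := ⟨mod_Lc F0⟩
  have hk0 : κ0.ord.toZFSet ∈ Lc F0 := ⟨κ0.ord + 1, toZFSet_mem_U F0 _⟩
  have h1 := hκ0.mahO.mahE hk0
  obtain ⟨δ, hδ1, hδ2, hδ3, hδ4, hδ5⟩ := exists_ground_of F0 (Fml.ex (fMah 0)) fun v => by
    rw [sat_ex]
    exact ⟨_, by rw [sat_fMah]; exact h1⟩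
  have hG : GM δ := ⟨hδ1, hδ2, hδ3, hδ4⟩
  have h2 := hδ5 fun _ => ⟨∅, empty_mem_U F0 δ⟩
  rw [sat_ex] at h2
  obtain ⟨k, hk⟩ := h2
  rw [sat_fMah, cns_zero] at hk
  obtain ⟨α, hα⟩ := isOrd_val.1 hk.1
  have hαδ : α < δ := (ord_mem_L hδ1).1 (hα ▸ k.2)
  have hk' : MahE (CPY.Em (L δ)) (oz δ α hαδ) := by
    have h3 : k = oz δ α hαδ := Subtype.ext hα
    rwa [← h3]
  let P : Set Ordinal.{0} := {α | ∃ h : α < δ, MahE (CPY.Em (L δ)) (oz δ α h)}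
  have hP : P.Nonempty := ⟨α, hαδ, hk'⟩
  obtain ⟨hκ, hκ1⟩ : sInf P ∈ P := csInf_mem hP
  have hpos : 0 < sInf P := by
    obtain ⟨w, hw, -⟩ := hκ1.2.1
    rw [pos_iff_ne_zero]
    intro h4
    have h5 : w.1 ∈ (sInf P).toZFSet := hw
    rw [h4, Ordinal.toZFSet_zero] at h5
    exact ZFSet.notMem_empty _ h5
  refine ⟨δ, sInf P, hG, ⟨hκ⟩, ⟨hpos⟩, ?_⟩
  have : Fact (sInf P < δ) := ⟨hκ⟩
  have : Fact (0 < sInf P) := ⟨hpos⟩
  exact mahM_of hκ1 fun k hk hm => notMem_of_lt_csInf' hk ⟨_, hm⟩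

end LBB
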