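import Pool.Agent.LBB.ICnd
import Pool.Agent.LBB.Hul

/-! # Subsets of levels

(problem MP_328cd5_lc, black box L; architect helper69; internal, model `L δ`)

PROOF of `exists_sub`. `y ∈ L δ`, `y ⊆ L α`, `α` a limit. Choose a limit `Ω < δ` with `y ∈ L Ω` and `α < Ω` (`U_lim`, `exists_lim` of `LGr/Aom.lean`). Let `ι = Option (L α)`, `s : ι → L Ω`, `s (some x) = x`, `s none = y` (internal: `IF.optElim`, `if_incl`), `H` the internal hull (`exists_hul`), `X = vs H = hul s`, closed, contains `L α` and `y`. `icond`: `τ ≤ Ω`, `π`.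
`π x = x` for `x ∈ L α` (`Cnd.id` for the transitive set `L α ⊆ X`), `π y = y` (`Cnd.id'`). So `y ∈ L τ`, and `L α ⊆ L τ`, so `α ≤ τ` (`ord_mem_L`: an ordinal below `α` is below `τ`). The surjection: `(n, l) ↦ π (B n (tl (l.map s)))` (`if_hul`, `IF.toSb`, `icond`, `IF.of_cd` to change the target to `L τ`); onto by `Cnd.onto`. -/

namespace LBB

open STP LGr WCal WM

variable {δ : Ordinal.{0}} [hG : GM δ] {α : Ordinal.{0}} [ha : Fact (α < δ)]

/-- a subset of `L α` in the model is an element of a level which has at most the size of `L α` -/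
theorem exists_sub (hα : Order.IsSuccLimit α) {y : ZFSet.{0}} (hy : y ∈ L δ) (hs : ∀ z ∈ y, z ∈ L α) :
    ∃ (τ : Ordinal.{0}) (h : Fact (τ < δ)), Order.IsSuccLimit τ ∧ α ≤ τ ∧ y ∈ L τ ∧
      ∃ e : ℕ × List (Option (L α)) → L τ, IF (L δ) e ∧ Function.Surjective e := by
  obtain ⟨γ, hγ, hyγ⟩ := (U_lim F0 hG.lim).1 hy
  obtain ⟨Ω, h1, h2, hΩ⟩ := exists_lim (Φ := F0) hG.lim (α := max α γ) (max_lt ha.out hγ)
  have hf : Fact (Ω < δ) := ⟨h2⟩
  have hαΩ : α ≤ Ω := (le_max_left _ _).trans h1.le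
  have hyΩ : y ∈ L Ω := U_mono F0 ((le_max_right _ _).trans h1.le) hyγ
  obtain ⟨s, hsI, hs1, hs2⟩ : ∃ s : Option (L α) → L Ω, IF (L δ) s ∧ (s none).1 = y ∧
      ∀ x : L α, (s (some x)).1 = x.1 :=
    ⟨fun o => o.elim ⟨y, hyΩ⟩ (fun x => ⟨x.1, U_mono F0 hαΩ x.2⟩),
      IF.optElim IF.id (IF.const _) ((if_incl hαΩ).comp IF.snd), rfl, fun _ => rfl⟩
  obtain ⟨H, hH⟩ := exists_hul hΩ hsI
  have hcls : Cls (vs H) := by
    rw [hH]
    exact cls_hul _
  have hsome : L α ⊆ vs H := by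
    intro x hx
    have h3 := mem_hul (fun i => (s i).1) (some ⟨x, hx⟩)
    rw [hs2] at h3
    rw [hH]
    exact h3
  have hyX : y ∈ vs H := by
    have h3 := mem_hul (fun i => (s i).1) none
    rw [hs1] at h3
    rw [hH]
    exact h3
  obtain ⟨τ, hτ, π, hc, hm, hπ⟩ := icond hΩ hcls
  have hτδ : Fact (τ < δ) := ⟨hτ.trans_lt h2⟩
  have hid : ∀ x ∈ L α, π x = x := fun x hx =>
    hc.id (T := L α) (fun x hx y hy => U_trans F0 hx hy) hsome hx
  have hidy : π y = y := hc.id' hyX fun z hz => ⟨hsome (hs z hz), hid z (hs z hz)⟩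
  have hyτ : y ∈ L τ := by
    have h3 := hc.maps y hyX
    rwa [hidy] at h3
  have hατ : α ≤ τ := by
    by_contra hcon
    rw [not_le] at hcon
    have h3 : τ.toZFSet ∈ L α := (ord_mem_L hα).2 hcon
    have h4 := hc.maps _ (hsome h3)
    rw [hid _ h3] at h4
    exact lt_irrefl _ ((ord_mem_L hc.lim).1 h4)
  have hmem : ∀ p : ℕ × List (Option (L α)), B p.1 (tl (p.2.map fun i => (s i).1)) ∈ vs H := by
    intro p
    rw [hH]
    exact ⟨p.1, p.2, rfl⟩
  have f1 := if_hul hΩ hsI fun p => vs_sub H (hmem p)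
  have f2 := IF.toSb (S := H) f1 fun p => mem_vs.1 (hmem p)
  have f3 := hπ.comp f2
  refine ⟨τ, hτδ, hc.lim, hατ, hyτ,
    fun p => ⟨π (B p.1 (tl (p.2.map fun i => (s i).1))), hc.maps _ (hmem p)⟩,
    IF.of_cd f3 fun _ => rfl, fun z => ?_⟩
  obtain ⟨x, hx, hxz⟩ := hc.onto z.1 z.2
  rw [hH] at hx
  obtain ⟨n, l, rfl⟩ := hx
  exact ⟨(n, l), Subtype.ext hxz⟩

end LBB
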