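import Pool.Agent.LBB.Bas

/-! # Closed sets satisfy the Tarski-Vaught criterion

(problem MP_328cd5_lc, black box L; architect helper69; native)

PROOFS. Let `X` be closed, `X ⊆ L τ`.
* `emp`: `sk .bot x = ∅` (`lea_none`). `fs`, `sn`: closure under terms.
* `tup`: for `u, v 0, …, v (m - 1) ∈ X` the tuple `x = (u, (v 0, (v 1, … (v (m - 1), ∅))))` is in
`X`, with `fs x = u`, `pj (sn x) i = v i` for `i < m` and `∅` for `i ≥ m` (induction on `m`, with
the sequence shifted).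
* `wit`: take `m = bd φ` (`LGr/Trn.lean`, `lsat_bd`: satisfaction depends only on the variables
below `bd φ`) and the tuple; `sk φ x` is in `X` and is a witness (`lea_spec` with
`P y ↔ y ∈ u ∧ …`; elements of `u` are in `L τ` by
  transitivity).
* `tv`: induction on the formula; `all`: if the formula fails at some `y ∈ u` then by `wit` for the
negation it fails at some `y ∈ u` in `X`. `tp` is always false (`F0`).
* `tvs`: the same for satisfaction in the subtype `X` (compare `LGr/HullC.lean`, `hull_tv`).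
* `ext`: if `x ⊄ y` then `wit` for `u = x` and the formula `¬ (0 ∈ 1)` with parameter `y` gives an
element of `x` in `X` which is not in `y`. -/

namespace LBB

open STP LGr WCal

variable {X : Set ZFSet.{0}} {τ : Ordinal.{0}}

theorem Cls.emp (h : Cls X) : ∅ ∈ X := by
  obtain ⟨x, hx⟩ := h.ne
  obtain ⟨k, hk⟩ := exists_sk .bot
  have h1 := h.B k x hx
  rw [hk x] at h1
  have h2 : LBB.sk .bot x = ∅ := lea_none fun y hy => hy.2
  rwa [h2] at h1

theorem Cls.fs (h : Cls X) {x : ZFSet.{0}} (hx : x ∈ X) : LBB.fs x ∈ X := by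
  obtain ⟨k, hk⟩ := exists_fs
  have h1 := h.B k x hx
  rwa [hk x] at h1

theorem Cls.sn (h : Cls X) {x : ZFSet.{0}} (hx : x ∈ X) : LBB.sn x ∈ X := by
  obtain ⟨k, hk⟩ := exists_sn
  have h1 := h.B k x hx
  rwa [hk x] at h1

theorem Cls.st (h : Cls X) {x : ZFSet.{0}} (hx : x ∈ X) : (LBB.st x).toZFSet ∈ X := by
  obtain ⟨k, hk⟩ := exists_st
  have h1 := h.B k x hx
  rwa [hk x] at h1

theorem Cls.lv (h : Cls X) {x : ZFSet.{0}} (hx : x ∈ X) : LBB.lv x ∈ X := by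
  obtain ⟨k, hk⟩ := exists_lv
  have h1 := h.B k x hx
  rwa [hk x] at h1

theorem Cls.sk (h : Cls X) (φ : LF) {x : ZFSet.{0}} (hx : x ∈ X) : LBB.sk φ x ∈ X := by
  obtain ⟨k, hk⟩ := exists_sk φ
  have h1 := h.B k x hx
  rwa [hk x] at h1

theorem Cls.tup (h : Cls X) (m : ℕ) {u : ZFSet.{0}} (hu : u ∈ X) {v : ℕ → ZFSet.{0}} (hv : ∀ i, v i ∈ X) :
    ∃ x ∈ X, LBB.fs x = u ∧ ∀ i < m, pj (LBB.sn x) i = v i := by
  induction m generalizing u v with
  | zero => exact ⟨ZFSet.pair u u, h.pr u hu u hu, fs_pair u u, fun i hi => by omega⟩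
  | succ m ih =>
    obtain ⟨y, hy, h1, h2⟩ := ih (hv 0) (v := fun i => v (i + 1)) fun i => hv (i + 1)
    refine ⟨ZFSet.pair u y, h.pr u hu y hy, fs_pair u y, fun i hi => ?_⟩
    rw [sn_pair]
    cases i with
    | zero => exact h1
    | succ i => exact h2 i (by omega)

private def nt (φ : LF) : LF := .imp φ .bot

theorem Cls.wit (h : Cls X) (hs : X ⊆ L τ) (φ : LF) {u : ZFSet.{0}} (hu : u ∈ X) {v : ℕ → ZFSet.{0}}
    (hv : ∀ i, v i ∈ X) (hw : ∃ y ∈ u, us u φ (cns y v)) : ∃ y ∈ X, y ∈ u ∧ us u φ (cns y v) ∧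
      ∀ z ∈ u, us u φ (cns z v) → y = z ∨ lL y z := by
  obtain ⟨x, hx, h1, h2⟩ := h.tup (bd φ) hu hv
  have key : ∀ y, us u φ (cns y (pj (LBB.sn x))) ↔ us u φ (cns y v) := by
    intro y
    refine lsat_bd φ fun i hi => ?_
    cases i with
    | zero => rfl
    | succ i => exact h2 i (by omega)
  obtain ⟨w, hw, hw2⟩ := hw
  have h3 := lea_spec (τ := τ) (P := fun y => y ∈ LBB.fs x ∧
    us (LBB.fs x) φ (cns y (pj (LBB.sn x)))) (fun y hy => by
      rw [h1] at hy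
      exact U_trans F0 (hs hu) hy.1) ⟨w, by
      rw [h1]
      exact ⟨hw, (key w).2 hw2⟩⟩
  have h4 : LBB.sk φ x ∈ X := h.sk φ hx
  change (LBB.sk φ x ∈ LBB.fs x ∧ us (LBB.fs x) φ (cns (LBB.sk φ x) (pj (LBB.sn x)))) ∧
    ∀ z, (z ∈ LBB.fs x ∧ us (LBB.fs x) φ (cns z (pj (LBB.sn x)))) →
      LBB.sk φ x = z ∨ lL (LBB.sk φ x) z at h3
  rw [h1] at h3
  exact ⟨LBB.sk φ x, h4, h3.1.1, (key _).1 h3.1.2,
    fun z hz hz2 => h3.2 z ⟨hz, (key z).2 hz2⟩⟩

theorem Cls.tv (h : Cls X) (hs : X ⊆ L τ) (φ : LF) {u : ZFSet.{0}} (hu : u ∈ X) {v : ℕ → ZFSet.{0}}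
    (hv : ∀ i, v i ∈ X) : lsat F0 (· ∈ ·) lL (fun z => z ∈ u ∧ z ∈ X) φ v ↔ us u φ v := by
  induction φ generalizing v with
  | mem i j => exact Iff.rfl
  | eq i j => exact Iff.rfl
  | lt i j => exact Iff.rfl
  | tp r i j k => exact Iff.rfl
  | bot => exact Iff.rfl
  | imp φ ψ h1 h2 => exact imp_congr (h1 hv) (h2 hv)
  | all φ ih =>
    have hc : ∀ x ∈ X, ∀ i, cns x v i ∈ X := by
      intro x hx i
      cases i with
      | zero => exact hx
      | succ i => exact hv i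
    constructor
    · intro h1 x hx
      by_contra hn
      obtain ⟨y, hy, hyu, h2, -⟩ := h.wit hs (nt φ) hu hv ⟨x, hx, hn⟩
      exact h2 ((ih (hc y hy)).1 (h1 y ⟨hyu, hy⟩))
    · intro h1 x hx
      exact (ih (hc x hx.2)).2 (h1 x hx.1)

theorem Cls.tvs (h : Cls X) (hs : X ⊆ L τ) (φ : LF) {u : ZFSet.{0}} (hu : u ∈ X) (v : ℕ → X) :
    lsat F0 (S := X) (fun x y => x.1 ∈ y.1) (fun x y => lL x.1 y.1) (fun x => x.1 ∈ u) φ v ↔
      us u φ (fun i => (v i).1) := by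
  induction φ generalizing v with
  | mem i j => exact Iff.rfl
  | eq i j => exact Subtype.ext_iff
  | lt i j => exact Iff.rfl
  | tp r i j k => simp only [us, lsat, F0, and_false, exists_false]
  | bot => exact Iff.rfl
  | imp φ ψ h1 h2 => exact imp_congr (h1 v) (h2 v)
  | all φ ih =>
    have hc : ∀ x : X, (fun i => (cns x v i).1) = cns x.1 fun i => (v i).1 := by
      intro x
      funext i
      cases i with
      | zero => rfl
      | succ i => rfl
    constructor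
    · intro h1 x hx
      by_contra hn
      obtain ⟨y, hy, hyu, h2, -⟩ := h.wit hs (nt φ) hu (v := fun i => (v i).1)
        (fun i => (v i).2) ⟨x, hx, hn⟩
      have h3 := (ih (cns ⟨y, hy⟩ v)).1 (h1 ⟨y, hy⟩ hyu)
      rw [hc] at h3
      exact h2 h3
    · intro h1 x hx
      rw [ih, hc]
      exact h1 x.1 hx

theorem Cls.ext (h : Cls X) (hs : X ⊆ L τ) {x y : ZFSet.{0}} (hx : x ∈ X) (hy : y ∈ X)
    (he : ∀ z ∈ X, z ∈ x ↔ z ∈ y) : x = y := by
  have key : ∀ x ∈ X, ∀ y ∈ X, (∀ z ∈ X, z ∈ x → z ∈ y) → ∀ z ∈ x, z ∈ y := by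
    intro x hx y hy he z hz
    by_contra hn
    obtain ⟨w, hw, hwx, h2, -⟩ := h.wit hs (nt (.mem 0 1)) hx (v := fun _ => y)
      (fun _ => hy) ⟨z, hz, hn⟩
    exact h2 (he w hw hwx)
  exact ZFSet.ext fun z => ⟨key x hx y hy (fun z hz => (he z hz).1) z,
    key y hy x hx (fun z hz => (he z hz).2) z⟩

end LBB
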